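import Pool.Agent.R925.FD.Main
import Pool.Agent.W313.BMX.Final

/-! Adelic points orthogonal to classes of the Brauer group. -/

set_option autoImplicit false

namespace Pool.Agent.R925.FD

open Finset Polynomial
open Pool.Agent.W313.BMX (Fam ram IsTest Splits)

/-- Coprime polynomials have no common zero over a field, also at infinity. -/
lemma coprime_field {f₁ f₂ : ℤ[X]} (h0 : f₁ ≠ 0)
    (h : IsCoprime (f₁.map (Int.castRingHom ℚ)) (f₂.map (Int.castRingHom ℚ)))
    {F : Type} [Field F] [CharZero F] {z w : F} (hzw : z ≠ 0 ∨ w ≠ 0) (h1 : hom f₁ z w = 0) :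
    hom f₂ z w ≠ 0 := by
  intro h2
  by_cases hw : w = 0
  · subst hw
    rw [hom_zero_right] at h1
    rcases mul_eq_zero.1 h1 with h3 | h3
    · exact leadingCoeff_ne_zero.2 h0 (Int.cast_eq_zero.1 h3)
    · exact pow_ne_zero _ (hzw.resolve_right (fun h => h rfl)) h3
  · rw [hom_div _ _ hw] at h1 h2
    have hwn : ∀ n : ℕ, w ^ n ≠ 0 := fun n => pow_ne_zero n hw
    have h3 := (mul_eq_zero.1 h1).resolve_left (hwn _)
    have h4 := (mul_eq_zero.1 h2).resolve_left (hwn _)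
    obtain ⟨a, b, hab⟩ := h
    have h5 := congrArg (eval₂ (Rat.castHom F) (z / w)) hab
    have e : (Rat.castHom F).comp (Int.castRingHom ℚ) = Int.castRingHom F := RingHom.ext_int _ _
    rw [eval₂_add, eval₂_mul, eval₂_mul, eval₂_map, eval₂_map, e, h3, h4, mul_zero, mul_zero,
      add_zero, eval₂_one] at h5
    exact zero_ne_one h5

section values

variable {K : Type} [Fintype K] [DecidableEq K]

open Classical in
/-- The value of the `k`-th factor at `(z, w)`, modulo squares; at a zero of the `k`-th factor it is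
computed from the other factors. -/
noncomputable def cval (b : ℤ) (g : K → ℤ[X]) {F : Type} [Field F] (z w : F) (k : K) : F :=
  if hom (g k) z w ≠ 0 then hom (g k) z w else b * ∏ l ∈ univ.erase k, hom (g l) z w

variable {b : ℤ} {g : K → ℤ[X]} {F : Type} [Field F] [CharZero F] {z w : F}

lemma cval_of_ne {k : K} (h : hom (g k) z w ≠ 0) : cval b g z w k = hom (g k) z w := if_pos h

lemma cval_of_eq {k : K} (h : hom (g k) z w = 0) :
    cval b g z w k = b * ∏ l ∈ univ.erase k, hom (g l) z w := if_neg (not_not.2 h)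

lemma others (hg0 : ∀ k, g k ≠ 0) (hgg : ∀ k l, k ≠ l →
    IsCoprime ((g k).map (Int.castRingHom ℚ)) ((g l).map (Int.castRingHom ℚ)))
    (hzw : z ≠ 0 ∨ w ≠ 0) {k : K} (h : hom (g k) z w = 0) :
    ∏ l ∈ univ.erase k, hom (g l) z w ≠ 0 :=
  prod_ne_zero_iff.2 fun l hl =>
    coprime_field (hg0 k) (hgg k l (ne_of_mem_erase hl).symm) hzw h

lemma cval_ne (hb : b ≠ 0) (hg0 : ∀ k, g k ≠ 0) (hgg : ∀ k l, k ≠ l →
    IsCoprime ((g k).map (Int.castRingHom ℚ)) ((g l).map (Int.castRingHom ℚ)))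
    (hzw : z ≠ 0 ∨ w ≠ 0) (k : K) : cval b g z w k ≠ 0 := by
  by_cases h : hom (g k) z w = 0
  · rw [cval_of_eq h]
    exact mul_ne_zero (Int.cast_ne_zero.2 hb) (others hg0 hgg hzw h)
  · rwa [cval_of_ne h]

lemma cval_prod (hg0 : ∀ k, g k ≠ 0) (hgg : ∀ k l, k ≠ l →
    IsCoprime ((g k).map (Int.castRingHom ℚ)) ((g l).map (Int.castRingHom ℚ)))
    (hzw : z ≠ 0 ∨ w ≠ 0) {y : F} (hy : (b : F) * y ^ 2 = ∏ k, hom (g k) z w) :
    IsSquare ((b : F) * ∏ k, cval b g z w k) := by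
  by_cases h : ∃ k, hom (g k) z w = 0
  · obtain ⟨k, hk⟩ := h
    have h1 : ∏ l ∈ univ.erase k, cval b g z w l = ∏ l ∈ univ.erase k, hom (g l) z w :=
      prod_congr rfl fun l hl =>
        cval_of_ne (coprime_field (hg0 k) (hgg k l (ne_of_mem_erase hl).symm) hzw hk)
    refine ⟨b * ∏ l ∈ univ.erase k, hom (g l) z w, ?_⟩
    rw [← mul_prod_erase univ _ (mem_univ k), h1, cval_of_eq hk]
    ring
  · push Not at h
    have h1 : ∏ k, cval b g z w k = ∏ k, hom (g k) z w := prod_congr rfl fun l _ => cval_of_ne (h l)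
    refine ⟨b * y, ?_⟩
    rw [h1, ← hy]
    ring

lemma cval_cov {k : K} {n : ℤ} (hn : n ≠ 0) (h : IsSquare (cval b g z w k * (n : F))) :
    ∃ y : F, hom (g k) z w = (n : F) * y ^ 2 := by
  by_cases h0 : hom (g k) z w = 0
  · exact ⟨0, by rw [h0]; ring⟩
  · rw [cval_of_ne h0] at h
    obtain ⟨r, hr⟩ := h
    have hn' : (n : F) ≠ 0 := Int.cast_ne_zero.2 hn
    refine ⟨r / n, ?_⟩
    rw [div_pow, sq r, ← hr]
    field_simp

end values

section padic

variable {p : ℕ} [hp : Fact p.Prime]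

lemma val_prod {ι : Type} [DecidableEq ι] (s : Finset ι) (f : ι → ℚ_[p]) (hf : ∀ i ∈ s, f i ≠ 0) :
    (∏ i ∈ s, f i).valuation = ∑ i ∈ s, (f i).valuation := by
  induction s using Finset.induction_on with
  | empty => simp
  | insert a s ha ih =>
    rw [prod_insert ha, sum_insert ha, Padic.valuation_mul (hf a (mem_insert_self a s))
      (prod_ne_zero_iff.2 fun i hi => hf i (mem_insert_of_mem hi)),
      ih fun i hi => hf i (mem_insert_of_mem hi)]

/-- an element of even valuation -/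
lemma rep_even {a : ℚ_[p]} (ha : a ≠ 0) (h : Even a.valuation) :
    ∃ (m : ℤ) (c : ℚ_[p]), ¬ (p : ℤ) ∣ m ∧ c ≠ 0 ∧ a = m * c ^ 2 := by
  obtain ⟨t, m, c, ht, hm, hc, e⟩ := Pool.Agent.W310.BMX.odd4 p a ha
  have hm0 : (m : ℚ_[p]) ≠ 0 := by
    have : m ≠ 0 := by
      rintro rfl
      exact hm (dvd_zero _)
    exact_mod_cast this
  have hp0 : ((p : ℕ) : ℚ_[p]) ≠ 0 := by
    have := (Fact.out : p.Prime).ne_zero
    exact_mod_cast this
  have h1 := congrArg Padic.valuation e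
  push_cast at h1
  rw [Padic.valuation_mul (mul_ne_zero (pow_ne_zero t hp0) hm0) (pow_ne_zero 2 hc),
    Padic.valuation_mul (pow_ne_zero t hp0) hm0, Padic.valuation_pow, Padic.valuation_pow,
    Padic.valuation_p, Padic.valuation_intCast, padicValInt.eq_zero_iff.2 (Or.inr (Or.inr hm))]
    at h1
  have ht0 : t = 0 := by
    obtain ⟨r, hr⟩ := h
    push_cast at h1
    omega
  refine ⟨m, c, hm, hc, ?_⟩
  rw [e, ht0]
  push_cast
  ring

lemma cval_even {K : Type} [Fintype K] [DecidableEq K] {g : K → ℤ[X]} (hg0 : ∀ k, g k ≠ 0)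
    (hgg : ∀ k l, k ≠ l →
      IsCoprime ((g k).map (Int.castRingHom ℚ)) ((g l).map (Int.castRingHom ℚ)))
    (hdeg : ∀ k, 2 ∣ (g k).natDegree)
    (hNC : ∀ u v : ZMod p, (u ≠ 0 ∨ v ≠ 0) → ∀ k l, k ≠ l → hom (g k) u v = 0 → hom (g l) u v ≠ 0)
    {b : ℤ} (hb : b ≠ 0) (hbp : ¬ (p : ℤ) ∣ b) {z w : ℚ_[p]} (hzw : z ≠ 0 ∨ w ≠ 0) {y : ℚ_[p]}
    (hy : (b : ℚ_[p]) * y ^ 2 = ∏ k, hom (g k) z w) (k : K) :
    Even (cval b g z w k).valuation := by
  obtain ⟨c, z', w', hc, hz, hw, hu⟩ := primitive hzw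
  have hbv : (b : ℚ_[p]).valuation = 0 := by
    rw [Padic.valuation_intCast, padicValInt.eq_zero_of_not_dvd hbp]
    rfl
  have hb0 : (b : ℚ_[p]) ≠ 0 := Int.cast_ne_zero.2 hb
  -- the factors that do not vanish modulo `p`
  have key : ∀ k, hom (g k) (PadicInt.toZMod z') (PadicInt.toZMod w') ≠ 0 →
      hom (g k) z w ≠ 0 ∧ Even (hom (g k) z w).valuation := by
    intro k hk
    rw [← hom_map] at hk
    obtain ⟨e, he⟩ := hdeg k
    have h1 : ((hom (g k) z' w' : ℤ_[p]) : ℚ_[p]) = (c ^ e) ^ 2 * hom (g k) z w := by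
      rw [hom_coe, ← hz, ← hw, hom_mul, he, ← pow_mul, mul_comm e 2]
    have h2 := val_of_toZMod hk
    have h3 := coe_ne_zero_of hk
    rw [h1] at h2 h3
    have h4 := right_ne_zero_of_mul h3
    have h5 := left_ne_zero_of_mul h3
    rw [Padic.valuation_mul h5 h4, Padic.valuation_pow] at h2
    refine ⟨h4, ⟨-(c ^ e).valuation, ?_⟩⟩
    push_cast at h2
    linarith
  by_cases hk : hom (g k) (PadicInt.toZMod z') (PadicInt.toZMod w') = 0
  · have hoth : ∀ l ∈ univ.erase k, hom (g l) z w ≠ 0 ∧ Even (hom (g l) z w).valuation :=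
      fun l hl => key l (hNC _ _ hu k l (ne_of_mem_erase hl).symm hk)
    have hsum : Even (∏ l ∈ univ.erase k, hom (g l) z w).valuation := by
      rw [val_prod _ _ fun l hl => (hoth l hl).1]
      exact even_iff_two_dvd.2 (dvd_sum fun l hl => even_iff_two_dvd.1 (hoth l hl).2)
    have hprod0 : ∏ l ∈ univ.erase k, hom (g l) z w ≠ 0 :=
      prod_ne_zero_iff.2 fun l hl => (hoth l hl).1
    by_cases h0 : hom (g k) z w = 0
    · rw [cval_of_eq h0, Padic.valuation_mul hb0 hprod0, hbv, zero_add]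
      exact hsum
    · rw [cval_of_ne h0]
      rw [← mul_prod_erase univ _ (mem_univ k)] at hy
      have hy0 : y ≠ 0 := by
        rintro rfl
        rw [zero_pow two_ne_zero, mul_zero] at hy
        exact mul_ne_zero h0 hprod0 hy.symm
      have h1 := congrArg Padic.valuation hy
      rw [Padic.valuation_mul hb0 (pow_ne_zero 2 hy0), Padic.valuation_mul h0 hprod0, hbv,
        Padic.valuation_pow] at h1
      obtain ⟨r, hr⟩ := hsum
      refine ⟨y.valuation - r, ?_⟩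
      push_cast at h1
      linarith
  · obtain ⟨h1, h2⟩ := key k hk
    rw [cval_of_ne h1]
    exact h2

end padic

section adelic

variable {K : Type} [Fintype K] [DecidableEq K]

/-- A point over `F` of the curve `b * y ^ 2 = ∏ k, G k (z, w)`, `a * x ^ m = H (z, w)` (in a weighted
projective space). -/
structure Point (m : ℕ) (b a : ℤ) (g : K → ℤ[X]) (h : ℤ[X]) (F : Type) [Field F] where
  /-- the first coordinate -/
  z : F
  /-- the second coordinate -/
  w : F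
  /-- the third coordinate -/
  x : F
  /-- the fourth coordinate -/
  y : F
  ne : z ≠ 0 ∨ w ≠ 0
  eq₁ : (b : F) * y ^ 2 = ∏ k, hom (g k) z w
  eq₂ : (a : F) * x ^ m = hom h z w

/-- An adelic point of the curve. -/
structure AdelicPoint (m : ℕ) (b a : ℤ) (g : K → ℤ[X]) (h : ℤ[X]) where
  /-- the real component -/
  re : Point m b a g h ℝ
  /-- the `p`-adic components -/
  pa : ∀ p : Nat.Primes, Point m b a g h ℚ_[(p : ℕ)]

open Classical in
/-- The value of `G k` at a point, modulo squares; at a zero of `G k` it is computed from the other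
factors. -/
noncomputable def value {m : ℕ} {b a : ℤ} {g : K → ℤ[X]} {h : ℤ[X]} {F : Type} [Field F]
    (P : Point m b a g h F) (k : K) : F :=
  if hom (g k) P.z P.w ≠ 0 then hom (g k) P.z P.w else b * ∏ l ∈ univ.erase k, hom (g l) P.z P.w

/-- The values of `G k` at the components of an adelic point. -/
noncomputable def values {m : ℕ} {b a : ℤ} {g : K → ℤ[X]} {h : ℤ[X]}
    (P : AdelicPoint m b a g h) (k : K) : Fam :=
  ⟨value P.re k, fun p => value (P.pa p) k⟩

/-- The adelic point is orthogonal to the classes `(G k, e)`, `e` a nonzero integer, of the Brauer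
group of the curve: the number of the places at which the value of the class is not trivial (the
Hilbert symbol of the value of `G k` and `e` is `-1`) is even, so that the sum of the invariants is
zero. -/
def Orthogonal {m : ℕ} {b a : ℤ} {g : K → ℤ[X]} {h : ℤ[X]} (P : AdelicPoint m b a g h) : Prop :=
  ∀ (k : K) (e : ℤ), e ≠ 0 → Even (ram (values P k) e).ncard

variable {b : ℤ} {g : K → ℤ[X]} {h : ℤ[X]}

/-- the values have even valuation at almost all primes -/
lemma fin_ (hb : b ≠ 0) (hg0 : ∀ k, g k ≠ 0) (hh0 : h ≠ 0) (hdeg : ∀ k, 2 ∣ (g k).natDegree)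
    (hgg : ∀ k l, k ≠ l →
      IsCoprime ((g k).map (Int.castRingHom ℚ)) ((g l).map (Int.castRingHom ℚ)))
    (hgh : ∀ k, IsCoprime (h.map (Int.castRingHom ℚ)) ((g k).map (Int.castRingHom ℚ))) :
    ∃ z0 : ℕ, ∀ (p : ℕ) [Fact p.Prime], z0 < p → ∀ (m : ℕ) (a : ℤ) (P : Point m b a g h ℚ_[p])
      (k : K), ∃ (n : ℤ) (c : ℚ_[p]), ¬ (p : ℤ) ∣ n ∧ c ≠ 0 ∧ value P k = n * c ^ 2 := by
  obtain ⟨N, hN, hgood⟩ := good_primes g h hg0 hh0 hgg hgh
  refine ⟨max N b.natAbs, fun p hp hpz m a P k => ?_⟩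
  have h1 : ¬ p ∣ N := fun h => by
    have := Nat.le_of_dvd hN h
    omega
  have h2 : ¬ (p : ℤ) ∣ b := fun h => by
    have := Nat.le_of_dvd (Int.natAbs_pos.2 hb) (Int.natCast_dvd.1 h)
    omega
  exact rep_even (cval_ne hb hg0 hgg P.ne k) (cval_even hg0 hgg hdeg
    (fun u v huv => (hgood p hp h1 u v huv).1) hb h2 P.ne P.eq₁ k)

/-- An orthogonal adelic point has a class. -/
theorem class_of_orthogonal (hb : b ≠ 0) (hg0 : ∀ k, g k ≠ 0) (hh0 : h ≠ 0)
    (hdeg : ∀ k, 2 ∣ (g k).natDegree)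
    (hgg : ∀ k l, k ≠ l →
      IsCoprime ((g k).map (Int.castRingHom ℚ)) ((g l).map (Int.castRingHom ℚ)))
    (hgh : ∀ k, IsCoprime (h.map (Int.castRingHom ℚ)) ((g k).map (Int.castRingHom ℚ)))
    {m : ℕ} {a : ℤ} (P : AdelicPoint m b a g h) (hP : Orthogonal P) :
    ∃ n : K → ℤ, (∀ k, Squarefree (n k)) ∧ IsClass 2 b (fun k => (n k : ℚ)) ∧
      (∀ k, IsSquare (value P.re k * (n k : ℝ))) ∧
      ∀ k (p : Nat.Primes), IsSquare (value (P.pa p) k * (n k : ℚ_[(p : ℕ)])) := by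
  classical
  obtain ⟨z, hz⟩ := fin_ hb hg0 hh0 hdeg hgg hgh
  have hvr : ∀ k, value P.re k ≠ 0 := fun k => cval_ne hb hg0 hgg P.re.ne k
  have hvp : ∀ (p : Nat.Primes) (k : K), value (P.pa p) k ≠ 0 :=
    fun p k => cval_ne hb hg0 hgg (P.pa p).ne k
  have hex' : ∀ k, ∃ n : ℤ, Squarefree n ∧ IsSquare (value P.re k * (n : ℝ)) ∧
      ∀ p : Nat.Primes, IsSquare (value (P.pa p) k * (n : ℚ_[(p : ℕ)])) := by
    intro k
    apply Pool.Agent.W313.BMX.hexact (values P k) (hvr k) (fun p => hvp p k)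
    · have h1 : {p : Nat.Primes | (p : ℕ) ≤ z}.Finite := by
        have h2 : (Set.Iic z).Finite := Set.finite_Iic z
        exact h2.preimage (Subtype.val_injective.injOn)
      apply h1.subset
      intro p hp
      by_contra hpz
      have hpz' : z < (p : ℕ) := not_le.1 hpz
      obtain ⟨n, c, hm, -, hmc⟩ := hz (p : ℕ) hpz' m a (P.pa p) k
      exact hp n c hm hmc
    · intro e he _
      apply hP k e
      rcases he with rfl | rfl | ⟨h1, h2⟩
      · norm_num
      · norm_num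
      · rintro rfl
        norm_num at h2
  choose n hn1 hn2 hn3 using hex'
  have hn0 : ∀ k, n k ≠ 0 := fun k => (hn1 k).ne_zero
  have hprod : ∀ {F : Type} [Field F] [CharZero F] (v : K → F), (∀ k, v k ≠ 0) →
      (∀ k, IsSquare (v k * (n k : F))) → IsSquare ((b : F) * ∏ k, v k) →
      IsSquare (((b * ∏ k, n k : ℤ)) : F) := by
    intro F _ _ v hv hvn hdv
    have h1 : IsSquare ((∏ k, v k) * ∏ k, (n k : F)) := by
      rw [← Finset.prod_mul_distrib]
      choose r hr using hvn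
      refine ⟨∏ k, r k, ?_⟩
      rw [← Finset.prod_mul_distrib]
      exact Finset.prod_congr rfl fun k _ => hr k
    have h2 := Pool.Agent.W313.BMX.isSquare_div hdv (Finset.prod_ne_zero_iff.2 fun k _ => hv k) h1
    push_cast
    exact h2
  have hsq : IsSquare (b * ∏ k, n k) := by
    apply Pool.Agent.W313.BMX.isSquare_of_local
    · exact mul_ne_zero hb (Finset.prod_ne_zero_iff.2 fun k _ => hn0 k)
    · exact hprod (fun k => value P.re k) hvr hn2 (cval_prod hg0 hgg P.re.ne P.re.eq₁)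
    · intro p
      exact hprod (fun k => value (P.pa p) k) (hvp p) (fun k => hn3 k p)
        (cval_prod hg0 hgg (P.pa p).ne (P.pa p).eq₁)
  refine ⟨n, hn1, ⟨fun k => Int.cast_ne_zero.2 (hn0 k), ?_⟩, hn2, hn3⟩
  obtain ⟨s, hs⟩ := hsq
  refine ⟨(s : ℚ) / b, ?_⟩
  have hb' : (b : ℚ) ≠ 0 := Int.cast_ne_zero.2 hb
  have hs' : (b : ℚ) * ∏ k, (n k : ℚ) = s * s := by exact_mod_cast hs
  have h3 : ∏ k, (n k : ℚ) = s * s / b := by
    rw [← hs']
    field_simp
  rw [h3]
  field_simp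

/-- The number of the ramified places is finite. -/
theorem ram_finite (hb : b ≠ 0) (hg0 : ∀ k, g k ≠ 0) (hh0 : h ≠ 0)
    (hdeg : ∀ k, 2 ∣ (g k).natDegree)
    (hgg : ∀ k l, k ≠ l →
      IsCoprime ((g k).map (Int.castRingHom ℚ)) ((g l).map (Int.castRingHom ℚ)))
    (hgh : ∀ k, IsCoprime (h.map (Int.castRingHom ℚ)) ((g k).map (Int.castRingHom ℚ)))
    {m : ℕ} {a : ℤ} (P : AdelicPoint m b a g h) (k : K) (e : ℤ) (he : e ≠ 0) :
    (ram (values P k) e).Finite := by
  obtain ⟨z, hz⟩ := fin_ hb hg0 hh0 hdeg hgg hgh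
  have h1 : {p : Nat.Primes | (p : ℕ) ≤ max z (max 2 e.natAbs)}.Finite := by
    have h2 : (Set.Iic (max z (max 2 e.natAbs))).Finite := Set.finite_Iic _
    exact h2.preimage (Subtype.val_injective.injOn)
  apply ((h1.image some).insert none).subset
  intro v hv
  match v with
  | none => exact Or.inl rfl
  | some p =>
    refine Or.inr ⟨p, ?_, rfl⟩
    by_contra hpz
    have hpz' : max z (max 2 e.natAbs) < (p : ℕ) := not_le.1 hpz
    obtain ⟨n, c, hm, hc, hmc⟩ := hz (p : ℕ) (by omega) m a (P.pa p) k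
    apply hv
    change Splits (value (P.pa p) k) _
    rw [hmc, Pool.Agent.W313.BMX.splits_mul_sq hc]
    refine Pool.Agent.W335.BMX.odd2 _ (by omega) n e hm ?_
    intro h
    have h3 := Int.natCast_dvd.1 h
    have := Nat.le_of_dvd (Int.natAbs_pos.2 he) h3
    omega

/-- **The theorem on orthogonal adelic points.** -/
theorem bm_main (hb : b ≠ 0) (hg0 : ∀ k, g k ≠ 0) (hh0 : h ≠ 0)
    (hdeg : ∀ k, 2 ∣ (g k).natDegree)
    (hgg : ∀ k l, k ≠ l →
      IsCoprime ((g k).map (Int.castRingHom ℚ)) ((g l).map (Int.castRingHom ℚ)))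
    (hgh : ∀ k, IsCoprime (h.map (Int.castRingHom ℚ)) ((g k).map (Int.castRingHom ℚ))) :
    ∃ κ : ℝ, 0 < κ ∧ ∃ C : ℝ, ∀ X : ℕ, 3 ≤ X →
      ({a : ℤ | a.natAbs ≤ X ∧ Squarefree a ∧ ∃ m, 2 ≤ m ∧ m ∣ h.natDegree ∧
        ∃ P : AdelicPoint m b a g h, Orthogonal P ∧ ¬ ∃ n : K → ℤ, (∀ k, Squarefree (n k)) ∧
          IsClass 2 b (fun k => (n k : ℚ)) ∧ Persistent 2 g h (fun k => (n k : ℚ)) ∧
          (∀ k, IsSquare (value P.re k * (n k : ℝ))) ∧
          ∀ k (p : Nat.Primes), IsSquare (value (P.pa p) k * (n k : ℚ_[(p : ℕ)]))}.ncard : ℝ) ≤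
        C * X * (Real.log X) ^ (-κ) := by
  obtain ⟨κ, hκ, C, hC⟩ := main 2 (by norm_num) b hb g h hg0 hh0 hdeg hgg hgh
  refine ⟨κ, hκ, C, fun X hX => le_trans ?_ (hC X hX)⟩
  refine Nat.cast_le.2 (Set.ncard_le_ncard ?_ ?_)
  · rintro a ⟨h1, h2, m, hm, hmh, P, hP, hno⟩
    obtain ⟨n, hn1, hn2, hn3, hn4⟩ := class_of_orthogonal hb hg0 hh0 hdeg hgg hgh P hP
    refine ⟨h1, h2, m, hm, hmh, fun k => (n k : ℚ), hn2, fun hper => ?_, ?_⟩
    · exact hno ⟨n, hn1, hn2, hper, hn3, hn4⟩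
    · intro p hp
      refine ⟨(P.pa ⟨p, hp.out⟩).z, (P.pa ⟨p, hp.out⟩).w, (P.pa ⟨p, hp.out⟩).x,
        (P.pa ⟨p, hp.out⟩).ne, (P.pa ⟨p, hp.out⟩).eq₂, fun k => ?_⟩
      obtain ⟨y, hy⟩ := cval_cov (b := b) (hn1 k).ne_zero (hn4 k ⟨p, hp.out⟩)
      refine ⟨y, ?_⟩
      rw [hy]
      push_cast
      rfl
  · apply (Set.finite_Icc (-(X : ℤ)) X).subset
    intro d hd
    have h1 : d.natAbs ≤ X := hd.1
    rw [Set.mem_Icc]
    omega

end adelic

end Pool.Agent.R925.FD
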