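import Mathlib

/-! Automorphisms which change the signs of given square roots. -/

set_option autoImplicit false

namespace Pool.Agent.R925.FD

lemma exists_neg_aux (W : Type) [Field W] [Algebra ℚ W] [IsGalois ℚ W] (x : W) (q : ℚ)
    (hx : x ^ 2 = algebraMap ℚ W q) (hq : ¬ IsSquare q) : ∃ σ : W ≃ₐ[ℚ] W, σ x = -x := by
  by_contra h
  push Not at h
  have h1 : ∀ σ : W ≃ₐ[ℚ] W, σ x = x := by
    intro σ
    have h2 : (σ x) ^ 2 = x ^ 2 := by rw [← map_pow, hx, AlgEquiv.commutes]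
    rcases sq_eq_sq_iff_eq_or_eq_neg.1 h2 with h3 | h3
    · exact h3
    · exact absurd h3 (h σ)
  have h2 : x ∈ (⊥ : IntermediateField ℚ W) := (InfiniteGalois.mem_bot_iff_fixed x).2 h1
  obtain ⟨r, hr⟩ := IntermediateField.mem_bot.1 h2
  apply hq
  refine ⟨r, ?_⟩
  apply (algebraMap ℚ W).injective
  rw [← hx, ← hr, map_mul, sq]

lemma exists_neg (x : AlgebraicClosure ℚ) (q : ℚ) (hx : x ^ 2 = (q : AlgebraicClosure ℚ))
    (hq : ¬ IsSquare q) : ∃ σ : AlgebraicClosure ℚ ≃ₐ[ℚ] AlgebraicClosure ℚ, σ x = -x :=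
  @exists_neg_aux (AlgebraicClosure ℚ) _ (AlgebraicClosure.instAlgebra ℚ) inferInstance x q
    (by rw [hx, eq_ratCast]) hq

lemma pm {x : AlgebraicClosure ℚ} {q : ℚ} (hx : x ^ 2 = (q : AlgebraicClosure ℚ))
    (σ : AlgebraicClosure ℚ ≃ₐ[ℚ] AlgebraicClosure ℚ) : σ x = x ∨ σ x = -x := by
  have h2 : (σ x) ^ 2 = x ^ 2 := by rw [← map_pow, hx, map_ratCast]
  exact sq_eq_sq_iff_eq_or_eq_neg.1 h2

/-- two square roots, in a set of automorphisms closed under composition -/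
lemma two {x y : AlgebraicClosure ℚ} {q r : ℚ} (hx : x ^ 2 = (q : AlgebraicClosure ℚ))
    (hy : y ^ 2 = (r : AlgebraicClosure ℚ))
    (P : (AlgebraicClosure ℚ ≃ₐ[ℚ] AlgebraicClosure ℚ) → Prop)
    (hP : ∀ σ τ : AlgebraicClosure ℚ ≃ₐ[ℚ] AlgebraicClosure ℚ, P σ → P τ → P (σ.trans τ))
    (h1 : ∃ σ : AlgebraicClosure ℚ ≃ₐ[ℚ] AlgebraicClosure ℚ, P σ ∧ σ x = -x)
    (h2 : ∃ σ : AlgebraicClosure ℚ ≃ₐ[ℚ] AlgebraicClosure ℚ, P σ ∧ σ y = -y) :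
    ∃ σ : AlgebraicClosure ℚ ≃ₐ[ℚ] AlgebraicClosure ℚ, P σ ∧ σ x = -x ∧ σ y = -y := by
  obtain ⟨σ, hσ, hσx⟩ := h1
  obtain ⟨τ, hτ, hτy⟩ := h2
  rcases pm hy σ with h3 | h3
  · rcases pm hx τ with h4 | h4
    · refine ⟨σ.trans τ, hP σ τ hσ hτ, ?_, ?_⟩
      · rw [AlgEquiv.trans_apply, hσx, map_neg, h4]
      · rw [AlgEquiv.trans_apply, h3, hτy]
    · exact ⟨τ, hτ, h4, hτy⟩
  · exact ⟨σ, hσ, hσx, h3⟩

/-- change the sign of `x` and fix `t` -/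
lemma fix_neg {x t : AlgebraicClosure ℚ} {q d : ℚ} (hx : x ^ 2 = (q : AlgebraicClosure ℚ))
    (ht : t ^ 2 = (d : AlgebraicClosure ℚ)) (hq : ¬ IsSquare q)
    (hqd : ¬ IsSquare (q * d)) :
    ∃ σ : AlgebraicClosure ℚ ≃ₐ[ℚ] AlgebraicClosure ℚ, σ t = t ∧ σ x = -x := by
  have hxt : (x * t) ^ 2 = ((q * d : ℚ) : AlgebraicClosure ℚ) := by
    rw [mul_pow, hx, ht, Rat.cast_mul]
  obtain ⟨σ, -, h1, h2⟩ := two hx hxt (fun _ => True) (fun _ _ _ _ => trivial)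
    (by obtain ⟨σ, hσ⟩ := exists_neg x q hx hq; exact ⟨σ, trivial, hσ⟩)
    (by obtain ⟨σ, hσ⟩ := exists_neg (x * t) _ hxt hqd; exact ⟨σ, trivial, hσ⟩)
  refine ⟨σ, ?_, h1⟩
  have hq0 : q ≠ 0 := fun h => hq (by rw [h]; exact IsSquare.zero)
  have hx0 : x ≠ 0 := by
    rintro rfl
    rw [zero_pow two_ne_zero] at hx
    exact hq0 (by exact_mod_cast hx.symm)
  rw [map_mul, h1] at h2
  have h3 : -x * σ t = -x * t := by rw [h2]; ring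
  exact mul_left_cancel₀ (neg_ne_zero.2 hx0) h3

/-- change the signs of `x` and `y` and fix `t` -/
lemma fix_neg_neg {x y t : AlgebraicClosure ℚ} {q r d : ℚ} (hx : x ^ 2 = (q : AlgebraicClosure ℚ))
    (hy : y ^ 2 = (r : AlgebraicClosure ℚ)) (ht : t ^ 2 = (d : AlgebraicClosure ℚ))
    (hq : ¬ IsSquare q) (hqd : ¬ IsSquare (q * d)) (hr : ¬ IsSquare r) (hrd : ¬ IsSquare (r * d)) :
    ∃ σ : AlgebraicClosure ℚ ≃ₐ[ℚ] AlgebraicClosure ℚ, σ t = t ∧ σ x = -x ∧ σ y = -y :=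
  two hx hy (fun σ => σ t = t) (fun σ τ h1 h2 => by rw [AlgEquiv.trans_apply, h1, h2])
    (fix_neg hx ht hq hqd) (fix_neg hy ht hr hrd)

end Pool.Agent.R925.FD
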