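import Pool.Agent.R925.FD.Defs
import Pool.Agent.R925.FD.Cheb

/-! Primes modulo which a covering has no points over the zeros of `h`. -/

set_option autoImplicit false

namespace Pool.Agent.R925.FD

open Finset Polynomial NumberField
open Pool.Agent.W401.Cheb Pool.Agent.W723.SecC

/-- the covering `G k (u, v) = δ k * y ^ n` has a point over a zero of `h` modulo `p` -/
def R (p : ℕ) {K : Type} (n : ℕ) (g : K → ℤ[X]) (h : ℤ[X]) (δ : K → ℤ) : Prop :=
  ∃ u v : ZMod p, (u ≠ 0 ∨ v ≠ 0) ∧ hom h u v = 0 ∧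
    ∀ k, ∃ y : ZMod p, hom (g k) u v = (δ k : ZMod p) * y ^ n

lemma algMap_pow {p : ℕ} [Fact p.Prime] (z : ZMod p) :
    (algebraMap (ZMod p) (AlgebraicClosure (ZMod p)) z) ^ p =
      algebraMap (ZMod p) (AlgebraicClosure (ZMod p)) z := by
  rw [← map_pow, ZMod.pow_card]

theorem cheb {K : Type} [Fintype K] [DecidableEq K] (n : ℕ) (hn : 0 < n) (g : K → ℤ[X]) (h : ℤ[X])
    (hh : h ≠ 0) (hdeg : ∀ k, n ∣ (g k).natDegree) (δ : K → ℤ) (hδ : ∀ k, δ k ≠ 0)
    (σ : AlgebraicClosure ℚ ≃ₐ[ℚ] AlgebraicClosure ℚ)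
    (hσ : ∀ β, σ β = β → aeval β h = 0 →
      ∃ k, ∀ y, σ y = y → aeval β (g k) ≠ (δ k : AlgebraicClosure ℚ) * y ^ n) :
    ∃ (L : Type) (_ : Field L) (_ : NumberField L) (_ : IsGalois ℚ L) (τ : Gal(L/ℚ)) (m : ℕ),
      0 < m ∧ ∀ p ∈ frobSet L τ m, ¬ R p n g h δ := by
  classical
  set Qb := AlgebraicClosure ℚ with hQb
  have hZ : algebraMap ℤ Qb = Int.castRingHom Qb := RingHom.ext_int _ _
  have hc0 : h.leadingCoeff ≠ 0 := leadingCoeff_ne_zero.2 hh
  set c : ℤ := h.leadingCoeff with hc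
  have hcQb : (c : Qb) ≠ 0 := Int.cast_ne_zero.2 hc0
  have hδQb : ∀ k, (δ k : Qb) ≠ 0 := fun k => Int.cast_ne_zero.2 (hδ k)
  -- the finite set
  set s0 : Set Qb := {β | aeval β h = 0} with hs0
  have hs0f : s0.Finite := by
    have h1 : (h.map (Int.castRingHom Qb)) ≠ 0 :=
      (Polynomial.map_ne_zero_iff (Int.castRingHom Qb).injective_int).2 hh
    refine (Polynomial.finite_setOfPred_isRoot h1).subset ?_
    intro β hβ
    have h2 : aeval β h = 0 := hβ
    change (h.map (Int.castRingHom Qb)).IsRoot β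
    rw [IsRoot.def, eval_map]
    rw [aeval_def, hZ] at h2
    exact h2
  have hYf : ∀ A : Qb, {y : Qb | y ^ n = A}.Finite := by
    intro A
    have h1 : (X ^ n - C A : Qb[X]) ≠ 0 := X_pow_sub_C_ne_zero hn A
    refine (Polynomial.finite_setOfPred_isRoot h1).subset ?_
    intro y hy
    have h2 : y ^ n = A := hy
    change (X ^ n - C A : Qb[X]).IsRoot y
    rw [IsRoot.def, eval_sub, eval_pow, eval_X, eval_C, h2, sub_self]
  set s1 : Set Qb := ⋃ β ∈ s0, ⋃ k : K, {y : Qb | y ^ n = (δ k : Qb)⁻¹ * aeval β (g k)} with hs1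
  have hs1f : s1.Finite := hs0f.biUnion fun β _ => Set.finite_iUnion fun k => hYf _
  obtain ⟨L, iF, iN, iG, j, τ, hj, hjτ⟩ := exL σ (s0 ∪ s1) (hs0f.union hs1f)
  have hjinj : Function.Injective j := j.injective
  -- algebraic integers
  let jO : 𝓞 L →+* Qb := j.comp (algebraMap (𝓞 L) L)
  have hjOinj : Function.Injective jO :=
    hjinj.comp (FaithfulSMul.algebraMap_injective (𝓞 L) L)
  have hjOτ : ∀ x : 𝓞 L, jO (τ • x) = σ (jO x) := fun x => hjτ _
  -- the polynomial with the zeros `c β`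
  set Fh : (𝓞 L)[X] := (integralNormalization h).map (Int.castRingHom (𝓞 L)) with hFh
  have hFm : Fh.Monic := (monic_integralNormalization hh).map _
  set A : 𝓞 L → K → 𝓞 L := fun x k => (δ k : 𝓞 L) ^ (n - 1) * hom (g k) x (c : 𝓞 L) with hA
  set T : Finset (𝓞 L) := Fh.roots.toFinset ∪ Fh.roots.toFinset.biUnion fun x =>
    univ.biUnion fun k : K => (X ^ n - C (A x k) : (𝓞 L)[X]).roots.toFinset with hT
  have hm0 : 0 < c.natAbs * ∏ k, (δ k).natAbs :=
    Nat.mul_pos (Int.natAbs_pos.2 hc0) (Finset.prod_pos fun k _ => Int.natAbs_pos.2 (hδ k))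
  obtain ⟨m, hm, hfix⟩ := fixed L τ T _ hm0
  refine ⟨L, iF, iN, iG, τ, m, hm, fun p hp hR => ?_⟩
  obtain ⟨hpF, hpm, φ, hφ⟩ := hfix p hp
  have hcp : (c : ZMod p) ≠ 0 := by
    intro h1
    have h2 := Int.natCast_dvd.1 ((ZMod.intCast_zmod_eq_zero_iff_dvd _ p).1 h1)
    exact hpm (h2.trans (Dvd.intro _ rfl))
  have hδp : ∀ k, (δ k : ZMod p) ≠ 0 := by
    intro k h1
    have h2 := Int.natCast_dvd.1 ((ZMod.intCast_zmod_eq_zero_iff_dvd _ p).1 h1)
    exact hpm (h2.trans ((Finset.dvd_prod_of_mem (fun k => (δ k).natAbs) (mem_univ k)).trans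
      (Dvd.intro_left _ rfl)))
  obtain ⟨u, v, huv, hhuv, hg⟩ := hR
  have hv : v ≠ 0 := by
    intro hv
    subst hv
    rw [hom_zero_right] at hhuv
    rcases mul_eq_zero.1 hhuv with h1 | h1
    · exact hcp h1
    · exact pow_ne_zero _ (huv.resolve_right (fun h => h rfl)) h1
  have hvn : ∀ n : ℕ, v ^ n ≠ 0 := fun n => pow_ne_zero n hv
  set t : ZMod p := u / v with ht
  have hht : eval₂ (Int.castRingHom (ZMod p)) t h = 0 := by
    rw [hom_div _ _ hv] at hhuv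
    exact (mul_eq_zero.1 hhuv).resolve_left (hvn _)
  have hd1 : 1 ≤ h.natDegree := by
    by_contra hd
    have hd0 : h.natDegree = 0 := by omega
    rw [eq_C_of_natDegree_eq_zero hd0, eval₂_C, eq_intCast] at hht
    apply hcp
    rw [hc, leadingCoeff, hd0]
    exact hht
  set k' := AlgebraicClosure (ZMod p) with hk'
  let ι : ZMod p →+* k' := algebraMap (ZMod p) k'
  have hφι : ∀ z : ℤ, φ (z : 𝓞 L) = ι (z : ZMod p) := by
    intro z
    rw [map_intCast, map_intCast]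
  -- the zero `x0 = c β`
  have hr0 : eval₂ φ (ι ((c : ZMod p) * t)) Fh = 0 := by
    rw [hFh, eval₂_map]
    have e1 : φ.comp (Int.castRingHom (𝓞 L)) = ι.comp (Int.castRingHom (ZMod p)) :=
      RingHom.ext_int _ _
    rw [e1, ← Polynomial.hom_eval₂]
    have e2 := integralNormalization_eval₂_leadingCoeff_mul hd1 (Int.castRingHom (ZMod p)) t
    rw [eq_intCast, hht, mul_zero] at e2
    rw [e2, map_zero]
  have hsplit : ∀ F : (𝓞 L)[X], F.Monic → (∀ θ : Qb, eval₂ jO θ F = 0 → ∃ y, j y = θ) →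
      (F.map (algebraMap (𝓞 L) L)).Splits := by
    intro F hFmon hF
    have h6 : ((F.map (algebraMap (𝓞 L) L)).map j).Splits := IsAlgClosed.splits _
    refine Splits.of_splits_map j h6 ?_
    intro θ hθ
    have h7 : ((F.map (algebraMap (𝓞 L) L)).map j).IsRoot θ := Polynomial.isRoot_of_mem_roots hθ
    rw [IsRoot.def, Polynomial.map_map, eval_map] at h7
    exact hF θ h7
  have hFhroot : ∀ θ : Qb, eval₂ jO θ Fh = 0 → aeval (θ / c) h = 0 := by
    intro θ hθ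
    rw [hFh, eval₂_map] at hθ
    have e1 : jO.comp (Int.castRingHom (𝓞 L)) = Int.castRingHom Qb := RingHom.ext_int _ _
    rw [e1] at hθ
    have e2 := integralNormalization_eval₂_leadingCoeff_mul hd1 (Int.castRingHom Qb) (θ / c)
    rw [eq_intCast, ← hc, mul_div_cancel₀ _ hcQb, hθ] at e2
    rw [aeval_def, hZ]
    exact (mul_eq_zero.1 e2.symm).resolve_left (pow_ne_zero _ hcQb)
  have hint : ∀ z : ℤ, ∃ y : L, j y = (z : Qb) := fun z => ⟨z, map_intCast j z⟩
  have hFhs := hsplit Fh hFm (by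
    intro θ hθ
    obtain ⟨y, hy⟩ := hj (θ / c) (Or.inl (hFhroot θ hθ))
    refine ⟨c * y, ?_⟩
    rw [map_mul, hy, map_intCast, mul_div_cancel₀ _ hcQb])
  obtain ⟨x0, hx0, hφx0⟩ := lift_root L Fh hFm hFhs φ _ hr0
  have hx0T : x0 ∈ Fh.roots.toFinset := by
    rw [Multiset.mem_toFinset, mem_roots hFm.ne_zero]
    exact hx0
  have hx0τ : τ • x0 = x0 := hφ x0 (mem_union_left _ hx0T) (by rw [hφx0]; exact algMap_pow _)
  set β : Qb := jO x0 / c with hβ
  have hβh : aeval β h = 0 := by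
    apply hFhroot
    have h1 := congrArg jO hx0
    rw [map_zero, ← eval₂_at_apply] at h1
    exact h1
  have hβσ : σ β = β := by
    rw [hβ, map_div₀, map_intCast, ← hjOτ, hx0τ]
  obtain ⟨k, hk⟩ := hσ β hβσ hβh
  obtain ⟨e, he⟩ := hdeg k
  obtain ⟨y, hy⟩ := hg k
  -- the value of `A`
  have hcx : jO x0 = c * β := by rw [hβ, mul_div_cancel₀ _ hcQb]
  have hjA : jO (A x0 k) = (δ k : Qb) ^ (n - 1) * ((c : Qb) ^ (g k).natDegree * aeval β (g k)) := by
    rw [hA]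
    simp only
    rw [map_mul, map_pow, map_intCast, hom_map, map_intCast, hcx]
    congr 1
    have e1 : hom (g k) ((c : Qb) * β) (c : Qb) = hom (g k) ((c : Qb) * β) ((c : Qb) * 1) := by
      rw [mul_one]
    rw [e1, hom_mul, hom_one, aeval_def, hZ]
  have hn1 : n - 1 + 1 = n := by omega
  set r : ZMod p := (δ k : ZMod p) * (c : ZMod p) ^ e * (y / v ^ e) with hr
  have hφA : φ (A x0 k) = ι (r ^ n) := by
    rw [hA]
    simp only
    rw [map_mul, map_pow, hφι, hom_map, hφι, hφx0]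
    have e1 : hom (g k) (ι ((c : ZMod p) * t)) (ι (c : ZMod p)) =
        ι (hom (g k) ((c : ZMod p) * t) ((c : ZMod p) * 1)) := by
      rw [mul_one, hom_map]
    rw [e1, ← map_pow, ← map_mul]
    congr 1
    rw [hom_mul, hom_one]
    have e2 : eval₂ (Int.castRingHom (ZMod p)) t (g k) = (δ k : ZMod p) * (y / v ^ e) ^ n := by
      rw [hom_div _ _ hv] at hy
      rw [div_pow, ← pow_mul, mul_comm e n, ← he]
      field_simp
      rw [mul_comm]
      exact hy
    rw [e2, hr, mul_pow, mul_pow, ← pow_mul, mul_comm e n, ← he]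
    calc (δ k : ZMod p) ^ (n - 1) * ((c : ZMod p) ^ (g k).natDegree *
          ((δ k : ZMod p) * (y / v ^ e) ^ n))
        = (δ k : ZMod p) ^ (n - 1 + 1) * (c : ZMod p) ^ (g k).natDegree * (y / v ^ e) ^ n := by
          rw [pow_succ]; ring
      _ = _ := by rw [hn1]
  have hFAm : (X ^ n - C (A x0 k) : (𝓞 L)[X]).Monic := monic_X_pow_sub_C _ hn.ne'
  have hYroot : ∀ Y : Qb, Y ^ n = jO (A x0 k) →
      (Y / ((δ k : Qb) * c ^ e)) ^ n = (δ k : Qb)⁻¹ * aeval β (g k) := by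
    intro Y hY
    rw [div_pow, hY, hjA, mul_pow, ← pow_mul, mul_comm e n, ← he]
    have e3 : (δ k : Qb) ^ n = (δ k : Qb) ^ (n - 1) * δ k := by rw [← pow_succ, hn1]
    rw [e3]
    have e4 : (δ k : Qb) ^ (n - 1) ≠ 0 := pow_ne_zero _ (hδQb k)
    have e5 : (c : Qb) ^ (g k).natDegree ≠ 0 := pow_ne_zero _ hcQb
    have e6 : (δ k : Qb) ≠ 0 := hδQb k
    generalize (c : Qb) ^ (g k).natDegree = C1 at e5 ⊢
    generalize (δ k : Qb) ^ (n - 1) = D1 at e4 ⊢
    generalize (δ k : Qb) = D2 at e6 ⊢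
    generalize (aeval β) (g k) = G1
    rw [div_eq_iff (mul_ne_zero (mul_ne_zero e4 e6) e5)]
    calc D1 * (C1 * G1) = (D2⁻¹ * D2) * (D1 * (C1 * G1)) := by
          rw [inv_mul_cancel₀ e6, one_mul]
      _ = _ := by ring
  have hFAs := hsplit (X ^ n - C (A x0 k)) hFAm (by
    intro θ hθ
    rw [eval₂_sub, eval₂_pow, eval₂_X, eval₂_C, sub_eq_zero] at hθ
    have h1 := hYroot θ hθ
    obtain ⟨y', hy'⟩ := hj _ (Or.inr (by
      rw [hs1]
      simp only [Set.mem_iUnion]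
      exact ⟨β, hβh, k, h1⟩))
    refine ⟨((δ k : L) * c ^ e) * y', ?_⟩
    rw [map_mul, map_mul, map_pow, map_intCast, map_intCast, hy', mul_div_cancel₀]
    exact mul_ne_zero (hδQb k) (pow_ne_zero _ hcQb))
  obtain ⟨Y, hY, hφY⟩ := lift_root L _ hFAm hFAs φ (ι r) (by
    rw [eval₂_sub, eval₂_pow, eval₂_X, eval₂_C, hφA, map_pow, sub_self])
  have hYT : Y ∈ T := by
    rw [hT]
    refine mem_union_right _ (mem_biUnion.2 ⟨x0, hx0T, mem_biUnion.2 ⟨k, mem_univ k, ?_⟩⟩)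
    rw [Multiset.mem_toFinset, mem_roots hFAm.ne_zero]
    exact hY
  have hYτ : τ • Y = Y := hφ Y hYT (by rw [hφY]; exact algMap_pow _)
  have hYn : Y ^ n = A x0 k := by
    rw [eval_sub, eval_pow, eval_X, eval_C, sub_eq_zero] at hY
    exact hY
  refine hk (jO Y / ((δ k : Qb) * c ^ e)) ?_ ?_
  · rw [map_div₀, map_mul, map_pow, map_intCast, map_intCast, ← hjOτ, hYτ]
  · rw [hYroot (jO Y) (by rw [← map_pow, hYn]), mul_inv_cancel_left₀ (hδQb k)]

end Pool.Agent.R925.FD
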