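import Mathlib

/-!
# Twisted cyclic coverings `a x ^ m = h(z)` of the curves `b y ^ n = ∏ k, g k (z)`: definitions
-/

set_option autoImplicit false

namespace Pool.Agent.R925.FD

open Finset Polynomial

/-- The homogenisation `F(z, w) = ∑ i, a i * z ^ i * w ^ (d - i)` of the polynomial
`f = ∑ i, a i * z ^ i` of degree `d` with integral coefficients. -/
noncomputable def hom (f : ℤ[X]) {R : Type*} [CommRing R] (z w : R) : R :=
  ∑ i ∈ range (f.natDegree + 1), (f.coeff i : R) * z ^ i * w ^ (f.natDegree - i)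

lemma hom_map (f : ℤ[X]) {R S : Type*} [CommRing R] [CommRing S] (φ : R →+* S) (z w : R) :
    φ (hom f z w) = hom f (φ z) (φ w) := by
  unfold hom
  rw [map_sum]
  refine sum_congr rfl fun i _ => ?_
  rw [map_mul, map_mul, map_pow, map_pow, map_intCast]

lemma hom_mul (f : ℤ[X]) {R : Type*} [CommRing R] (c z w : R) :
    hom f (c * z) (c * w) = c ^ f.natDegree * hom f z w := by
  unfold hom
  rw [mul_sum]
  refine sum_congr rfl fun i hi => ?_
  have h1 : i ≤ f.natDegree := by
    have := mem_range.1 hi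
    omega
  have h2 : c ^ f.natDegree = c ^ i * c ^ (f.natDegree - i) := by
    rw [← pow_add]
    congr 1
    omega
  rw [h2, mul_pow, mul_pow]
  ring

lemma hom_one (f : ℤ[X]) {R : Type*} [CommRing R] (z : R) :
    hom f z 1 = eval₂ (Int.castRingHom R) z f := by
  unfold hom
  rw [eval₂_eq_sum_range]
  refine sum_congr rfl fun i _ => ?_
  rw [one_pow, mul_one, eq_intCast]

lemma hom_div (f : ℤ[X]) {F : Type*} [Field F] (z : F) {w : F} (hw : w ≠ 0) :
    hom f z w = w ^ f.natDegree * eval₂ (Int.castRingHom F) (z / w) f := by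
  rw [← hom_one, ← hom_mul, mul_one, mul_div_cancel₀ _ hw]

lemma hom_zero_right (f : ℤ[X]) {R : Type*} [CommRing R] (z : R) :
    hom f z 0 = (f.leadingCoeff : R) * z ^ f.natDegree := by
  unfold hom
  rw [sum_range_succ, Nat.sub_self, pow_zero, mul_one, sum_eq_zero, zero_add]
  · rfl
  · intro i hi
    have h1 : f.natDegree - i ≠ 0 := by
      have := mem_range.1 hi
      omega
    rw [zero_pow h1, mul_zero]

/-- Coprime polynomials have no common zero modulo large primes, also at infinity. -/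
lemma coprime_mod (f₁ f₂ : ℤ[X]) (h0 : f₁ ≠ 0)
    (h : IsCoprime (f₁.map (Int.castRingHom ℚ)) (f₂.map (Int.castRingHom ℚ))) :
    ∃ N : ℕ, 0 < N ∧ ∀ p : ℕ, ∀ _ : Fact p.Prime, ¬ p ∣ N → ∀ u v : ZMod p, (u ≠ 0 ∨ v ≠ 0) →
      hom f₁ u v = 0 → hom f₂ u v ≠ 0 := by
  obtain ⟨a, b, hab⟩ := h
  obtain ⟨da, hdam, hda⟩ := IsLocalization.integerNormalization_spec (nonZeroDivisors ℤ) a
  obtain ⟨db, hdbm, hdb⟩ := IsLocalization.integerNormalization_spec (nonZeroDivisors ℤ) b
  set a' := IsLocalization.integerNormalization (nonZeroDivisors ℤ) a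
  set b' := IsLocalization.integerNormalization (nonZeroDivisors ℤ) b
  have hda' : map (Int.castRingHom ℚ) a' = C ((da : ℤ) : ℚ) * a := by
    rw [← algebraMap_int_eq, hda, zsmul_eq_mul, map_intCast (C : ℚ →+* ℚ[X])]
  have hdb' : map (Int.castRingHom ℚ) b' = C ((db : ℤ) : ℚ) * b := by
    rw [← algebraMap_int_eq, hdb, zsmul_eq_mul, map_intCast (C : ℚ →+* ℚ[X])]
  have hrel : C db * a' * f₁ + C da * b' * f₂ = C (da * db) := by
    apply Polynomial.map_injective (Int.castRingHom ℚ) (Int.castRingHom ℚ).injective_int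
    rw [Polynomial.map_add, Polynomial.map_mul, Polynomial.map_mul, Polynomial.map_mul,
      Polynomial.map_mul, hda', hdb', map_C, map_C, map_C]
    simp only [eq_intCast, Int.cast_mul, C_mul]
    linear_combination (C ((da : ℤ) : ℚ) * C ((db : ℤ) : ℚ)) * hab
  have hd : da * db ≠ 0 := mul_ne_zero (nonZeroDivisors.ne_zero hdam) (nonZeroDivisors.ne_zero hdbm)
  have hlc : f₁.leadingCoeff ≠ 0 := leadingCoeff_ne_zero.2 h0
  refine ⟨(f₁.leadingCoeff * (da * db)).natAbs, Int.natAbs_pos.2 (mul_ne_zero hlc hd), ?_⟩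
  intro p hp hN u v huv h1 h2
  have hN' : ¬ (p : ℤ) ∣ f₁.leadingCoeff * (da * db) := fun h => hN (Int.natCast_dvd.1 h)
  by_cases hv : v = 0
  · subst hv
    rw [hom_zero_right] at h1
    have hu : u ≠ 0 := huv.resolve_right (fun h => h rfl)
    rcases mul_eq_zero.1 h1 with h3 | h3
    · apply hN'
      exact Dvd.dvd.mul_right ((ZMod.intCast_zmod_eq_zero_iff_dvd _ p).1 h3) _
    · exact pow_ne_zero _ hu h3
  · rw [hom_div _ _ hv] at h1 h2
    have hvn : ∀ n : ℕ, v ^ n ≠ 0 := fun n => pow_ne_zero n hv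
    have h3 := (mul_eq_zero.1 h1).resolve_left (hvn _)
    have h4 := (mul_eq_zero.1 h2).resolve_left (hvn _)
    have h5 := congrArg (eval₂ (Int.castRingHom (ZMod p)) (u / v)) hrel
    rw [eval₂_add, eval₂_mul, eval₂_mul (q := f₂), h3, h4, mul_zero, mul_zero, add_zero,
      eval₂_C, eq_intCast] at h5
    apply hN'
    exact Dvd.dvd.mul_left ((ZMod.intCast_zmod_eq_zero_iff_dvd _ p).1 h5.symm) _

end Pool.Agent.R925.FD
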