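import Pool.Agent.R925.FD.Main
import Pool.Agent.R925.FD.Char
import Pool.Agent.W313.BMX.Final

/-! The example. -/

set_option autoImplicit false

namespace Pool.Agent.R925.FD

open Finset Polynomial

/-- The curve `C : b * y ^ n = ∏ k, G k (z, w)`, `a * x ^ m = H (z, w)` has a point over `L`. -/
def CurveHasPoint {K : Type} [Fintype K] (n m : ℕ) (b a : ℤ) (g : K → ℤ[X]) (h : ℤ[X])
    (L : Type) [Field L] : Prop :=
  ∃ z w x y : L, (z ≠ 0 ∨ w ≠ 0) ∧ (b : L) * y ^ n = ∏ k, hom (g k) z w ∧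
    (a : L) * x ^ m = hom h z w

/-- `X² + 51`, `X² - 1` -/
noncomputable def exg : Fin 2 → ℤ[X] := ![X ^ 2 + 51, X ^ 2 - 1]

/-- `(X² + 1) (X² - 17) (X² + 17)` -/
noncomputable def exh : ℤ[X] := (X ^ 2 + 1) * (X ^ 2 - 17) * (X ^ 2 + 17)

lemma exg_deg (k : Fin 2) : (exg k).natDegree = 2 := by
  fin_cases k
  · change (X ^ 2 + 51 : ℤ[X]).natDegree = 2
    compute_degree!
  · change (X ^ 2 - 1 : ℤ[X]).natDegree = 2
    compute_degree!

lemma exh_deg : exh.natDegree = 6 := by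
  unfold exh
  compute_degree!

lemma exg_ne (k : Fin 2) : exg k ≠ 0 := by
  intro h
  have := exg_deg k
  rw [h, natDegree_zero] at this
  omega

lemma exh_ne : exh ≠ 0 := by
  intro h
  have := exh_deg
  rw [h, natDegree_zero] at this
  omega

lemma map_exg0 : (exg 0).map (Int.castRingHom ℚ) = X ^ 2 + C 51 := by
  change (X ^ 2 + 51 : ℤ[X]).map (Int.castRingHom ℚ) = _
  rw [Polynomial.map_add, Polynomial.map_pow, map_X]
  simp
  rfl

lemma map_exg1 : (exg 1).map (Int.castRingHom ℚ) = X ^ 2 - C 1 := by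
  change (X ^ 2 - 1 : ℤ[X]).map (Int.castRingHom ℚ) = _
  rw [Polynomial.map_sub, Polynomial.map_pow, map_X]
  simp

lemma map_exh : exh.map (Int.castRingHom ℚ) = (X ^ 2 + C 1) * (X ^ 2 - C 17) * (X ^ 2 + C 17) := by
  unfold exh
  simp [Polynomial.map_mul, Polynomial.map_add, Polynomial.map_sub]
  rfl

lemma exg_coprime (k l : Fin 2) (hkl : k ≠ l) :
    IsCoprime ((exg k).map (Int.castRingHom ℚ)) ((exg l).map (Int.castRingHom ℚ)) := by
  have h01 : IsCoprime ((exg 0).map (Int.castRingHom ℚ)) ((exg 1).map (Int.castRingHom ℚ)) := by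
    rw [map_exg0, map_exg1]
    refine ⟨C (1 / 52), -C (1 / 52), ?_⟩
    have e : (C (1 / 52) : ℚ[X]) * C 51 + C (1 / 52) * C 1 = 1 := by
      rw [← C_mul, ← C_mul, ← C_add, ← C_1]
      norm_num
    linear_combination e
  fin_cases k <;> fin_cases l
  · exact absurd rfl hkl
  · exact h01
  · exact h01.symm
  · exact absurd rfl hkl

lemma exgh_coprime (k : Fin 2) :
    IsCoprime (exh.map (Int.castRingHom ℚ)) ((exg k).map (Int.castRingHom ℚ)) := by
  have e1 : (C 17 : ℚ[X]) = 17 := rfl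
  have e51 : (C 51 : ℚ[X]) = 51 := rfl
  have e11 : (C 1 : ℚ[X]) = 1 := rfl
  fin_cases k
  · change IsCoprime (exh.map (Int.castRingHom ℚ)) ((exg 0).map (Int.castRingHom ℚ))
    rw [map_exg0, map_exh]
    refine ⟨-C (1 / 115600), C (1 / 115600) * (X ^ 4 - 50 * X ^ 2 + 2261), ?_⟩
    have e : (C (1 / 115600) : ℚ[X]) * 115600 = 1 := by
      rw [show (115600 : ℚ[X]) = C 115600 from rfl, ← C_mul, ← C_1]
      norm_num
    rw [e1, e51, e11]
    linear_combination e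
  · change IsCoprime (exh.map (Int.castRingHom ℚ)) ((exg 1).map (Int.castRingHom ℚ))
    rw [map_exg1, map_exh]
    refine ⟨-C (1 / 576), C (1 / 576) * (X ^ 4 + 2 * X ^ 2 - 287), ?_⟩
    have e : (C (1 / 576) : ℚ[X]) * 576 = 1 := by
      rw [show (576 : ℚ[X]) = C 576 from rfl, ← C_mul, ← C_1]
      norm_num
    rw [e1, e11]
    linear_combination e

lemma hom_exh {L : Type} [Field L] (β : L) :
    hom exh β 1 = (β ^ 2 + 1) * (β ^ 2 - 17) * (β ^ 2 + 17) := by
  rw [hom_one]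
  unfold exh
  simp [eval₂_mul, eval₂_add, eval₂_sub]

lemma hom_exg0 {L : Type} [Field L] (β : L) : hom (exg 0) β 1 = β ^ 2 + 51 := by
  rw [hom_one]
  change eval₂ (Int.castRingHom L) β (X ^ 2 + 51 : ℤ[X]) = _
  simp [eval₂_add]

lemma hom_exg1 {L : Type} [Field L] (β : L) : hom (exg 1) β 1 = β ^ 2 - 1 := by
  rw [hom_one]
  change eval₂ (Int.castRingHom L) β (X ^ 2 - 1 : ℤ[X]) = _
  simp [eval₂_sub]

/-- the points with `x = 0` -/
lemma ex_point {L : Type} [Field L] (m : ℕ) (hm : m ≠ 0) (a : ℤ)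
    (hL : ∃ β : L, β ^ 2 = -1 ∨ β ^ 2 = 17 ∨ β ^ 2 = -17) : CurveHasPoint 2 m 1 a exg exh L := by
  obtain ⟨β, hβ⟩ := hL
  have h1 : hom exh β 1 = 0 := by
    rw [hom_exh]
    rcases hβ with h | h | h <;> rw [h] <;> ring
  have h2 : ∏ k, hom (exg k) β 1 = (β ^ 2 + 51) * (β ^ 2 - 1) := by
    rw [Fin.prod_univ_two, hom_exg0, hom_exg1]
  rcases hβ with h | h | h
  · refine ⟨β, 1, 0, 10 * β, Or.inr one_ne_zero, ?_, ?_⟩
    · rw [h2, mul_pow, h]; push_cast; ring
    · rw [h1, zero_pow hm, mul_zero]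
  · refine ⟨β, 1, 0, 8 * β, Or.inr one_ne_zero, ?_, ?_⟩
    · rw [h2, mul_pow, h]; push_cast; ring
    · rw [h1, zero_pow hm, mul_zero]
  · refine ⟨β, 1, 0, 6 * β, Or.inr one_ne_zero, ?_, ?_⟩
    · rw [h2, mul_pow, h]; push_cast; ring
    · rw [h1, zero_pow hm, mul_zero]

lemma ex_real (m : ℕ) (hm : m ≠ 0) (a : ℤ) : CurveHasPoint 2 m 1 a exg exh ℝ := by
  refine ex_point m hm a ⟨Real.sqrt 17, Or.inr (Or.inl ?_)⟩
  exact Real.sq_sqrt (by norm_num)

lemma neg_one_mod : ((-1 : ℤ) : ZMod 17) = 4 * 4 := by decide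

lemma sqrt_padic (p : ℕ) [hp : Fact p.Prime] :
    ∃ β : ℚ_[p], β ^ 2 = -1 ∨ β ^ 2 = 17 ∨ β ^ 2 = -17 := by
  by_cases h2 : p = 2
  · subst h2
    obtain ⟨β, hβ⟩ := Pool.Agent.W975.BMX.two1 1 17 (by norm_num) (by norm_num)
    refine ⟨β, Or.inr (Or.inl ?_)⟩
    rw [sq, ← hβ]
    norm_num
  have hodd := Pool.Agent.W335.BMX.odd1 p h2
  have hn1 : ¬ (p : ℤ) ∣ 1 := fun h => by
    have h3 := Int.le_of_dvd one_pos h
    have h4 := hp.out.two_le
    omega
  have hn1' : ¬ (p : ℤ) ∣ -1 := fun h => hn1 ((dvd_neg).1 h)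
  have hl1 : legendreSym p 1 = 1 := legendreSym.at_one p
  have h01 : ((-1 : ℤ) : ZMod p) ≠ 0 := fun h => hn1' ((ZMod.intCast_zmod_eq_zero_iff_dvd _ p).1 h)
  by_cases h17 : p = 17
  · subst h17
    have h3 : legendreSym 17 (-1) = 1 :=
      (legendreSym.eq_one_iff 17 h01).2 ⟨4, neg_one_mod⟩
    obtain ⟨β, hβ⟩ := hodd 1 (-1) hn1 hn1' (by rw [hl1, h3])
    refine ⟨β, Or.inl ?_⟩
    rw [sq, ← hβ]
    norm_num
  have hn17 : ¬ (p : ℤ) ∣ 17 := by
    intro h
    have h3 : p ∣ 17 := by exact_mod_cast h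
    exact h17 ((Nat.prime_dvd_prime_iff_eq hp.out (by norm_num)).1 h3)
  have h017 : ((17 : ℤ) : ZMod p) ≠ 0 := fun h => hn17 ((ZMod.intCast_zmod_eq_zero_iff_dvd _ p).1 h)
  rcases legendreSym.eq_one_or_neg_one p h01 with h3 | h3
  · obtain ⟨β, hβ⟩ := hodd 1 (-1) hn1 hn1' (by rw [hl1, h3])
    refine ⟨β, Or.inl ?_⟩
    rw [sq, ← hβ]
    norm_num
  · rcases legendreSym.eq_one_or_neg_one p h017 with h4 | h4
    · obtain ⟨β, hβ⟩ := hodd 1 17 hn1 hn17 (by rw [hl1, h4])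
      refine ⟨β, Or.inr (Or.inl ?_)⟩
      rw [sq, ← hβ]
      norm_num
    · obtain ⟨β, hβ⟩ := hodd (-1) 17 hn1' hn17 (by rw [h3, h4])
      refine ⟨β, Or.inr (Or.inr ?_)⟩
      rw [sq, ← hβ]
      norm_num

lemma ex_padic (m : ℕ) (hm : m ≠ 0) (a : ℤ) (p : ℕ) [Fact p.Prime] :
    CurveHasPoint 2 m 1 a exg exh ℚ_[p] := ex_point m hm a (sqrt_padic p)

lemma moved {x y : AlgebraicClosure ℚ} {σ : AlgebraicClosure ℚ ≃ₐ[ℚ] AlgebraicClosure ℚ}
    (h : y ^ 2 = x ^ 2) (hσ : σ x = -x) (hx : x ≠ 0) : σ y ≠ y := by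
  intro h1
  rcases sq_eq_sq_iff_eq_or_eq_neg.1 h with h2 | h2
  · rw [h2, hσ] at h1
    exact hx (self_eq_neg.1 h1.symm)
  · rw [h2, map_neg, hσ, neg_neg] at h1
    exact hx (self_eq_neg.1 h1)

lemma nonsq_of_neg {q : ℚ} (h : q < 0) : ¬ IsSquare q := fun h1 => absurd h1.nonneg (not_le.2 h)

lemma aeval_exh (β : AlgebraicClosure ℚ) (h : aeval β exh = 0) :
    β ^ 2 = -1 ∨ β ^ 2 = 17 ∨ β ^ 2 = -17 := by
  have h1 : aeval β exh = (β ^ 2 + 1) * (β ^ 2 - 17) * (β ^ 2 + 17) := by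
    unfold exh
    simp [map_ofNat]
  rw [h1] at h
  rcases mul_eq_zero.1 h with h2 | h2
  · rcases mul_eq_zero.1 h2 with h3 | h3
    · exact Or.inl (eq_neg_of_add_eq_zero_left h3)
    · exact Or.inr (Or.inl (sub_eq_zero.1 h3))
  · exact Or.inr (Or.inr (eq_neg_of_add_eq_zero_left h2))

lemma aeval_exg0 (β : AlgebraicClosure ℚ) : aeval β (exg 0) = β ^ 2 + 51 := by
  change aeval β (X ^ 2 + 51 : ℤ[X]) = _
  simp [map_ofNat]

/-- no class of the example is persistent -/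
theorem ex_not_persistent (δ : Fin 2 → ℚ) (hδ : δ 0 ≠ 0) : ¬ Persistent 2 exg exh δ := by
  intro hper
  set W := AlgebraicClosure ℚ with hW
  have hsqrt : ∀ q : ℚ, ∃ x : W, x ^ 2 = (q : W) := fun q => by
    obtain ⟨x, hx⟩ := IsAlgClosed.exists_pow_nat_eq (q : W) (n := 2) (by norm_num)
    exact ⟨x, hx⟩
  obtain ⟨i, hi⟩ := hsqrt (-1)
  obtain ⟨s, hs⟩ := hsqrt 17
  have hi' : i ^ 2 = -1 := by rw [hi]; push_cast; ring
  have hs' : s ^ 2 = 17 := by rw [hs]; push_cast; ring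
  have hi0 : i ≠ 0 := by
    rintro rfl
    rw [zero_pow two_ne_zero] at hi'
    exact (neg_ne_zero.2 (one_ne_zero (α := W))) hi'.symm
  have hs0 : s ≠ 0 := by
    rintro rfl
    rw [zero_pow two_ne_zero] at hs'
    exact (by norm_num : (17 : W) ≠ 0) hs'.symm
  have h17 : ¬ IsSquare (17 : ℚ) := by
    rw [show (17 : ℚ) = ((17 : ℕ) : ℚ) from rfl, Rat.isSquare_natCast_iff]
    exact (by norm_num : Nat.Prime 17).prime.not_isSquare
  have h34 : ¬ IsSquare (34 : ℚ) := by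
    rw [show (34 : ℚ) = ((34 : ℕ) : ℚ) from rfl, Rat.isSquare_natCast_iff]
    rintro ⟨r, hr⟩
    have : r < 6 := by nlinarith
    interval_cases r <;> omega
  have h2 : ¬ IsSquare (2 : ℚ) := by
    rw [show (2 : ℚ) = ((2 : ℕ) : ℚ) from rfl, Rat.isSquare_natCast_iff]
    exact Nat.prime_two.prime.not_isSquare
  have hδW : (δ 0 : W) ≠ 0 := Rat.cast_ne_zero.2 hδ
  by_cases hA : ¬ IsSquare (50 / δ 0) ∧ ¬ IsSquare (50 / δ 0 * (-1))
  · obtain ⟨w, hw⟩ := hsqrt (50 / δ 0)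
    have hw0 : w ≠ 0 := by
      rintro rfl
      rw [zero_pow two_ne_zero] at hw
      have h3 : (50 / δ 0 : ℚ) = 0 := by exact_mod_cast hw.symm
      exact div_ne_zero (by norm_num) hδ h3
    obtain ⟨σ, hσi, hσs, hσw⟩ := fix_neg_neg (x := s) (y := w) (t := i) hs hw hi h17
      (nonsq_of_neg (by norm_num)) hA.1 hA.2
    obtain ⟨β, hβ, hβh, hy⟩ := hper σ
    rcases aeval_exh β hβh with h3 | h3 | h3
    · obtain ⟨y, hyσ, hyk⟩ := hy 0
      rw [aeval_exg0, h3] at hyk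
      refine moved (x := w) (y := y) ?_ hσw hw0 hyσ
      rw [hw]
      push_cast
      rw [eq_div_iff hδW, mul_comm, ← hyk]
      norm_num
    · exact moved (x := s) (y := β) (by rw [h3, hs']) hσs hs0 hβ
    · refine moved (x := i * s) (y := β) (by rw [h3, mul_pow, hs', hi']; ring) ?_
        (mul_ne_zero hi0 hs0) hβ
      rw [map_mul, hσi, hσs]
      ring
  · have hB : ¬ IsSquare (68 / δ 0) ∧ ¬ IsSquare (68 / δ 0 * 17) := by
      rw [not_and_or, not_not, not_not] at hA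
      rcases hA with ⟨r, hr⟩ | ⟨r, hr⟩
      · have hr0 : r ≠ 0 := by
          rintro rfl
          rw [mul_zero] at hr
          exact div_ne_zero (by norm_num) hδ hr
        have hd : δ 0 = 50 / (r * r) := by
          rw [← hr]
          field_simp
        constructor
        · rintro ⟨u, hu⟩
          apply h34
          refine ⟨5 * u / r, ?_⟩
          rw [hd] at hu
          field_simp at hu ⊢
          linarith
        · rintro ⟨u, hu⟩
          apply h2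
          refine ⟨5 * u / (17 * r), ?_⟩
          rw [hd] at hu
          field_simp at hu ⊢
          linarith
      · have hr0 : r ≠ 0 := by
          rintro rfl
          rw [mul_zero] at hr
          exact mul_ne_zero (div_ne_zero (by norm_num) hδ) (by norm_num) hr
        have hpos : 0 < r * r := mul_self_pos.2 hr0
        have hneg : 50 / δ 0 < 0 := by linarith
        have hd : δ 0 < 0 := by
          by_contra h3
          push Not at h3
          have : 0 ≤ 50 / δ 0 := by positivity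
          linarith
        have h68 : 68 / δ 0 < 0 := div_neg_of_pos_of_neg (by norm_num) hd
        exact ⟨nonsq_of_neg h68, nonsq_of_neg (by linarith)⟩
    obtain ⟨w, hw⟩ := hsqrt (68 / δ 0)
    have hw0 : w ≠ 0 := by
      rintro rfl
      rw [zero_pow two_ne_zero] at hw
      have h3 : (68 / δ 0 : ℚ) = 0 := by exact_mod_cast hw.symm
      exact div_ne_zero (by norm_num) hδ h3
    obtain ⟨σ, hσs, hσi, hσw⟩ := fix_neg_neg (x := i) (y := w) (t := s) hi hw hs
      (nonsq_of_neg (by norm_num)) (nonsq_of_neg (by norm_num)) hB.1 hB.2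
    obtain ⟨β, hβ, hβh, hy⟩ := hper σ
    rcases aeval_exh β hβh with h3 | h3 | h3
    · exact moved (x := i) (y := β) (by rw [h3, hi']) hσi hi0 hβ
    · obtain ⟨y, hyσ, hyk⟩ := hy 0
      rw [aeval_exg0, h3] at hyk
      refine moved (x := w) (y := y) ?_ hσw hw0 hyσ
      rw [hw]
      push_cast
      rw [eq_div_iff hδW, mul_comm, ← hyk]
      norm_num
    · refine moved (x := i * s) (y := β) (by rw [h3, mul_pow, hs', hi']; ring) ?_
        (mul_ne_zero hi0 hs0) hβ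
      rw [map_mul, hσi, hσs]
      ring

end Pool.Agent.R925.FD
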