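import Pool.Agent.R925.FD.Defs

/-! Local analysis of the coverings at good primes. -/

set_option autoImplicit false

namespace Pool.Agent.R925.FD

open Finset Polynomial

variable {p : ℕ} [hp : Fact p.Prime]

lemma isUnit_of_toZMod {x : ℤ_[p]} (h : PadicInt.toZMod x ≠ 0) : IsUnit x := by
  by_contra h1
  apply h
  have h2 : x ∈ IsLocalRing.maximalIdeal ℤ_[p] := h1
  rw [← PadicInt.ker_toZMod] at h2
  exact h2

lemma val_of_toZMod {x : ℤ_[p]} (h : PadicInt.toZMod x ≠ 0) : (x : ℚ_[p]).valuation = 0 := by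
  have h1 := PadicInt.isUnit_iff.1 (isUnit_of_toZMod h)
  have hx : (x : ℚ_[p]) ≠ 0 := by
    intro h2
    rw [PadicInt.norm_def, h2, norm_zero] at h1
    exact zero_ne_one h1
  have h2 := Padic.norm_eq_zpow_neg_valuation hx
  rw [PadicInt.norm_def, h2] at h1
  have hp1 : (1 : ℝ) < p := by exact_mod_cast hp.out.one_lt
  have h3 : (p : ℝ) ^ (-(x : ℚ_[p]).valuation) = (p : ℝ) ^ (0 : ℤ) := by rw [h1, zpow_zero]
  have h4 := zpow_right_injective₀ (by linarith) (by linarith) h3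
  omega

lemma coe_ne_zero_of {x : ℤ_[p]} (h : PadicInt.toZMod x ≠ 0) : (x : ℚ_[p]) ≠ 0 := by
  intro h1
  apply h
  have : x = 0 := Subtype.coe_injective h1
  rw [this, map_zero]

/-- primitive coordinates -/
lemma primitive {z w : ℚ_[p]} (hzw : z ≠ 0 ∨ w ≠ 0) :
    ∃ (c : ℚ_[p]) (z' w' : ℤ_[p]), c ≠ 0 ∧ c * z = z' ∧ c * w = w' ∧
      (PadicInt.toZMod z' ≠ 0 ∨ PadicInt.toZMod w' ≠ 0) := by
  by_cases h : ‖w‖ ≤ ‖z‖
  · have hz : z ≠ 0 := by
      rintro rfl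
      rw [norm_zero] at h
      have hw : w = 0 := norm_le_zero_iff.1 h
      simp [hw] at hzw
    have hz' : 0 < ‖z‖ := norm_pos_iff.2 hz
    refine ⟨z⁻¹, 1, ⟨z⁻¹ * w, ?_⟩, inv_ne_zero hz, ?_, rfl, Or.inl ?_⟩
    · rw [norm_mul, norm_inv, inv_mul_le_iff₀ hz', mul_one]
      exact h
    · rw [inv_mul_cancel₀ hz]; simp
    · rw [map_one]; exact one_ne_zero
  · push Not at h
    have hw' : 0 < ‖w‖ := lt_of_le_of_lt (norm_nonneg _) h
    have hw : w ≠ 0 := norm_pos_iff.1 hw'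
    refine ⟨w⁻¹, ⟨w⁻¹ * z, ?_⟩, 1, inv_ne_zero hw, rfl, ?_, Or.inr ?_⟩
    · rw [norm_mul, norm_inv, inv_mul_le_iff₀ hw', mul_one]
      exact h.le
    · rw [inv_mul_cancel₀ hw]; simp
    · rw [map_one]; exact one_ne_zero

lemma hom_coe (f : ℤ[X]) (z w : ℤ_[p]) : ((hom f z w : ℤ_[p]) : ℚ_[p]) = hom f (z : ℚ_[p]) w :=
  hom_map f PadicInt.Coe.ringHom z w

/-- The valuations of the constants of a covering with a point over `ℚ_p` are divisible by `n`. -/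
theorem val_dvd {K : Type} [Fintype K] [DecidableEq K] {n : ℕ} {g : K → ℤ[X]}
    (hdeg : ∀ k, n ∣ (g k).natDegree)
    (hNC : ∀ u v : ZMod p, (u ≠ 0 ∨ v ≠ 0) → ∀ k l, k ≠ l → hom (g k) u v = 0 → hom (g l) u v ≠ 0)
    {b : ℤ} (hb : b ≠ 0) (hbp : ¬ (p : ℤ) ∣ b) {δ : K → ℚ} (hδ : ∀ k, δ k ≠ 0) {t : ℚ}
    (hprod : ∏ k, δ k = b * t ^ n) {z w : ℚ_[p]} (hzw : z ≠ 0 ∨ w ≠ 0)
    (hcov : ∀ k, ∃ y : ℚ_[p], hom (g k) z w = (δ k : ℚ_[p]) * y ^ n) (k : K) :
    (n : ℤ) ∣ padicValRat p (δ k) := by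
  obtain ⟨c, z', w', hc, hz, hw, hu⟩ := primitive hzw
  have hδp : ∀ k, ((δ k : ℚ) : ℚ_[p]) ≠ 0 := fun k => Rat.cast_ne_zero.2 (hδ k)
  -- the factors that do not vanish modulo `p`
  have key : ∀ k, hom (g k) (PadicInt.toZMod z') (PadicInt.toZMod w') ≠ 0 →
      (n : ℤ) ∣ padicValRat p (δ k) := by
    intro k hk
    rw [← hom_map] at hk
    obtain ⟨y, hy⟩ := hcov k
    obtain ⟨e, he⟩ := hdeg k
    have h1 : ((hom (g k) z' w' : ℤ_[p]) : ℚ_[p]) = (δ k : ℚ_[p]) * (c ^ e * y) ^ n := by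
      rw [hom_coe, ← hz, ← hw, hom_mul, hy, he, mul_pow, ← pow_mul, mul_comm e n]
      ring
    have h2 := val_of_toZMod hk
    have h3 := coe_ne_zero_of hk
    rw [h1] at h2 h3
    have h4 : (c ^ e * y) ^ n ≠ 0 := right_ne_zero_of_mul h3
    rw [Padic.valuation_mul (hδp k) h4, Padic.valuation_pow, Padic.valuation_ratCast] at h2
    exact ⟨-(c ^ e * y).valuation, by linarith⟩
  by_cases hk : hom (g k) (PadicInt.toZMod z') (PadicInt.toZMod w') = 0
  · have h1 : ∀ l ∈ univ.erase k, (n : ℤ) ∣ padicValRat p (δ l) := by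
      intro l hl
      refine key l (hNC _ _ hu k l ?_ hk)
      exact (ne_of_mem_erase hl).symm
    have ht : t ≠ 0 ∨ n = 0 := by
      by_cases hn : n = 0
      · exact Or.inr hn
      · refine Or.inl fun ht => ?_
        rw [ht, zero_pow hn, mul_zero] at hprod
        exact prod_ne_zero_iff.2 (fun k _ => hδ k) hprod
    have htn : t ^ n ≠ 0 := by
      rcases ht with ht | hn
      · exact pow_ne_zero _ ht
      · rw [hn, pow_zero]; exact one_ne_zero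
    have hval : ∀ s : Finset K, padicValRat p (∏ l ∈ s, δ l) = ∑ l ∈ s, padicValRat p (δ l) := by
      intro s
      induction s using Finset.induction_on with
      | empty => simp
      | insert a s ha ih =>
        rw [prod_insert ha, sum_insert ha,
          padicValRat.mul (hδ a) (prod_ne_zero_iff.2 fun k _ => hδ k), ih]
    have h2 : padicValRat p (∏ l, δ l) = n * padicValRat p t := by
      rw [hprod, padicValRat.mul (by exact_mod_cast hb) htn]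
      have h3 : padicValRat p (b : ℚ) = 0 := by
        rw [padicValRat.of_int, padicValInt.eq_zero_of_not_dvd hbp]
        rfl
      rw [h3, zero_add]
      exact padicValRat.pow t
    rw [hval, ← add_sum_erase univ _ (mem_univ k)] at h2
    have h4 : (n : ℤ) ∣ ∑ l ∈ univ.erase k, padicValRat p (δ l) := dvd_sum h1
    have h5 : (n : ℤ) ∣ padicValRat p (δ k) + ∑ l ∈ univ.erase k, padicValRat p (δ l) := by
      rw [h2]; exact dvd_mul_right _ _
    exact (dvd_add_left h4).1 h5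
  · exact key k hk

/-- At a prime which divides `a` exactly once, a point of the covering over `ℚ_p` reduces to a zero of
`h`. -/
theorem reduces {K : Type} {n m : ℕ} (hn : 0 < n) (hm : 2 ≤ m) {g : K → ℤ[X]} {h : ℤ[X]}
    (hdeg : ∀ k, n ∣ (g k).natDegree) (hdegh : m ∣ h.natDegree)
    (hNC : ∀ u v : ZMod p, (u ≠ 0 ∨ v ≠ 0) → ∀ k, hom h u v = 0 → hom (g k) u v ≠ 0)
    {a : ℤ} (ha : Squarefree a) (hpa : (p : ℤ) ∣ a) {z w x : ℚ_[p]} (hzw : z ≠ 0 ∨ w ≠ 0)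
    (hx : (a : ℚ_[p]) * x ^ m = hom h z w) :
    ∃ u v : ZMod p, (u ≠ 0 ∨ v ≠ 0) ∧ hom h u v = 0 ∧
      ∀ (k : K) (d : ℤ), ¬ (p : ℤ) ∣ d → (∃ y : ℚ_[p], hom (g k) z w = (d : ℚ_[p]) * y ^ n) →
        ∃ y : ZMod p, hom (g k) u v = (d : ZMod p) * y ^ n := by
  obtain ⟨c, z', w', hc, hz, hw, hu⟩ := primitive hzw
  have hh0 : hom h (PadicInt.toZMod z') (PadicInt.toZMod w') = 0 := by
    by_contra hk
    rw [← hom_map] at hk
    obtain ⟨e, he⟩ := hdegh
    have h1 : ((hom h z' w' : ℤ_[p]) : ℚ_[p]) = (a : ℚ_[p]) * (c ^ e * x) ^ m := by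
      rw [hom_coe, ← hz, ← hw, hom_mul, ← hx, he, mul_pow, ← pow_mul, mul_comm e m]
      ring
    have h2 := val_of_toZMod hk
    have h3 := coe_ne_zero_of hk
    rw [h1] at h2 h3
    have h4 : (c ^ e * x) ^ m ≠ 0 := right_ne_zero_of_mul h3
    have ha0 : (a : ℚ_[p]) ≠ 0 := left_ne_zero_of_mul h3
    have hva : (a : ℚ_[p]).valuation = 1 := by
      obtain ⟨q, hq⟩ := hpa
      have hpq : ¬ (p : ℤ) ∣ q := by
        intro h5
        obtain ⟨q', hq'⟩ := h5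
        have h6 : IsUnit (p : ℤ) := ha p ⟨q', by rw [hq, hq']; ring⟩
        exact (Nat.prime_iff_prime_int.1 hp.out).not_isUnit h6
      have hq0 : (q : ℚ_[p]) ≠ 0 := by
        intro h5
        apply ha0
        rw [hq, Int.cast_mul, h5, mul_zero]
      have hp0 : (p : ℚ_[p]) ≠ 0 := by exact_mod_cast hp.out.ne_zero
      rw [hq, Int.cast_mul, Int.cast_natCast, Padic.valuation_mul hp0 hq0, Padic.valuation_p,
        Padic.valuation_intCast, padicValInt.eq_zero_of_not_dvd hpq]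
      rfl
    rw [Padic.valuation_mul ha0 h4, Padic.valuation_pow, hva] at h2
    have h5 : (m : ℤ) ∣ 1 := ⟨-(c ^ e * x).valuation, by linarith⟩
    have h6 := Int.le_of_dvd one_pos h5
    omega
  refine ⟨_, _, hu, hh0, fun k d hd hy => ?_⟩
  obtain ⟨y, hy⟩ := hy
  have hk := hNC _ _ hu k hh0
  rw [← hom_map] at hk
  obtain ⟨e, he⟩ := hdeg k
  have h1 : ((hom (g k) z' w' : ℤ_[p]) : ℚ_[p]) = (d : ℚ_[p]) * (c ^ e * y) ^ n := by
    rw [hom_coe, ← hz, ← hw, hom_mul, hy, he, mul_pow, ← pow_mul, mul_comm e n]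
    ring
  have h2 := PadicInt.isUnit_iff.1 (isUnit_of_toZMod hk)
  rw [PadicInt.norm_def, h1, norm_mul, norm_pow] at h2
  have h3 : ‖(d : ℚ_[p])‖ = 1 := by
    rw [Padic.norm_intCast_eq_one_iff]
    exact (Int.isCoprime_iff_gcd_eq_one.2 (by
      rw [Int.gcd_comm]
      exact_mod_cast (Nat.Prime.coprime_iff_not_dvd hp.out).2 (fun h => hd (Int.natCast_dvd.2 h))))
  rw [h3, one_mul] at h2
  have h4 : ‖c ^ e * y‖ = 1 := (pow_eq_one_iff_of_nonneg (norm_nonneg _) hn.ne').1 h2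
  obtain ⟨y', hy'⟩ : ∃ y' : ℤ_[p], (y' : ℚ_[p]) = c ^ e * y := ⟨⟨c ^ e * y, h4.le⟩, rfl⟩
  refine ⟨PadicInt.toZMod y', ?_⟩
  rw [← hom_map]
  have h5 : hom (g k) z' w' = (d : ℤ_[p]) * y' ^ n := by
    apply Subtype.coe_injective
    change ((hom (g k) z' w' : ℤ_[p]) : ℚ_[p]) = (((d : ℤ_[p]) * y' ^ n : ℤ_[p]) : ℚ_[p])
    rw [h1, PadicInt.coe_mul, PadicInt.coe_pow, hy', PadicInt.coe_intCast]
  rw [h5, map_mul, map_pow, map_intCast]

end Pool.Agent.R925.FD
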