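import Pool.Agent.R925.FD.Cheb2
import Pool.Agent.R925.FD.Loc
import Pool.Agent.R925.FD.Sieve

/-! The main theorem on the twists `a x ^ m = h(z)`, `b y ^ n = ∏ k, g k (z)`. -/

set_option autoImplicit false

namespace Pool.Agent.R925.FD

open Finset Polynomial
open Pool.Agent.W401.Cheb Pool.Agent.W723.SecC

/-- The covering `G k (z, w) = δ k * y k ^ n` (all `k`), `a * x ^ m = H (z, w)` has a point over `L`. -/
def CoveringHasPoint {K : Type} (n m : ℕ) (a : ℤ) (g : K → ℤ[X]) (h : ℤ[X]) (δ : K → ℚ)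
    (L : Type) [Field L] : Prop :=
  ∃ z w x : L, (z ≠ 0 ∨ w ≠ 0) ∧ (a : L) * x ^ m = hom h z w ∧
    ∀ k, ∃ y : L, hom (g k) z w = (δ k : L) * y ^ n

/-- The numbers `δ k` are not zero and `b * ∏ k, δ k ^ (-1)` is an `n`-th power, so that the curve
`G k (z, w) = δ k * y k ^ n`, `a * x ^ m = H (z, w)` is a covering of the curve
`b * y ^ n = ∏ k, G k (z, w)`, `a * x ^ m = H (z, w)`, by `y = t * ∏ k, y k`. -/
def IsClass {K : Type} [Fintype K] (n : ℕ) (b : ℤ) (δ : K → ℚ) : Prop :=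
  (∀ k, δ k ≠ 0) ∧ ∃ t : ℚ, ∏ k, δ k = b * t ^ n

/-- Every automorphism `σ` of the field of algebraic numbers fixes a zero `β` of `h` and, for every
`k`, a solution `y` of `g k (β) = δ k * y ^ n`. -/
def Persistent {K : Type} (n : ℕ) (g : K → ℤ[X]) (h : ℤ[X]) (δ : K → ℚ) : Prop :=
  ∀ σ : AlgebraicClosure ℚ ≃ₐ[ℚ] AlgebraicClosure ℚ, ∃ β, σ β = β ∧ aeval β h = 0 ∧
    ∀ k, ∃ y, σ y = y ∧ aeval β (g k) = (δ k : AlgebraicClosure ℚ) * y ^ n

/-- a natural number whose valuations outside `N` are divisible by `n` -/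
lemma rep_nat (A : ℕ) (hA : A ≠ 0) (N : ℕ) (hN : 0 < N) (n : ℕ) (hn : 0 < n)
    (h : ∀ p : ℕ, p.Prime → ¬ p ∣ N → n ∣ A.factorization p) :
    ∃ s c : ℕ, s ∣ N ^ n ∧ c ≠ 0 ∧ A = s * c ^ n := by
  refine ⟨∏ p ∈ A.primeFactors, p ^ (A.factorization p % n),
    ∏ p ∈ A.primeFactors, p ^ (A.factorization p / n), ?_, ?_, ?_⟩
  · have h1 : ∏ p ∈ A.primeFactors, p ^ (A.factorization p % n) =
        ∏ p ∈ A.primeFactors.filter (fun p => p ∣ N), p ^ (A.factorization p % n) := by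
      rw [prod_filter]
      refine prod_congr rfl fun p hp => ?_
      by_cases hpN : p ∣ N
      · rw [if_pos hpN]
      · rw [if_neg hpN, Nat.mod_eq_zero_of_dvd (h p (Nat.prime_of_mem_primeFactors hp) hpN), pow_zero]
    rw [h1]
    have h2 : ∏ p ∈ A.primeFactors.filter (fun p => p ∣ N), p ^ (A.factorization p % n) ∣
        ∏ p ∈ A.primeFactors.filter (fun p => p ∣ N), p ^ n :=
      prod_dvd_prod_of_dvd _ _ fun p _ => pow_dvd_pow p (Nat.mod_lt _ hn).le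
    refine h2.trans ?_
    rw [prod_pow]
    refine pow_dvd_pow_of_dvd ?_ n
    refine Dvd.dvd.trans (prod_dvd_prod_of_subset _ N.primeFactors _ ?_) (Nat.prod_primeFactors_dvd N)
    intro p hp
    rw [mem_filter] at hp
    exact Nat.mem_primeFactors.2 ⟨Nat.prime_of_mem_primeFactors hp.1, hp.2, hN.ne'⟩
  · exact prod_ne_zero_iff.2 fun p hp => pow_ne_zero _ (Nat.prime_of_mem_primeFactors hp).ne_zero
  · rw [← prod_pow, ← prod_mul_distrib]
    conv_lhs => rw [← Nat.prod_factorization_pow_eq_self hA]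
    rw [Finsupp.prod, Nat.support_factorization]
    refine prod_congr rfl fun p _ => ?_
    rw [← pow_mul, ← pow_add]
    congr 1
    have := Nat.mod_add_div (A.factorization p) n
    rw [mul_comm (A.factorization p / n) n]
    exact this.symm

/-- a rational number whose valuations outside `N` are divisible by `n` -/
lemma rep (q : ℚ) (hq : q ≠ 0) (N : ℕ) (hN : 0 < N) (n : ℕ) (hn : 0 < n)
    (h : ∀ p : ℕ, p.Prime → ¬ p ∣ N → (n : ℤ) ∣ padicValRat p q) :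
    ∃ (s : ℤ) (c : ℚ), s ∣ (N : ℤ) ^ n ∧ c ≠ 0 ∧ q = s * c ^ n := by
  have hd : (q.den : ℚ) ≠ 0 := by exact_mod_cast q.den_nz
  have hnum : q.num ≠ 0 := Rat.num_ne_zero.2 hq
  set A : ℤ := q.num * (q.den : ℤ) ^ (n - 1) with hA
  have hA0 : A ≠ 0 := mul_ne_zero hnum (pow_ne_zero _ (by exact_mod_cast q.den_nz))
  have hAq : (A : ℚ) = q * (q.den : ℚ) ^ n := by
    rw [hA]
    push_cast
    have h1 : (q.den : ℚ) ^ n = q.den * (q.den : ℚ) ^ (n - 1) := by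
      rw [← pow_succ']
      congr 1
      omega
    rw [h1, ← mul_assoc, Rat.mul_den_eq_num]
  obtain ⟨s, c, hs, hc, hsc⟩ := rep_nat A.natAbs (Int.natAbs_ne_zero.2 hA0) N hN n hn (by
    intro p hp hpN
    have hF : Fact p.Prime := ⟨hp⟩
    have h1 : padicValRat p (A : ℚ) = padicValRat p q + n * padicValRat p (q.den : ℚ) := by
      rw [hAq, padicValRat.mul hq (pow_ne_zero _ hd), padicValRat.pow]
    have h2 : padicValRat p (A : ℚ) = (A.natAbs.factorization p : ℤ) := by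
      rw [padicValRat.of_int, padicValInt, Nat.factorization_def _ hp]
    rw [h2] at h1
    have h3 : (n : ℤ) ∣ (A.natAbs.factorization p : ℤ) := by
      rw [h1]
      exact dvd_add (h p hp hpN) (dvd_mul_right _ _)
    exact_mod_cast h3)
  have hc' : (c : ℚ) ≠ 0 := by exact_mod_cast hc
  have hq' : q = (A : ℚ) / (q.den : ℚ) ^ n := by
    rw [hAq, mul_div_cancel_right₀ _ (pow_ne_zero _ hd)]
  have hsN : (s : ℤ) ∣ (N : ℤ) ^ n := by exact_mod_cast hs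
  rcases Int.natAbs_eq A with h1 | h1
  · refine ⟨s, c / q.den, hsN, div_ne_zero hc' hd, ?_⟩
    have h2 : (A : ℚ) = s * (c : ℚ) ^ n := by
      rw [h1, hsc]
      push_cast
      rfl
    rw [div_pow, mul_div_assoc', Int.cast_natCast, ← h2]
    exact hq'
  · refine ⟨-s, c / q.den, (neg_dvd).2 hsN, div_ne_zero hc' hd, ?_⟩
    have h2 : (A : ℚ) = -s * (c : ℚ) ^ n := by
      rw [h1, hsc]
      push_cast
      ring
    rw [div_pow, mul_div_assoc', Int.cast_neg, Int.cast_natCast, ← h2]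
    exact hq'

/-- the conditions on the primes -/
lemma good_primes {K : Type} [Fintype K] [DecidableEq K] (g : K → ℤ[X]) (h : ℤ[X])
    (hg0 : ∀ k, g k ≠ 0) (hh0 : h ≠ 0)
    (hgg : ∀ k l, k ≠ l →
      IsCoprime ((g k).map (Int.castRingHom ℚ)) ((g l).map (Int.castRingHom ℚ)))
    (hgh : ∀ k, IsCoprime (h.map (Int.castRingHom ℚ)) ((g k).map (Int.castRingHom ℚ))) :
    ∃ N : ℕ, 0 < N ∧ ∀ p : ℕ, ∀ _ : Fact p.Prime, ¬ p ∣ N → ∀ u v : ZMod p, (u ≠ 0 ∨ v ≠ 0) →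
      (∀ k l, k ≠ l → hom (g k) u v = 0 → hom (g l) u v ≠ 0) ∧
      ∀ k, hom h u v = 0 → hom (g k) u v ≠ 0 := by
  classical
  choose N1 hN1 hN1' using fun k => coprime_mod h (g k) hh0 (hgh k)
  choose N2 hN2 hN2' using fun x : {x : K × K // x.1 ≠ x.2} =>
    coprime_mod (g x.1.1) (g x.1.2) (hg0 _) (hgg _ _ x.2)
  refine ⟨(∏ k, N1 k) * ∏ x, N2 x, Nat.mul_pos (Finset.prod_pos fun k _ => hN1 k)
    (Finset.prod_pos fun x _ => hN2 x), ?_⟩
  intro p hp hpN u v huv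
  refine ⟨fun k l hkl => ?_, fun k => ?_⟩
  · refine hN2' ⟨(k, l), hkl⟩ p hp (fun h1 => hpN ?_) u v huv
    exact (h1.trans (dvd_prod_of_mem N2 (mem_univ _))).trans (Dvd.intro_left _ rfl)
  · refine hN1' k p hp (fun h1 => hpN ?_) u v huv
    exact (h1.trans (dvd_prod_of_mem N1 (mem_univ k))).trans (Dvd.intro _ rfl)

lemma ncard_biUnion_le {ι : Type*} [DecidableEq ι] (T : Finset ι) (E : ι → Set ℤ) :
    (⋃ s ∈ T, E s).ncard ≤ ∑ s ∈ T, (E s).ncard := by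
  induction T using Finset.induction_on with
  | empty => simp
  | insert s T' hs ih =>
    rw [Finset.set_biUnion_insert, Finset.sum_insert hs]
    exact (Set.ncard_union_le _ _).trans (Nat.add_le_add_left ih _)

/-- **The main theorem.** -/
theorem main {K : Type} [Fintype K] (n : ℕ) (hn : 0 < n) (b : ℤ) (hb : b ≠ 0) (g : K → ℤ[X])
    (h : ℤ[X]) (hg0 : ∀ k, g k ≠ 0) (hh0 : h ≠ 0) (hdeg : ∀ k, n ∣ (g k).natDegree)
    (hgg : ∀ k l, k ≠ l →
      IsCoprime ((g k).map (Int.castRingHom ℚ)) ((g l).map (Int.castRingHom ℚ)))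
    (hgh : ∀ k, IsCoprime (h.map (Int.castRingHom ℚ)) ((g k).map (Int.castRingHom ℚ))) :
    ∃ κ : ℝ, 0 < κ ∧ ∃ C : ℝ, ∀ X : ℕ, 3 ≤ X →
      ({a : ℤ | a.natAbs ≤ X ∧ Squarefree a ∧ ∃ m, 2 ≤ m ∧ m ∣ h.natDegree ∧ ∃ δ : K → ℚ,
        IsClass n b δ ∧ ¬ Persistent n g h δ ∧
        ∀ (p : ℕ) [Fact p.Prime], CoveringHasPoint n m a g h δ ℚ_[p]}.ncard : ℝ) ≤
        C * X * (Real.log X) ^ (-κ) := by
  classical
  obtain ⟨N0, hN0, hgood⟩ := good_primes g h hg0 hh0 hgg hgh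
  set N : ℕ := N0 * b.natAbs with hN
  have hNpos : 0 < N := Nat.mul_pos hN0 (Int.natAbs_pos.2 hb)
  have hgoodN : ∀ p : ℕ, ¬ p ∣ N → ¬ p ∣ N0 ∧ ¬ (p : ℤ) ∣ b := fun p hp =>
    ⟨fun h1 => hp (h1.trans (Dvd.intro _ rfl)),
      fun h1 => hp ((Int.natCast_dvd.1 h1).trans (Dvd.intro_left _ rfl))⟩
  -- the finite set of the classes
  set D : Finset ℤ := (Finset.Icc (-((N : ℤ) ^ n)) ((N : ℤ) ^ n)).filter (fun s => s ∣ (N : ℤ) ^ n)
    with hD
  have hNn : (0 : ℤ) < (N : ℤ) ^ n := pow_pos (by exact_mod_cast hNpos) n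
  have hmemD : ∀ s : ℤ, s ∣ (N : ℤ) ^ n → s ∈ D := by
    intro s hs
    rw [hD, mem_filter, Finset.mem_Icc]
    have h1 := Int.le_of_dvd hNn hs
    have h2 := Int.le_of_dvd hNn ((neg_dvd).2 hs)
    exact ⟨⟨by linarith, h1⟩, hs⟩
  have hD0 : ∀ s ∈ D, s ≠ 0 := by
    rintro s hs rfl
    rw [hD, mem_filter] at hs
    exact hNn.ne' (zero_dvd_iff.1 hs.2)
  set Δ : Finset (K → ℤ) := (Fintype.piFinset fun _ : K => D).filter
    (fun s => ¬ Persistent n g h (fun k => (s k : ℚ))) with hΔ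
  -- for each class there are many primes
  have hex : ∀ s ∈ Δ, ∃ κ : ℝ, 0 < κ ∧ ∃ C : ℝ, ∀ X : ℕ, 3 ≤ X →
      ({a : ℤ | a.natAbs ≤ X ∧ Squarefree a ∧ ∀ p : ℕ, ∀ _ : Fact p.Prime, (p : ℤ) ∣ a →
        ¬ p ∣ N → R p n g h s}.ncard : ℝ) ≤ C * X * (Real.log X) ^ (-κ) := by
    intro s hs
    rw [hΔ, mem_filter, Fintype.mem_piFinset] at hs
    obtain ⟨hsD, hnp⟩ := hs
    unfold Persistent at hnp
    push Not at hnp
    obtain ⟨σ, hσ⟩ := hnp
    obtain ⟨L, iF, iN, iG, τ, m, hm, hL⟩ := cheb n hn g h hh0 hdeg s (fun k => hD0 _ (hsD k)) σ (by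
      intro β h1 h2
      obtain ⟨k, hk⟩ := hσ β h1 h2
      refine ⟨k, fun y hy => ?_⟩
      have h3 := hk y hy
      rw [Rat.cast_intCast] at h3
      exact h3)
    obtain ⟨δ, C', hδpos, hcount⟩ := count L τ (m * N) (Nat.mul_pos hm hNpos)
    obtain ⟨κ, hκ, -, C, hC⟩ := sieve (frobSet L τ (m * N)) (fun p hp => hp.1) δ C' hδpos hcount
    refine ⟨κ, hκ, C, fun X hX => le_trans ?_ (hC X hX)⟩
    refine Nat.cast_le.2 (Set.ncard_le_ncard ?_ ?_)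
    · rintro a ⟨h1, h2, h3⟩
      refine ⟨h1, h2, fun p hp hpa => ?_⟩
      have hpF : Fact p.Prime := ⟨hp.1⟩
      refine hL p ⟨hp.1, fun h4 => hp.2.1 (h4.trans (Dvd.intro _ rfl)), hp.2.2⟩
        (h3 p hpF hpa fun h4 => hp.2.1 (h4.trans (Dvd.intro_left _ rfl)))
    · apply (Set.finite_Icc (-(X : ℤ)) X).subset
      intro d hd
      have h1 : d.natAbs ≤ X := hd.1
      rw [Set.mem_Icc]
      omega
  choose! κ hκ C hC using hex
  -- the minimum of the exponents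
  obtain ⟨κ0, hκ0, hκ0'⟩ : ∃ κ0 : ℝ, 0 < κ0 ∧ ∀ s ∈ Δ, κ0 ≤ κ s := by
    by_cases hne : Δ.Nonempty
    · obtain ⟨s0, hs0, hmin⟩ := Finset.exists_min_image Δ κ hne
      exact ⟨κ s0, hκ s0 hs0, hmin⟩
    · exact ⟨1, one_pos, fun s hs => absurd ⟨s, hs⟩ hne⟩
  refine ⟨κ0, hκ0, ∑ s ∈ Δ, |C s|, fun X hX => ?_⟩
  have hX3 : (3 : ℝ) ≤ (X : ℝ) := by exact_mod_cast hX
  have hlog1 : 1 < Real.log X := by
    rw [Real.lt_log_iff_exp_lt (by linarith)]
    exact lt_of_lt_of_le Real.exp_one_lt_d9 (by linarith)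
  have hfin : ∀ S : Set ℤ, ({a : ℤ | a.natAbs ≤ X ∧ a ∈ S} : Set ℤ).Finite := by
    intro S
    apply (Set.finite_Icc (-(X : ℤ)) X).subset
    intro d hd
    have h1 : d.natAbs ≤ X := hd.1
    rw [Set.mem_Icc]
    omega
  set E : (K → ℤ) → Set ℤ := fun s => {a : ℤ | a.natAbs ≤ X ∧ Squarefree a ∧
    ∀ p : ℕ, ∀ _ : Fact p.Prime, (p : ℤ) ∣ a → ¬ p ∣ N → R p n g h s} with hE
  have hEfin : ∀ s, (E s).Finite := fun s =>
    hfin {a : ℤ | Squarefree a ∧ ∀ p : ℕ, ∀ _ : Fact p.Prime, (p : ℤ) ∣ a → ¬ p ∣ N → R p n g h s}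
  have hsub : {a : ℤ | a.natAbs ≤ X ∧ Squarefree a ∧ ∃ m, 2 ≤ m ∧ m ∣ h.natDegree ∧ ∃ δ : K → ℚ,
      IsClass n b δ ∧ ¬ Persistent n g h δ ∧
        ∀ (p : ℕ) [Fact p.Prime], CoveringHasPoint n m a g h δ ℚ_[p]} ⊆ ⋃ s ∈ Δ, E s := by
    rintro a ⟨h1, h2, m, hm, hmh, δ, ⟨hδ0, t, ht⟩, hnp, hloc⟩
    have hval : ∀ k, ∀ p : ℕ, p.Prime → ¬ p ∣ N → (n : ℤ) ∣ padicValRat p (δ k) := by
      intro k p hp hpN
      have hpF : Fact p.Prime := ⟨hp⟩
      obtain ⟨z, w, x, hzw, hx, hy⟩ := hloc p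
      exact val_dvd hdeg (fun u v huv => (hgood p hpF (hgoodN p hpN).1 u v huv).1) hb
        (hgoodN p hpN).2 hδ0 ht hzw hy k
    choose s c hs hc hsc using fun k => rep (δ k) (hδ0 k) N hNpos n hn (hval k)
    rw [Set.mem_iUnion₂]
    refine ⟨s, ?_, h1, h2, ?_⟩
    · rw [hΔ, mem_filter, Fintype.mem_piFinset]
      refine ⟨fun k => hmemD _ (hs k), fun hper => hnp ?_⟩
      intro σ
      obtain ⟨β, hβ, hβh, hy⟩ := hper σ
      refine ⟨β, hβ, hβh, fun k => ?_⟩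
      obtain ⟨y, hyσ, hyk⟩ := hy k
      have hck : ((c k : ℚ) : AlgebraicClosure ℚ) ≠ 0 := Rat.cast_ne_zero.2 (hc k)
      have hσc : σ ((c k : ℚ) : AlgebraicClosure ℚ) = ((c k : ℚ) : AlgebraicClosure ℚ) :=
        map_ratCast σ (c k)
      refine ⟨y / (c k : ℚ), ?_, ?_⟩
      · rw [map_div₀, hyσ, hσc]
      · rw [hyk, hsc k, div_pow]
        push_cast
        have h5 : ((c k : ℚ) : AlgebraicClosure ℚ) ^ n ≠ 0 := pow_ne_zero _ hck
        field_simp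
    · intro p hpF hpa hpN
      obtain ⟨z, w, x, hzw, hx, hy⟩ := hloc p
      obtain ⟨u, v, huv, hhuv, hred⟩ := reduces (K := K) hn hm hdeg hmh
        (fun u v huv => (hgood p hpF (hgoodN p hpN).1 u v huv).2) h2 hpa hzw hx
      refine ⟨u, v, huv, hhuv, fun k => ?_⟩
      refine hred k (s k) (fun h3 => ?_) ?_
      · have h4 : (p : ℤ) ∣ (N : ℤ) ^ n := h3.trans (hs k)
        have h5 := (Nat.prime_iff_prime_int.1 hpF.out).dvd_of_dvd_pow h4
        exact hpN (by exact_mod_cast h5)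
      · obtain ⟨y, hyk⟩ := hy k
        refine ⟨(c k : ℚ) * y, ?_⟩
        rw [hyk, hsc k]
        push_cast
        ring
  have hU : ((⋃ s ∈ Δ, E s).ncard : ℝ) ≤ ∑ s ∈ Δ, ((E s).ncard : ℝ) := by
    have h1 : (⋃ s ∈ Δ, E s).ncard ≤ ∑ s ∈ Δ, (E s).ncard := by
      exact ncard_biUnion_le Δ E
    exact_mod_cast h1
  have hUfin : (⋃ s ∈ Δ, E s).Finite := Set.Finite.biUnion Δ.finite_toSet fun s _ => hEfin s
  refine (Nat.cast_le.2 (Set.ncard_le_ncard hsub hUfin)).trans (hU.trans ?_)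
  rw [sum_mul, sum_mul]
  refine sum_le_sum fun s hs => (hC s hs X hX).trans ?_
  have h1 : (Real.log X) ^ (-κ s) ≤ (Real.log X) ^ (-κ0) :=
    Real.rpow_le_rpow_of_exponent_le hlog1.le (neg_le_neg (hκ0' s hs))
  have h2 : 0 ≤ (Real.log X) ^ (-κ s) := Real.rpow_nonneg (by linarith) _
  exact mul_le_mul (mul_le_mul_of_nonneg_right (le_abs_self _) (by positivity)) h1 h2 (by positivity)

end Pool.Agent.R925.FD
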