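import Pool.Agent.R925.FD.Two
import Pool.Agent.TH213.SEL.Gen

/-! Sections of Galois groups of function fields over the curves `C a`. -/

set_option autoImplicit false
set_option linter.unusedSectionVars false

namespace Pool.Agent.R925.FD

open Finset Polynomial IsDedekindDomain NumberField
open Pool.Agent.TH954

/-- The section `s` is geometric over the completions of `k` at all finite places. -/
def LocallyGeometric {k F Ω B : Type} [Field k] [NumberField k] [Field F] [Field Ω] [Field B]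
    [Algebra F Ω] [Algebra k Ω] [Algebra k B] (s : GalSection k F Ω B) : Prop :=
  ∀ v : HeightOneSpectrum (𝓞 k),
    s.GeometricOver (v.adicCompletion k) (AlgebraicClosure (v.adicCompletion k))

/-- The family `δ` is the class of the section `s`: `g k (z) = δ k * γ ^ n` with `γ` fixed by the
section, for all `k`. -/
def SectionClass {K : Type} (n : ℕ) (g : K → ℤ[X]) {F Ω B : Type} [Field F] [Field Ω] [Field B]
    [Algebra F Ω] [Algebra ℚ Ω] [Algebra ℚ B] (s : GalSection ℚ F Ω B) (z : F) (δ : K → ℚ) : Prop :=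
  ∀ k, ∃ γ : Ω, (∀ σ, s.s σ γ = γ) ∧ algebraMap F Ω (aeval z (g k)) = (δ k : Ω) * γ ^ n

/-- geometric over `L` -/
def GeoL {k F Ω B : Type} [Field k] [Field F] [Field Ω] [Field B]
    [Algebra F Ω] [Algebra k Ω] [Algebra k B] (s : GalSection k F Ω B) (L : Type) [Field L]
    [Algebra k L] : Prop := s.GeometricOver L (AlgebraicClosure L)

lemma exists_completion {k F Ω B : Type} [Field k] [NumberField k] [Field F] [Field Ω] [Field B]
    [Algebra F Ω] [Algebra k Ω] [Algebra k B] {s : GalSection k F Ω B} (hs : LocallyGeometric s)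
    (v : HeightOneSpectrum (𝓞 k)) :
    ∃ (L : Type) (_ : Field L) (_ : Algebra k L) (_ : CharZero L), GeoL s L ∧
      Nonempty (L ≃+* v.adicCompletion k) :=
  ⟨v.adicCompletion k, inferInstance, inferInstance,
    charZero_of_injective_algebraMap (algebraMap k (v.adicCompletion k)).injective, hs v,
    ⟨RingEquiv.refl _⟩⟩

section core

variable {ι k F Ω B : Type} [Field k] [CharZero k] [Field F] [Field Ω]
  [Field B] [Algebra k F] [Algebra F Ω] [Algebra k Ω] [IsScalarTower k F Ω] [Algebra k B]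
  [Algebra.IsAlgebraic F Ω] [IsAlgClosure k B]

lemma mem_fix_iff {s : GalSection k F Ω B} {x : Ω} :
    x ∈ (toSAct s).fix ↔ ∀ σ, s.s σ x = x := by
  constructor
  · intro h σ
    rw [← toSAct_s]
    exact h _
  · intro h τ
    exact h _

/-- the values of the functions at a local place -/
theorem cov_core {n m : ℕ} (hn : 0 < n) (hm : 0 < m) {a : ℤ} (ha : a ≠ 0) {g : ι → ℤ[X]}
    {h : ℤ[X]} (hdeg : ∀ i, n ∣ (g i).natDegree) (hdegh : m ∣ h.natDegree) (s : GalSection k F Ω B)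
    (L : Type) [Field L] [CharZero L] [Algebra k L]
    (hs : GeoL s L) {z x : F} (hz0 : z ≠ 0)
    (hx : (a : F) * x ^ m = aeval z h) {δ : ι → k} (hδ : ∀ i, δ i ≠ 0)
    (hcl : ∀ i, ∃ γ : Ω, (∀ σ, s.s σ γ = γ) ∧
      algebraMap F Ω (aeval z (g i)) = algebraMap k Ω (δ i) * γ ^ n) :
    ∃ z' w' x' : L, (z' ≠ 0 ∨ w' ≠ 0) ∧ (a : L) * x' ^ m = hom h z' w' ∧
      ∀ i, ∃ y : L, hom (g i) z' w' = algebraMap k L (δ i) * y ^ n := by
  classical
  have hcF : CharZero F := charZero_of_injective_algebraMap (algebraMap k F).injective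
  have hcΩ : CharZero Ω := charZero_of_injective_algebraMap (algebraMap F Ω).injective
  obtain ⟨pl, hpl⟩ := toSAct_geo s hs
  have hF : ∀ x : F, algebraMap F Ω x ∈ (toSAct s).fix := fun x =>
    mem_fix_iff.2 fun σ => (s.s σ).commutes x
  set ζ : Ω := algebraMap F Ω z with hζ
  have hζ0 : ζ ≠ 0 := (_root_.map_ne_zero _).2 hz0
  -- the coordinates
  obtain ⟨c, hc0, hcfix, hZ, hW, hne⟩ : ∃ c : Ω, c ≠ 0 ∧ c ∈ (toSAct s).fix ∧
      ∃ (hZ : c * ζ ∈ pl.W) (hW : c * 1 ∈ pl.W), pl.ρ ⟨c * ζ, hZ⟩ ≠ 0 ∨ pl.ρ ⟨c * 1, hW⟩ ≠ 0 := by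
    rcases pl.W.mem_or_inv_mem ζ with h1 | h1
    · refine ⟨1, one_ne_zero, one_mem _, by rwa [one_mul], by rw [one_mul]; exact one_mem _,
        Or.inr ?_⟩
      have e1 : (⟨1 * 1, by rw [one_mul]; exact one_mem _⟩ : pl.W) = 1 := Subtype.ext (one_mul _)
      rw [e1, map_one]
      exact one_ne_zero
    · refine ⟨ζ⁻¹, inv_ne_zero hζ0, inv_mem (hF z), by rw [inv_mul_cancel₀ hζ0]; exact one_mem _,
        by rwa [mul_one], Or.inl ?_⟩
      have e1 : (⟨ζ⁻¹ * ζ, by rw [inv_mul_cancel₀ hζ0]; exact one_mem _⟩ : pl.W) = 1 :=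
        Subtype.ext (inv_mul_cancel₀ hζ0)
      rw [e1, map_one]
      exact one_ne_zero
  have hpoly : ∀ f : ℤ[X], hom f (c * ζ) (c * 1) = c ^ f.natDegree * algebraMap F Ω (aeval z f) := by
    intro f
    rw [hom_mul, hom_one, hζ, aeval_def, hom_eval₂]
    congr 2
    exact RingHom.ext_int _ _
  have hzfix : c * ζ ∈ (toSAct s).fix := mul_mem hcfix (hF z)
  have hwfix : c * 1 ∈ (toSAct s).fix := mul_mem hcfix (one_mem _)
  obtain ⟨zL, hzL⟩ := value_base _ hpl hzfix hZ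
  obtain ⟨wL, hwL⟩ := value_base _ hpl hwfix hW
  have hinj : Function.Injective (algebraMap L (AlgebraicClosure L)) :=
    (algebraMap L (AlgebraicClosure L)).injective
  -- the equations
  have key : ∀ (f : ℤ[X]) (N : ℕ) (q : k) (γ : Ω), 0 < N → N ∣ f.natDegree → q ≠ 0 →
      γ ∈ (toSAct s).fix → algebraMap F Ω (aeval z f) = algebraMap k Ω q * γ ^ N →
      ∃ yL : L, hom f zL wL = algebraMap k L q * yL ^ N := by
    intro f N q γ hN hNd hq hγ hf
    obtain ⟨d, hd⟩ := hNd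
    have h1 : hom f (c * ζ) (c * 1) = algebraMap k Ω q * (c ^ d * γ) ^ N := by
      rw [hpoly, hf, hd, mul_pow, ← pow_mul, mul_comm d N]
      ring
    have hq' : algebraMap k Ω q ≠ 0 := (_root_.map_ne_zero _).2 hq
    have h3 : pl.W.subtype (hom f (⟨c * ζ, hZ⟩ : pl.W) ⟨c * 1, hW⟩) = hom f (c * ζ) (c * 1) :=
      hom_map f pl.W.subtype _ _
    have h4 : c ^ d * γ ∈ pl.W := by
      apply Plc.mem_of_pow_mem (n := N) hN
      have h5 : (c ^ d * γ) ^ N = algebraMap k Ω q⁻¹ * hom f (c * ζ) (c * 1) := by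
        rw [h1, map_inv₀, inv_mul_cancel_left₀ hq']
      rw [h5, ← h3]
      exact mul_mem (pl.comm q⁻¹).1 (SetLike.coe_mem _)
    obtain ⟨yL, hyL⟩ := value_base _ hpl (mul_mem (pow_mem hcfix d) hγ) h4
    refine ⟨yL, hinj ?_⟩
    obtain ⟨h6, h7⟩ := pl.comm q
    have h8 : hom f (⟨c * ζ, hZ⟩ : pl.W) ⟨c * 1, hW⟩ =
        ⟨algebraMap k Ω q, h6⟩ * ⟨c ^ d * γ, h4⟩ ^ N := by
      apply Subtype.ext
      exact h3.trans h1
    rw [hom_map, hzL, hwL, ← hom_map, h8, map_mul, map_pow, h7, map_mul, map_pow, hyL,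
      ← IsScalarTower.algebraMap_apply]
  obtain ⟨xL, hxL⟩ := key h m (a : k) (algebraMap F Ω x) hm hdegh (Int.cast_ne_zero.2 ha) (hF x) (by
    rw [← hx, map_mul, map_pow, map_intCast, map_intCast])
  choose γ hγ hγ' using hcl
  refine ⟨zL, wL, xL, ?_, ?_, fun i => key (g i) n (δ i) (γ i) hn (hdeg i) (hδ i)
    (mem_fix_iff.2 (hγ i)) (hγ' i)⟩
  · rcases hne with h1 | h1
    · left
      intro h2
      apply h1
      rw [← hzL, h2, map_zero]
    · right
      intro h2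
      apply h1
      rw [← hwL, h2, map_zero]
  · rw [hxL, map_intCast]

end core

section

variable {K : Type} [Fintype K] {F Ω B : Type} [Field F] [Field Ω]
  [Field B] [Algebra ℚ F] [Algebra F Ω] [Algebra ℚ Ω] [IsScalarTower ℚ F Ω] [Algebra ℚ B]
  [IsAlgClosure F Ω] [IsAlgClosure ℚ B]

lemma aeval_ne_zero {z : F} (hz : Transcendental ℚ z) {f : ℤ[X]} (hf : f ≠ 0) : aeval z f ≠ 0 := by
  intro h
  have h1 : f.map (Int.castRingHom ℚ) ≠ 0 :=
    (Polynomial.map_ne_zero_iff (Int.castRingHom ℚ).injective_int).2 hf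
  apply hz
  refine ⟨f.map (Int.castRingHom ℚ), h1, ?_⟩
  rw [aeval_def, eval₂_map]
  rw [aeval_def] at h
  rw [← h]
  congr 1
  exact RingHom.ext_int _ _

/-- a section has a class -/
theorem exists_sectionClass {n : ℕ} (hn : 0 < n) {b : ℤ} (hb : b ≠ 0) {g : K → ℤ[X]}
    (hg0 : ∀ k, g k ≠ 0) (s : GalSection ℚ F Ω B) {z y : F} (hz : Transcendental ℚ z)
    (hy : (b : F) * y ^ n = ∏ k, aeval z (g k)) :
    ∃ δ : K → ℚ, IsClass n b δ ∧ SectionClass n g s z δ := by
  classical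
  have hcl : IsAlgClosed Ω := IsAlgClosure.isAlgClosed F
  have halg : Algebra.IsAlgebraic F Ω := IsAlgClosure.isAlgebraic
  have hcF : CharZero F := charZero_of_injective_algebraMap (algebraMap ℚ F).injective
  have hcΩ : CharZero Ω := charZero_of_injective_algebraMap (algebraMap F Ω).injective
  have hF : ∀ x : F, algebraMap F Ω x ∈ (toSAct s).fix := fun x =>
    mem_fix_iff.2 fun σ => (s.s σ).commutes x
  have hne : ∀ k, algebraMap F Ω (aeval z (g k)) ≠ 0 := fun k =>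
    (_root_.map_ne_zero _).2 (aeval_ne_zero hz (hg0 k))
  choose c hc γ hγ hcγ using fun k => (toSAct s).kummer (hF (aeval z (g k))) (hne k) hn
  have hcγ' : ∀ k, algebraMap F Ω (aeval z (g k)) = (c k : Ω) * γ k ^ n := fun k => by
    rw [hcγ k, eq_ratCast]
  refine ⟨c, ⟨hc, ?_⟩, fun k => ⟨γ k, mem_fix_iff.1 (hγ k), hcγ' k⟩⟩
  have h1 : (b : Ω) * algebraMap F Ω y ^ n = (∏ k, (c k : Ω)) * (∏ k, γ k) ^ n := by
    have h2 := congrArg (algebraMap F Ω) hy
    rw [map_mul, map_pow, map_intCast, map_prod] at h2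
    rw [h2, ← prod_pow, ← prod_mul_distrib]
    exact prod_congr rfl fun k _ => hcγ' k
  have hb' : (b : Ω) ≠ 0 := Int.cast_ne_zero.2 hb
  have hc' : ∏ k, (c k : Ω) ≠ 0 := prod_ne_zero_iff.2 fun k _ => Rat.cast_ne_zero.2 (hc k)
  have hγ0 : ∀ k, γ k ≠ 0 := by
    intro k h
    apply hne k
    rw [hcγ' k, h, zero_pow hn.ne', mul_zero]
  have hγ' : ∏ k, γ k ≠ 0 := prod_ne_zero_iff.2 fun k _ => hγ0 k
  set t : Ω := algebraMap F Ω y / ∏ k, γ k with ht
  have h3 : (b : Ω) * t ^ n = ∏ k, (c k : Ω) := by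
    rw [ht, div_pow, mul_div_assoc', h1, mul_div_assoc, div_self (pow_ne_zero n hγ'), mul_one]
  have htfix : t ∈ (toSAct s).fix := div_mem (hF y) (prod_mem fun k _ => hγ k)
  have htalg : IsAlgebraic ℚ t := by
    refine ⟨X ^ n - C ((∏ k, c k) / b), X_pow_sub_C_ne_zero hn _, ?_⟩
    have hb'' : (b : Ω) ≠ 0 := hb'
    simp only [map_sub, map_pow, aeval_X, aeval_C, eq_ratCast]
    push_cast
    rw [← h3]
    field_simp
    ring
  obtain ⟨θ, hθ⟩ := alg_range (toSAct s).j htalg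
  rw [← hθ] at htfix
  obtain ⟨t0, ht0⟩ := (toSAct s).fix_j htfix
  refine ⟨t0, ?_⟩
  have h4 : t = (t0 : Ω) := by
    rw [← hθ, ← ht0, AlgHom.commutes, eq_ratCast]
  rw [h4] at h3
  have h5 : (((b : ℚ) * t0 ^ n : ℚ) : Ω) = ((∏ k, c k : ℚ) : Ω) := by
    push_cast
    exact h3
  exact (Rat.cast_injective h5).symm

omit [Fintype K] in
/-- a locally geometric section gives local points of the covering -/
theorem cov_of_section {n m : ℕ} (hn : 0 < n) (hm : 0 < m) {a : ℤ} (ha : a ≠ 0) {g : K → ℤ[X]}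
    {h : ℤ[X]} (hdeg : ∀ k, n ∣ (g k).natDegree) (hdegh : m ∣ h.natDegree) (s : GalSection ℚ F Ω B)
    (hs : LocallyGeometric s) {z x : F} (hz : Transcendental ℚ z)
    (hx : (a : F) * x ^ m = aeval z h) {δ : K → ℚ} (hδ : ∀ k, δ k ≠ 0)
    (hcl : SectionClass n g s z δ) (p : ℕ) [hp : Fact p.Prime] :
    CoveringHasPoint n m a g h δ ℚ_[p] := by
  classical
  have halg : Algebra.IsAlgebraic F Ω := IsAlgClosure.isAlgebraic
  have hz0 : z ≠ 0 := by
    rintro rfl
    exact hz isAlgebraic_zero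
  obtain ⟨L, iL, iA, hcL, hgeo, ⟨e'⟩⟩ := exists_completion hs
    (Rat.HeightOneSpectrum.primesEquiv.symm ⟨p, hp.out⟩)
  have e : L ≃+* ℚ_[p] := e'.trans
    (Padic.adicCompletionEquiv (R := 𝓞 ℚ) ⟨p, hp.out⟩).symm.toAlgEquiv.toRingEquiv
  obtain ⟨z', w', x', h1, h2, h3⟩ := cov_core hn hm ha hdeg hdegh s L hgeo hz0 hx hδ (fun i => by
    obtain ⟨γ, h4, h5⟩ := hcl i
    exact ⟨γ, h4, by rw [h5, eq_ratCast]⟩)
  choose y hy using h3
  refine ⟨e z', e w', e x', ?_, ?_, fun k => ⟨e (y k), ?_⟩⟩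
  · rcases h1 with h1 | h1
    · exact Or.inl fun h => h1 ((map_eq_zero e).1 h)
    · exact Or.inr fun h => h1 ((map_eq_zero e).1 h)
  · have h4 := congrArg e h2
    rw [map_mul, map_pow, map_intCast] at h4
    rw [h4]
    exact hom_map h (e : L →+* ℚ_[p]) z' w'
  · have h4 := congrArg e (hy k)
    rw [eq_ratCast, map_mul, map_pow, map_ratCast] at h4
    rw [← h4]
    exact (hom_map (g k) (e : L →+* ℚ_[p]) z' w').symm

end

end Pool.Agent.R925.FD
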