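import Pool.Agent.R925.FD.Sec
import Pool.Agent.TH213.SEL.Fin24

/-! Sections of Galois groups of function fields over the curves `C a`: the birational section
conjecture. -/

set_option autoImplicit false
set_option linter.unusedSectionVars false

namespace Pool.Agent.R925.FD

open Finset Polynomial IsDedekindDomain NumberField
open Pool.Agent.TH954 Pool.Agent.TH942

/-- The curve `c y² = f(z)` is the elliptic curve `Y² = X³ + A X + B`, by a Möbius transformation
`X = (p z + q) / (r z + s)`, and `c * f(α)` is a nonzero square; the elliptic curve has only finitely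
many rational points and its Tate-Shafarevich group is killed by `M₀`. -/
def EllipticFactor (f : ℤ[X]) (α : ℤ) (M₀ : ℕ) : Prop :=
  ∃ (A B : ℤ) (p q r s c : ℚ), 4 * A ^ 3 + 27 * B ^ 2 ≠ 0 ∧
    Finite (sw (A : ℚ) (B : ℚ)).toAffine.Point ∧ ShaKilledBy (sw (A : ℚ) (B : ℚ)) M₀ ∧
    p * s - q * r ≠ 0 ∧ c ≠ 0 ∧ f.eval α ≠ 0 ∧ IsSquare (c * (f.eval α : ℤ)) ∧
    f.map (Int.castRingHom ℚ) = C c * ((C r * X + C s) * ((C p * X + C q) ^ 3 +
      C (A : ℚ) * (C p * X + C q) * (C r * X + C s) ^ 2 + C (B : ℚ) * (C r * X + C s) ^ 3))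

lemma shortInt_of {A B : ℤ} (h : 4 * A ^ 3 + 27 * B ^ 2 ≠ 0) : ShortInt (sw (A : ℚ) (B : ℚ)) where
  h1 := rfl
  h2 := rfl
  h3 := rfl
  ia := by
    change IsIntegral ℤ (A : ℚ)
    exact isIntegral_algebraMap (R := ℤ) (A := ℚ) (x := A)
  ib := by
    change IsIntegral ℤ (B : ℚ)
    exact isIntegral_algebraMap (R := ℤ) (A := ℚ) (x := B)
  disc := by
    change 4 * (A : ℚ) ^ 3 + 27 * (B : ℚ) ^ 2 ≠ 0
    exact_mod_cast h

lemma ne_const {F : Type} [Field F] [Algebra ℚ F] {z : F} (hz : Transcendental ℚ z) (c : ℚ) :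
    z ≠ algebraMap ℚ F c := by
  rintro rfl
  exact hz (isAlgebraic_algebraMap c)

/-- a linear form in `z` is not zero -/
lemma lin_ne {F : Type} [Field F] [Algebra ℚ F] {z : F} (hz : Transcendental ℚ z) {r s : ℚ}
    (h : r ≠ 0 ∨ s ≠ 0) : algebraMap ℚ F r * z + algebraMap ℚ F s ≠ 0 := by
  intro h0
  by_cases hr : r = 0
  · rw [hr, map_zero, zero_mul, zero_add] at h0
    exact h.resolve_left (fun h => h hr) ((map_eq_zero _).1 h0)
  · apply ne_const hz (-s / r)
    have hr' : algebraMap ℚ F r ≠ 0 := (_root_.map_ne_zero _).2 hr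
    rw [map_div₀, map_neg, eq_div_iff hr']
    linear_combination h0

lemma aeval_int {F : Type} [Field F] [Algebra ℚ F] (z : F) (f : ℤ[X]) :
    aeval z f = aeval z (f.map (Int.castRingHom ℚ)) := by
  rw [aeval_def, aeval_def, eval₂_map]
  congr 1
  exact RingHom.ext_int _ _

section

variable {F Ω B : Type} [Field F] [Field Ω]
  [Field B] [Algebra ℚ F] [Algebra F Ω] [Algebra ℚ Ω] [IsScalarTower ℚ F Ω] [Algebra ℚ B]
  [IsAlgClosure F Ω] [IsAlgClosure ℚ B]

/-- a section whose fixed field contains a point of the elliptic curve -/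
theorem bsc_core {M₀ : ℕ} (hM₀ : 1 ≤ M₀)
    (S : GalSection ℚ F Ω B) (hS : LocallyGeometric S) {z : F} (hz : Transcendental ℚ z)
    (halg : Algebra.IsAlgebraic (IntermediateField.adjoin ℚ {z}) F) {f : ℤ[X]} {α : ℤ}
    (hf : EllipticFactor f α M₀) {d : ℚ} (hd : IsSquare (d * (f.eval α : ℤ))) {γ : Ω}
    (hγ : ∀ σ, S.s σ γ = γ) (hfγ : algebraMap F Ω (aeval z f) = (d : Ω) * γ ^ 2) :
    ∃! O : ValuationSubring F, S.ArisesFrom O := by
  have hcF : CharZero F := charZero_of_injective_algebraMap (algebraMap ℚ F).injective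
  have hcΩ : CharZero Ω := charZero_of_injective_algebraMap (algebraMap F Ω).injective
  obtain ⟨A, B', p, q, r, s, c, hdisc, hfin, hSha, hps, hc, hfα, ⟨r₁, hr₁⟩, hfe⟩ := hf
  obtain ⟨r₂, hr₂⟩ := hd
  have hrs : r ≠ 0 ∨ s ≠ 0 := by
    by_contra h
    push Not at h
    apply hps
    rw [h.1, h.2]
    ring
  set v : ℚ := ((f.eval α : ℤ) : ℚ) with hv
  have hv0 : v ≠ 0 := Int.cast_ne_zero.2 hfα
  set U : F := algebraMap ℚ F p * z + algebraMap ℚ F q with hU
  set V : F := algebraMap ℚ F r * z + algebraMap ℚ F s with hV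
  have hV0 : V ≠ 0 := lin_ne hz hrs
  have hcF0 : algebraMap ℚ F c ≠ 0 := (_root_.map_ne_zero _).2 hc
  have hXc : ∀ κ : ℚ, U / V ≠ algebraMap ℚ F κ := by
    intro κ hκ
    rw [div_eq_iff hV0] at hκ
    have h1 : algebraMap ℚ F (p - κ * r) * z + algebraMap ℚ F (q - κ * s) = 0 := by
      simp only [map_sub, map_mul]
      linear_combination hκ
    refine lin_ne hz ?_ h1
    by_contra h
    push Not at h
    apply hps
    linear_combination s * h.1 - r * h.2
  have hfz : aeval z f = algebraMap ℚ F c * V ^ 4 *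
      ((U / V) ^ 3 + algebraMap ℚ F (A : ℚ) * (U / V) + algebraMap ℚ F (B' : ℚ)) := by
    rw [aeval_int, hfe]
    simp only [map_mul, map_add, map_pow, aeval_C, aeval_X]
    rw [← hU, ← hV]
    field_simp
  have hvΩ : (v : Ω) ≠ 0 := Rat.cast_ne_zero.2 hv0
  have hcΩ0 : (c : Ω) ≠ 0 := Rat.cast_ne_zero.2 hc
  have hVΩ : algebraMap F Ω V ≠ 0 := (_root_.map_ne_zero _).2 hV0
  set Y : Ω := (r₁ : Ω) * r₂ * γ / (v * c * algebraMap F Ω V ^ 2) with hY
  have hYfix : ∀ g, S.s g Y = Y := by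
    intro g
    rw [hY, map_div₀, map_mul, map_mul, map_mul, map_mul, map_ratCast, map_ratCast, map_ratCast,
      map_ratCast, map_pow, hγ g, AlgEquiv.commutes]
  have hr₁' : (r₁ : Ω) ^ 2 = c * v := by
    rw [sq]
    exact_mod_cast congrArg (Rat.cast (K := Ω)) hr₁.symm
  have hr₂' : (r₂ : Ω) ^ 2 = d * v := by
    rw [sq]
    exact_mod_cast congrArg (Rat.cast (K := Ω)) hr₂.symm
  have hfΩ := hfγ
  rw [hfz] at hfΩ
  have hYX : Y ^ 2 = algebraMap F Ω (U / V) ^ 3 + algebraMap ℚ Ω (A : ℚ) * algebraMap F Ω (U / V) +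
      algebraMap ℚ Ω (B' : ℚ) := by
    have h1 : algebraMap F Ω (U / V) ^ 3 + algebraMap ℚ Ω (A : ℚ) * algebraMap F Ω (U / V) +
        algebraMap ℚ Ω (B' : ℚ) = (d * γ ^ 2) / (c * algebraMap F Ω V ^ 4) := by
      rw [eq_div_iff (mul_ne_zero hcΩ0 (pow_ne_zero 4 hVΩ)), ← hfΩ]
      simp only [map_mul, map_add, map_pow, ← IsScalarTower.algebraMap_apply]
      rw [eq_ratCast (algebraMap ℚ Ω) c]
      ring
    rw [h1, hY, div_pow, mul_pow, mul_pow, hr₁', hr₂']
    field_simp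
  obtain ⟨O, h1, h2⟩ := Pool.Agent.TH213.SEL.bir_pt (shortInt_of hdisc)
    hfin hM₀ hSha S hS ⟨z, hz, halg⟩ (U / V) hXc Y hYfix hYX
  exact ⟨O, h1, h2⟩

end

/-! ### The example -/

/-- `(z - 60) (z - 30) (z - 20) (z - 15)` -/
noncomputable def exf : ℤ[X] := (X - C 60) * (X - C 30) * (X - C 20) * (X - C 15)

lemma exf_factor {M₀ : ℕ} (hSha : ShaKilledBy (sw (-351) (1890 : ℚ)) M₀) (α : ℤ)
    (hα : α = 0 ∨ α = 24) : EllipticFactor exf α M₀ := by
  have hev : exf.eval α = (α - 60) * (α - 30) * (α - 20) * (α - 15) := by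
    simp [exf]
  refine ⟨-351, 1890, -87, 1980, -1, 60, 1 / 629856, by norm_num, ?_, ?_, by norm_num, by norm_num,
    ?_, ?_, ?_⟩
  · have h := Pool.Agent.TH213.SEL.finite24
    exact_mod_cast h
  · exact_mod_cast hSha
  · rw [hev]
    rcases hα with rfl | rfl <;> norm_num
  · rw [hev]
    rcases hα with rfl | rfl
    · exact ⟨300 / 324, by norm_num⟩
    · exact ⟨1 / 9, by norm_num⟩
  · have h1 : exf.map (Int.castRingHom ℚ) =
        (X - C 60) * (X - C 30) * (X - C 20) * (X - C 15) := by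
      simp only [exf, Polynomial.map_mul, Polynomial.map_sub, map_X, map_C]
      norm_num
    rw [h1]
    apply Polynomial.funext
    intro t
    simp only [eval_mul, eval_sub, eval_add, eval_pow, eval_X, eval_C]
    push_cast
    ring

end Pool.Agent.R925.FD
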