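import Pool.Agent.R925.FD.Sec2

/-! Sections of Galois groups of function fields over almost all curves `C a`. -/

set_option autoImplicit false
set_option linter.unusedSectionVars false

namespace Pool.Agent.R925.FD

open Finset Polynomial IsDedekindDomain NumberField
open Pool.Agent.TH954 Pool.Agent.TH942

/-- Let `F` be an extension of `ℚ` with elements `z`, `x`, `y`, `b y ^ n = ∏ g k (z)`,
`a x ^ m = h (z)`, where `z` is transcendental, that is, the function field of the curve `C a` or of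
a variety with a dominant map to it, and let `Ω` be an algebraic closure of `F`. Every section of
`Gal(Ω/F) → G_ℚ` which is geometric over the completions of `ℚ` at the finite places has a
persistent class. -/
def SectionsPersistent {K : Type} [Fintype K] (n m : ℕ) (b a : ℤ) (g : K → ℤ[X]) (h : ℤ[X]) : Prop :=
  ∀ (F Ω B : Type) [Field F] [Field Ω] [Field B] [Algebra ℚ F] [Algebra F Ω] [Algebra ℚ Ω]
    [Algebra ℚ B] [IsScalarTower ℚ F Ω] [IsAlgClosure F Ω] [IsAlgClosure ℚ B] (z x y : F),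
    Transcendental ℚ z → (b : F) * y ^ n = ∏ k, aeval z (g k) → (a : F) * x ^ m = aeval z h →
    ∀ s : GalSection ℚ F Ω B, LocallyGeometric s →
      ∃ δ : K → ℚ, IsClass n b δ ∧ SectionClass n g s z δ ∧ Persistent n g h δ

/-- Let `F` be an extension of `ℚ` with elements `z`, `x`, `y`, `b y ^ n = ∏ g k (z)`,
`a x ^ m = h (z)`, where `z` is transcendental and `F` is algebraic over `ℚ(z)`, that is, the
function field of the curve `C a` or of a covering of it, and let `Ω` be an algebraic closure of `F`.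
Every section of `Gal(Ω/F) → G_ℚ` which is geometric over the completions of `ℚ` at the finite
places arises from exactly one rational point. -/
def SectionsAreGeometric {K : Type} [Fintype K] (n m : ℕ) (b a : ℤ) (g : K → ℤ[X]) (h : ℤ[X]) :
    Prop :=
  ∀ (F Ω B : Type) [Field F] [Field Ω] [Field B] [Algebra ℚ F] [Algebra F Ω] [Algebra ℚ Ω]
    [Algebra ℚ B] [IsScalarTower ℚ F Ω] [IsAlgClosure F Ω] [IsAlgClosure ℚ B] (z x y : F),
    Transcendental ℚ z → Algebra.IsAlgebraic (IntermediateField.adjoin ℚ {z}) F →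
    (b : F) * y ^ n = ∏ k, aeval z (g k) → (a : F) * x ^ m = aeval z h →
    ∀ s : GalSection ℚ F Ω B, LocallyGeometric s → ∃! O : ValuationSubring F, s.ArisesFrom O

/-- Every persistent class is the class of an integral zero of `h`. -/
def OnlyZeros {K : Type} [Fintype K] (b : ℤ) (g : K → ℤ[X]) (h : ℤ[X]) : Prop :=
  ∀ δ : K → ℚ, IsClass 2 b δ → Persistent 2 g h δ →
    ∃ α : ℤ, h.eval α = 0 ∧ ∀ k, IsSquare (δ k * ((g k).eval α : ℤ))

variable {K : Type} [Fintype K]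

theorem sec_main {n : ℕ} (hn : 0 < n) {b : ℤ} (hb : b ≠ 0) {g : K → ℤ[X]} {h : ℤ[X]}
    (hg0 : ∀ k, g k ≠ 0) (hh0 : h ≠ 0) (hdeg : ∀ k, n ∣ (g k).natDegree)
    (hgg : ∀ k l, k ≠ l →
      IsCoprime ((g k).map (Int.castRingHom ℚ)) ((g l).map (Int.castRingHom ℚ)))
    (hgh : ∀ k, IsCoprime (h.map (Int.castRingHom ℚ)) ((g k).map (Int.castRingHom ℚ))) :
    ∃ κ : ℝ, 0 < κ ∧ ∃ C : ℝ, ∀ X : ℕ, 3 ≤ X →
      ({a : ℤ | a.natAbs ≤ X ∧ Squarefree a ∧ ∃ m, 2 ≤ m ∧ m ∣ h.natDegree ∧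
        ¬ SectionsPersistent n m b a g h}.ncard : ℝ) ≤ C * X * (Real.log X) ^ (-κ) := by
  classical
  obtain ⟨κ, hκ, C, hC⟩ := main n hn b hb g h hg0 hh0 hdeg hgg hgh
  refine ⟨κ, hκ, C, fun X hX => le_trans ?_ (hC X hX)⟩
  refine Nat.cast_le.2 (Set.ncard_le_ncard ?_ ?_)
  · rintro a ⟨h1, h2, m, hm, hmh, hno⟩
    refine ⟨h1, h2, m, hm, hmh, ?_⟩
    by_contra hcon
    apply hno
    intro F Ω B _ _ _ _ _ _ _ _ _ _ z x y hz hy hx s hs
    obtain ⟨δ, h3, h4⟩ := exists_sectionClass hn hb hg0 s hz hy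
    refine ⟨δ, h3, h4, ?_⟩
    by_contra hper
    exact hcon ⟨δ, h3, hper, fun p _ => cov_of_section hn (by omega) h2.ne_zero hdeg hmh s hs hz hx
      h3.1 h4 p⟩
  · apply (Set.finite_Icc (-(X : ℤ)) X).subset
    intro d hd
    have h1 : d.natAbs ≤ X := hd.1
    rw [Set.mem_Icc]
    omega

/-- The sections are geometric if the persistent classes give points of elliptic curves with only
finitely many rational points. -/
theorem geometric_of_persistent {b : ℤ} {g : K → ℤ[X]} {h : ℤ[X]}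
    (hOZ : OnlyZeros b g h) {M₀ : ℕ} (hM₀ : 1 ≤ M₀) (T : Finset K)
    (hT : ∀ α : ℤ, h.eval α = 0 → EllipticFactor (∏ k ∈ T, g k) α M₀) {m : ℕ} {a : ℤ}
    (hP : SectionsPersistent 2 m b a g h) : SectionsAreGeometric 2 m b a g h := by
  classical
  intro F Ω B _ _ _ _ _ _ _ _ _ _ z x y hz halg hy hx s hs
  have hcF : CharZero F := charZero_of_injective_algebraMap (algebraMap ℚ F).injective
  have hcΩ : CharZero Ω := charZero_of_injective_algebraMap (algebraMap F Ω).injective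
  obtain ⟨δ, h1, h2, h3⟩ := hP F Ω B z x y hz hy hx s hs
  obtain ⟨α, hα, hsq⟩ := hOZ δ h1 h3
  choose γ hγ hγ' using h2
  refine bsc_core hM₀ s hs hz halg (hT α hα) (d := ∏ k ∈ T, δ k) ?_ (γ := ∏ k ∈ T, γ k) ?_ ?_
  · choose r hr using hsq
    refine ⟨∏ k ∈ T, r k, ?_⟩
    rw [eval_prod, Int.cast_prod, ← prod_mul_distrib, ← prod_mul_distrib]
    exact prod_congr rfl fun k _ => hr k
  · intro σ
    rw [map_prod]
    exact prod_congr rfl fun k _ => hγ k σ
  · rw [map_prod, map_prod, prod_congr rfl fun k _ => hγ' k, prod_mul_distrib, prod_pow,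
      Rat.cast_prod]

/-- one or two integral zeros -/
theorem onlyZeros_two {b : ℤ} {g : K → ℤ[X]} {h : ℤ[X]} (hh0 : h ≠ 0)
    (hgh : ∀ k, IsCoprime (h.map (Int.castRingHom ℚ)) ((g k).map (Int.castRingHom ℚ)))
    (α₁ α₂ : ℤ) (hz : ∀ β : AlgebraicClosure ℚ, aeval β h = 0 ↔ β = α₁ ∨ β = α₂) :
    OnlyZeros b g h := by
  classical
  intro δ hδ hper
  have hom_int : ∀ (f : ℤ[X]) (α : ℤ), hom f (α : ℚ) 1 = ((f.eval α : ℤ) : ℚ) := by
    intro f α
    rw [hom_one]
    have h6 := eval₂_at_apply (p := f) (Int.castRingHom ℚ) α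
    rw [eq_intCast, eq_intCast] at h6
    exact h6
  have hg : ∀ (k : K) (α : ℤ), h.eval α = 0 → (g k).eval α ≠ 0 := by
    intro k α hα hgα
    refine coprime_field hh0 (hgh k) (F := ℚ) (z := (α : ℚ)) (w := 1)
      (Or.inr one_ne_zero) ?_ ?_
    · rw [hom_int, hα, Int.cast_zero]
    · rw [hom_int, hgα, Int.cast_zero]
  have hzero : ∀ α : ℤ, aeval (α : AlgebraicClosure ℚ) h = 0 → h.eval α = 0 := by
    intro α hα
    have h6 := aeval_algebraMap_apply_eq_algebraMap_eval (A := AlgebraicClosure ℚ) α h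
    rw [eq_intCast, eq_intCast, hα] at h6
    exact_mod_cast h6.symm
  have hα₁ := hzero α₁ ((hz α₁).2 (Or.inl rfl))
  have hα₂ := hzero α₂ ((hz α₂).2 (Or.inr rfl))
  rcases persistent_two g h α₁ α₂ (fun β hβ => (hz β).1 hβ) (fun k => hg k α₁ hα₁)
    (fun k => hg k α₂ hα₂) δ hδ.1 hper with h6 | h6
  · exact ⟨α₁, hα₁, h6⟩
  · exact ⟨α₂, hα₂, h6⟩

omit [Fintype K] in
/-- one integral zero and two conjugate quadratic irrationalities -/
theorem persistent_quad (g : K → ℤ[X]) (h : ℤ[X]) (α : ℤ) (D : ℚ) (hD : ¬ IsSquare D)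
    (hz : ∀ β : AlgebraicClosure ℚ, aeval β h = 0 → β = α ∨ β ^ 2 = D)
    (h1 : ∀ k, (g k).eval α ≠ 0) (δ : K → ℚ) (hδ : ∀ k, δ k ≠ 0) (hper : Persistent 2 g h δ)
    (k : K) : IsSquare (δ k * ((g k).eval α : ℤ)) := by
  by_contra hcon
  set W := AlgebraicClosure ℚ with hW
  have hsqrt : ∀ q : ℚ, ∃ x : W, x ^ 2 = (q : W) := fun q => by
    obtain ⟨x, hx⟩ := IsAlgClosed.exists_pow_nat_eq (q : W) (n := 2) (by norm_num)
    exact ⟨x, hx⟩
  obtain ⟨x, hx⟩ := hsqrt (δ k * ((g k).eval α : ℤ))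
  obtain ⟨y, hy⟩ := hsqrt D
  obtain ⟨σ, -, hσx, hσy⟩ := two hx hy (fun _ => True) (fun _ _ _ _ => trivial)
    (by obtain ⟨σ, hσ⟩ := exists_neg x _ hx hcon; exact ⟨σ, trivial, hσ⟩)
    (by obtain ⟨σ, hσ⟩ := exists_neg y _ hy hD; exact ⟨σ, trivial, hσ⟩)
  obtain ⟨β, hσβ, hβh, hyk⟩ := hper σ
  have hy0 : y ≠ 0 := by
    rintro rfl
    rw [zero_pow two_ne_zero] at hy
    apply hD
    have h2 : D = 0 := by exact_mod_cast hy.symm
    rw [h2]
    exact IsSquare.zero
  have hx0 : x ≠ 0 := by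
    rintro rfl
    rw [zero_pow two_ne_zero] at hx
    have h2 : δ k * ((g k).eval α : ℤ) = 0 := by exact_mod_cast hx.symm
    exact mul_ne_zero (hδ k) (Int.cast_ne_zero.2 (h1 k)) h2
  rcases hz β hβh with h3 | h3
  · obtain ⟨v, hσv, hv⟩ := hyk k
    have h4 : aeval β (g k) = (((g k).eval α : ℤ) : W) := by
      rw [h3]
      have h5 := aeval_algebraMap_apply_eq_algebraMap_eval (A := W) α (g k)
      rw [eq_intCast, eq_intCast] at h5
      exact h5
    refine moved (x := x) (y := (δ k : W) * v) ?_ hσx hx0 ?_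
    · rw [hx, mul_pow, Rat.cast_mul, Rat.cast_intCast, ← h4, hv]
      ring
    · rw [map_mul, map_ratCast, hσv]
  · refine moved (x := y) (y := β) ?_ hσy hy0 hσβ
    rw [hy, h3]

/-- one integral zero and two conjugate quadratic irrationalities -/
theorem onlyZeros_quad {b : ℤ} {g : K → ℤ[X]} {h : ℤ[X]} (hh0 : h ≠ 0)
    (hgh : ∀ k, IsCoprime (h.map (Int.castRingHom ℚ)) ((g k).map (Int.castRingHom ℚ)))
    (α : ℤ) (D : ℚ) (hD : ¬ IsSquare D) (hα : h.eval α = 0)
    (hz : ∀ β : AlgebraicClosure ℚ, aeval β h = 0 → β = α ∨ β ^ 2 = D) :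
    OnlyZeros b g h := by
  classical
  intro δ hδ hper
  have hom_int : ∀ (f : ℤ[X]) (α : ℤ), hom f (α : ℚ) 1 = ((f.eval α : ℤ) : ℚ) := by
    intro f α
    rw [hom_one]
    have h6 := eval₂_at_apply (p := f) (Int.castRingHom ℚ) α
    rw [eq_intCast, eq_intCast] at h6
    exact h6
  have hg : ∀ (k : K), (g k).eval α ≠ 0 := by
    intro k hgα
    refine coprime_field hh0 (hgh k) (F := ℚ) (z := (α : ℚ)) (w := 1)
      (Or.inr one_ne_zero) ?_ ?_
    · rw [hom_int, hα, Int.cast_zero]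
    · rw [hom_int, hgα, Int.cast_zero]
  exact ⟨α, hα, persistent_quad g h α D hD hz hg δ hδ.1 hper⟩

end Pool.Agent.R925.FD
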