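import Pool.Agent.R925.FD.Defs

/-! Rational places of a function field over the curves `C a`: the position of the place. -/

set_option autoImplicit false
set_option linter.unusedSectionVars false

namespace Pool.Agent.R925.FD

open Finset Polynomial

section place

variable {F : Type} [Field F] [Algebra ℚ F] {O : ValuationSubring F}

lemma val_const (hO : ∀ c : ℚ, algebraMap ℚ F c ∈ O) {c : ℚ} (hc : c ≠ 0) :
    O.valuation (algebraMap ℚ F c) = 1 := by
  have h1 := (O.valuation_le_one_iff _).2 (hO c)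
  have h2 := (O.valuation_le_one_iff _).2 (hO c⁻¹)
  rw [map_inv₀, map_inv₀] at h2
  have h3 : O.valuation (algebraMap ℚ F c) ≠ 0 :=
    (Valuation.ne_zero_iff _).2 ((_root_.map_ne_zero _).2 hc)
  refine le_antisymm h1 ?_
  exact (inv_le_one₀ (zero_lt_iff.2 h3)).1 h2

lemma res_eq {x : O} {y : O} (h : O.valuation ((x : F) - y) < 1) :
    IsLocalRing.residue O x = IsLocalRing.residue O y := by
  rw [← sub_eq_zero, ← map_sub, IsLocalRing.residue_eq_zero_iff]
  exact (O.valuation_lt_one_iff (x - y)).2 h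

/-- the constants in the residue field -/
noncomputable def cst (hO : ∀ c : ℚ, algebraMap ℚ F c ∈ O) : ℚ →+* O where
  toFun c := ⟨algebraMap ℚ F c, hO c⟩
  map_one' := Subtype.ext (map_one _)
  map_zero' := Subtype.ext (map_zero _)
  map_mul' _ _ := Subtype.ext (map_mul _ _ _)
  map_add' _ _ := Subtype.ext (map_add _ _ _)

/-- the values of the functions `Z`, `W`, `x'` at a rational place -/
lemma value_eq {h : ℤ[X]} {m e : ℕ} (he : h.natDegree = m * e) {a : ℤ}
    (hO : ∀ c : ℚ, algebraMap ℚ F c ∈ O)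
    (hO2 : ∀ x ∈ O, ∃ c : ℚ, O.valuation (x - algebraMap ℚ F c) < 1) {Z W x : F} (hZ : Z ∈ O)
    (hW : W ∈ O) (hx : x ∈ O) (hH : (a : F) * x ^ m = hom h Z W) {u v l : ℚ} (hl : l ≠ 0)
    (h1 : O.valuation (Z - algebraMap ℚ F (l * u)) < 1)
    (h2 : O.valuation (W - algebraMap ℚ F (l * v)) < 1) :
    ∃ x₀ : ℚ, (a : ℚ) * x₀ ^ m = hom h u v ∧ (x₀ = 0 → O.valuation x < 1) := by
  obtain ⟨c, hc⟩ := hO2 x hx
  have e1 := res_eq (O := O) (x := ⟨Z, hZ⟩) (y := cst hO (l * u)) h1
  have e2 := res_eq (O := O) (x := ⟨W, hW⟩) (y := cst hO (l * v)) h2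
  have e3 := res_eq (O := O) (x := ⟨x, hx⟩) (y := cst hO c) hc
  have e4 : (a : O) * (⟨x, hx⟩ : O) ^ m = hom h (⟨Z, hZ⟩ : O) ⟨W, hW⟩ := by
    apply Subtype.ext
    have h3 : O.subtype (hom h (⟨Z, hZ⟩ : O) ⟨W, hW⟩) = hom h Z W := hom_map h O.subtype _ _
    rw [← h3] at hH
    exact hH
  have e5 := congrArg (IsLocalRing.residue O) e4
  rw [map_mul, map_pow, hom_map, e1, e2, e3, ← hom_map, ← hom_map, map_intCast, ← map_pow] at e5
  have e6 : ((IsLocalRing.residue O).comp (cst hO)) ((a : ℚ) * c ^ m) =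
      ((IsLocalRing.residue O).comp (cst hO)) (hom h (l * u) (l * v)) := by
    rw [map_mul, map_intCast, map_pow]
    rw [RingHom.comp_apply, RingHom.comp_apply, ← map_pow]
    exact e5
  have e7 := ((IsLocalRing.residue O).comp (cst hO)).injective e6
  rw [hom_mul, he, pow_mul'] at e7
  refine ⟨c / l ^ e, ?_, fun h0 => ?_⟩
  · have hle : l ^ e ≠ 0 := pow_ne_zero e hl
    rw [div_pow, mul_div_assoc', e7]
    field_simp
  · have hc0 : c = 0 := (div_eq_zero_iff.1 h0).resolve_right (pow_ne_zero e hl)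
    rw [hc0, map_zero, sub_zero] at hc
    exact hc

/-- The position of a rational place. -/
theorem locate {h : ℤ[X]} (hh0 : h ≠ 0) {m : ℕ} (hm : 0 < m) (hmh : m ∣ h.natDegree) {a : ℤ}
    (ha : a ≠ 0) (hO : ∀ c : ℚ, algebraMap ℚ F c ∈ O)
    (hO2 : ∀ x ∈ O, ∃ c : ℚ, O.valuation (x - algebraMap ℚ F c) < 1) {z x : F} (hx0 : x ≠ 0)
    (hx : (a : F) * x ^ m = aeval z h) {u v : ℚ} (huv : u ≠ 0 ∨ v ≠ 0)
    (h1 : z ∈ O → O.valuation (algebraMap ℚ F v * z - algebraMap ℚ F u) < 1)
    (h2 : z ∉ O → O.valuation (algebraMap ℚ F v - algebraMap ℚ F u * z⁻¹) < 1)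
    (hbig : ∀ x₀ : ℚ, (a : ℚ) * x₀ ^ m = hom h u v → hom h u v = 0) : x⁻¹ ∉ O := by
  obtain ⟨e, he⟩ := hmh
  have hcF : CharZero F := charZero_of_injective_algebraMap (algebraMap ℚ F).injective
  have haF : (a : F) ≠ 0 := Int.cast_ne_zero.2 ha
  have hint : ∀ {y : F}, y ^ m ∈ O → y ∈ O := by
    intro y hy
    rw [← O.valuation_le_one_iff] at hy ⊢
    rw [map_pow] at hy
    exact (pow_le_one_iff hm.ne').1 hy
  have hainv : (a : F)⁻¹ ∈ O := by
    have h3 := hO (a : ℚ)⁻¹
    rwa [map_inv₀, map_intCast] at h3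
  have haev : hom h z 1 = aeval z h := by
    rw [hom_one, aeval_def]
    congr 1
  have hfin : O.valuation x < 1 → x⁻¹ ∉ O := by
    intro h3 h4
    rw [← O.valuation_le_one_iff, map_inv₀] at h4
    have h5 : O.valuation x ≠ 0 := (Valuation.ne_zero_iff _).2 hx0
    exact absurd h3 (not_lt.2 ((inv_le_one₀ (zero_lt_iff.2 h5)).1 h4))
  by_cases hz : z ∈ O
  · have h3 := h1 hz
    have hv : v ≠ 0 := by
      rintro rfl
      have hu : u ≠ 0 := huv.resolve_right (fun h => h rfl)
      rw [map_zero, zero_mul, zero_sub, Valuation.map_neg, val_const hO hu] at h3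
      exact lt_irrefl _ h3
    have hvF : algebraMap ℚ F v ≠ 0 := (_root_.map_ne_zero _).2 hv
    have hhz : aeval z h ∈ O := by
      rw [← haev]
      have h4 : O.subtype (hom h (⟨z, hz⟩ : O) 1) = hom h z 1 := by
        rw [hom_map]
        rfl
      rw [← h4]
      exact SetLike.coe_mem _
    have hxO : x ∈ O := by
      apply hint
      have h4 : x ^ m = (a : F)⁻¹ * aeval z h := by rw [← hx, inv_mul_cancel_left₀ haF]
      rw [h4]
      exact mul_mem hainv hhz
    obtain ⟨x₀, h5, h6⟩ := value_eq (O := O) he hO hO2 hz (one_mem O) hxO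
      (by rw [haev]; exact hx) (u := u) (v := v) (l := v⁻¹) (inv_ne_zero hv) (by
        have h7 : z - algebraMap ℚ F (v⁻¹ * u) =
            (algebraMap ℚ F v)⁻¹ * (algebraMap ℚ F v * z - algebraMap ℚ F u) := by
          rw [map_mul, map_inv₀]
          field_simp
        rw [h7, map_mul, map_inv₀, val_const hO hv, inv_one, one_mul]
        exact h3) (by
        rw [inv_mul_cancel₀ hv, map_one, sub_self, map_zero]
        exact zero_lt_one)
    have h7 := hbig x₀ h5
    rw [h7] at h5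
    have h8 : x₀ = 0 := by
      have h9 := (mul_eq_zero.1 h5).resolve_left (Int.cast_ne_zero.2 ha)
      exact eq_zero_of_pow_eq_zero h9
    exact hfin (h6 h8)
  · exfalso
    have h3 := h2 hz
    have hz0 : z ≠ 0 := by
      rintro rfl
      exact hz (zero_mem O)
    have hzi : z⁻¹ ∈ O := (O.mem_or_inv_mem z).resolve_left hz
    have hzv : O.valuation z⁻¹ < 1 := by
      have h4 : ¬ O.valuation z ≤ 1 := fun h => hz ((O.valuation_le_one_iff _).1 h)
      rw [map_inv₀]
      exact inv_lt_one_of_one_lt₀ (not_le.1 h4)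
    have hv : v = 0 := by
      by_contra hv
      have h4 : O.valuation (algebraMap ℚ F v) < 1 := by
        have h5 : algebraMap ℚ F v = (algebraMap ℚ F v - algebraMap ℚ F u * z⁻¹) +
            algebraMap ℚ F u * z⁻¹ := by ring
        rw [h5]
        refine lt_of_le_of_lt (O.valuation.map_add _ _) (max_lt h3 ?_)
        rw [map_mul]
        have h6 := (O.valuation_le_one_iff _).2 (hO u)
        exact lt_of_le_of_lt (mul_le_of_le_one_left' h6) hzv
      rw [val_const hO hv] at h4
      exact lt_irrefl _ h4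
    have hu : u ≠ 0 := huv.resolve_right (fun h => h hv)
    set x' : F := (z⁻¹) ^ e * x with hx'
    have hH : (a : F) * x' ^ m = hom h 1 z⁻¹ := by
      have h4 : hom h (z⁻¹ * z) (z⁻¹ * 1) = (z⁻¹) ^ h.natDegree * hom h z 1 := hom_mul h _ _ _
      rw [inv_mul_cancel₀ hz0, mul_one] at h4
      rw [h4, haev, ← hx, hx', he, mul_pow, ← pow_mul, mul_comm e m]
      ring
    have hx'O : x' ∈ O := by
      apply hint
      have h4 : x' ^ m = (a : F)⁻¹ * hom h 1 z⁻¹ := by rw [← hH, inv_mul_cancel_left₀ haF]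
      rw [h4]
      have h5 : O.subtype (hom h (1 : O) ⟨z⁻¹, hzi⟩) = hom h 1 z⁻¹ := by
        rw [hom_map]
        rfl
      rw [← h5]
      exact mul_mem hainv (SetLike.coe_mem _)
    obtain ⟨x₀, h5, h6⟩ := value_eq (O := O) he hO hO2 (one_mem O) hzi hx'O hH (u := u) (v := v)
      (l := u⁻¹) (inv_ne_zero hu) (by
        rw [inv_mul_cancel₀ hu, map_one, sub_self, map_zero]
        exact zero_lt_one) (by
        rw [hv, mul_zero, map_zero, sub_zero]
        exact hzv)
    have h7 := hbig x₀ h5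
    rw [hv, hom_zero_right] at h7
    rcases mul_eq_zero.1 h7 with h8 | h8
    · exact leadingCoeff_ne_zero.2 hh0 (Int.cast_eq_zero.1 h8)
    · exact pow_ne_zero _ hu h8

end place

/-- a squarefree number `a` with `a * x ^ m = r` is bounded in terms of `r` -/
lemma bound_of_pow {a : ℤ} (ha : Squarefree a) {m : ℕ} (hm : 2 ≤ m) {x r : ℚ} (hr : r ≠ 0)
    (h : (a : ℚ) * x ^ m = r) : a.natAbs ≤ r.num.natAbs * r.den := by
  have hpos : 0 < r.num.natAbs * r.den :=
    Nat.mul_pos (Int.natAbs_pos.2 (Rat.num_ne_zero.2 hr)) r.den_pos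
  apply Nat.le_of_dvd hpos
  have ha' : Squarefree a.natAbs := Int.squarefree_natAbs.2 ha
  rw [← Nat.prod_primeFactors_of_squarefree ha']
  apply Finset.prod_primes_dvd
  · intro p hp
    exact (Nat.prime_of_mem_primeFactors hp).prime
  · intro p hp
    have hpp := Nat.prime_of_mem_primeFactors hp
    have hpa : p ∣ a.natAbs := Nat.dvd_of_mem_primeFactors hp
    have : Fact p.Prime := ⟨hpp⟩
    have hx0 : x ≠ 0 := by
      rintro rfl
      rw [zero_pow (by omega), mul_zero] at h
      exact hr h.symm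
    have ha0 : (a : ℚ) ≠ 0 := Int.cast_ne_zero.2 ha.ne_zero
    have h1 : padicValRat p r = padicValRat p (a : ℚ) + m * padicValRat p x := by
      rw [← h, padicValRat.mul ha0 (pow_ne_zero m hx0), padicValRat.pow]
    have h2 : padicValRat p (a : ℚ) = 1 := by
      rw [padicValRat.of_int, padicValInt, Nat.cast_eq_one]
      have h3 := ha'.natFactorization_le_one p
      rw [Nat.factorization_def _ hpp] at h3
      have h4 : 1 ≤ padicValNat p a.natAbs :=
        one_le_padicValNat_of_dvd (Int.natAbs_pos.2 ha.ne_zero).ne' hpa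
      omega
    by_contra hcon
    have h5 : padicValRat p r = 0 := by
      have h6 : padicValRat p r = (padicValInt p r.num : ℤ) - padicValNat p r.den := rfl
      rw [h6, padicValInt.eq_zero_of_not_dvd, padicValNat.eq_zero_of_not_dvd]
      · rfl
      · exact fun h => hcon (Dvd.dvd.mul_left h _)
      · exact fun h => hcon (Dvd.dvd.mul_right (Int.natCast_dvd.1 h) _)
    rw [h5, h2] at h1
    have h6 : (m : ℤ) ∣ 1 := ⟨-padicValRat p x, by linarith⟩
    have h7 := Int.le_of_dvd one_pos h6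
    omega

end Pool.Agent.R925.FD
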