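import Pool.Agent.TH213.SEL.Gen

/-!
# Birational sections whose fixed field contains a point of an elliptic curve of rank zero

A version of `Pool.Agent.TH213.SEL.bir_pt` with the position of the rational point.
-/

set_option autoImplicit false
set_option linter.unusedSectionVars false

open IsDedekindDomain NumberField WeierstrassCurve

namespace Pool.Agent.R925.FD

open Pool.Agent.TH954 Pool.Agent.TH942 Pool.Agent.W620.SC Pool.Agent.TH213.SEL

variable {k : Type} [Field k] [NumberField k] {F Ω B : Type} [Field F] [Field Ω]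
  [Field B] [Algebra k F] [Algebra F Ω] [Algebra k Ω] [IsScalarTower k F Ω]
  [Algebra k B] [IsAlgClosure F Ω] [IsAlgClosure k B]

open scoped Classical in
/-- If the fixed field of a section contains a point of an elliptic curve of rank zero whose
`x`-coordinate is a nonconstant function in `F`, then the section comes from exactly one point; the
value of the `x`-coordinate there is that of a rational point. (The argument is that of
`Pool.Agent.TH213.SEL.bir_pt`.) -/
theorem bir_pt' {a b : k} (hE : ShortInt (sw a b)) (hfin : Finite (sw a b).toAffine.Point)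
    {M0 : ℕ} (hM1 : 1 ≤ M0) (hM : ShaKilledBy (sw a b) M0) (s : GalSection k F Ω B)
    (hloc : ∀ v : HeightOneSpectrum (𝓞 k),
      s.GeometricOver (v.adicCompletion k) (AlgebraicClosure (v.adicCompletion k)))
    (hF : ∃ t : F, Transcendental k t ∧
      Algebra.IsAlgebraic (IntermediateField.adjoin k {t}) F)
    (X : F) (hX : ∀ c : k, X ≠ algebraMap k F c) (Y : Ω) (hY : ∀ g, s.s g Y = Y)
    (hXY : Y ^ 2 = algebraMap F Ω X ^ 3 + algebraMap k Ω a * algebraMap F Ω X +
      algebraMap k Ω b) :
    ∃ O : ValuationSubring F, s.ArisesFrom O ∧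
      (∀ O' : ValuationSubring F, s.ArisesFrom O' → O' = O) ∧
      (X ∉ O ∨ ∃ (a' b' : k) (h' : (sw a b).toAffine.Nonsingular a' b'),
        (X - algebraMap k F a')⁻¹ ∉ O) := by
  have hΩ1 : IsAlgClosed Ω := IsAlgClosure.isAlgClosed F
  have hΩ2 : Algebra.IsAlgebraic F Ω := IsAlgClosure.isAlgebraic
  have hcF : CharZero F := charZero_of_injective_algebraMap (algebraMap k F).injective
  have hcΩ : CharZero Ω :=
    charZero_of_injective_algebraMap (algebraMap F Ω).injective
  have hcv : ∀ v : HeightOneSpectrum (𝓞 k), CharZero (v.adicCompletion k) := fun v =>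
    charZero_of_injective_algebraMap (algebraMap k (v.adicCompletion k)).injective
  choose pl hpl using fun v => hloc v
  have hD : 4 * a ^ 3 + 27 * b ^ 2 ≠ 0 := hE.disc
  have hns : ((sw a b).baseChange Ω).toAffine.Nonsingular (algebraMap F Ω X) Y := by
    rw [base_eq]
    apply sw_nonsing
    · have h := (map_ne_zero (algebraMap k Ω)).2 hD
      simpa only [map_add, map_mul, map_pow, map_ofNat] using h
    · exact hXY
  set P : ((sw a b).baseChange Ω).toAffine.Point := .some _ _ hns with hP
  have hPfix : ∀ g : B ≃ₐ[k] B, pm (sw a b)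
      ((s.s g : Ω →ₐ[F] Ω).restrictScalars k) P = P := by
    intro g
    obtain ⟨h', e'⟩ := pm_some (E := sw a b)
      ((s.s g : Ω →ₐ[F] Ω).restrictScalars k) hns
    rw [hP, e', Affine.Point.some.injEq]
    exact ⟨(s.s g).commutes X, hY g⟩
  obtain ⟨y, -, hy⟩ := et_fix (F := F) (Ω := Ω) (M := Ω) (B := B) hE
    (finProp_of hE (smallRank_of_finite _ hfin) 1) hM1 hM ∅
    (fun f hf => absurd hf (Set.notMem_empty f)) (Set.toFinite _)
    (∅ : Set (ValuationSubring F)) (fun O hO => absurd hO (Set.notMem_empty _)) (AlgHom.id F Ω)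
    id_range.symm.le id_range.le
    (fun _ : Fin 1 => P) (fun f hf => absurd hf (Set.notMem_empty f)) s (fun g _ => hPfix g) pl hpl
  have hgeo : ∀ v, GeoPlc (toSAct s) (pl v) := by
    intro v σ τ hστ y
    refine hpl v σ ((eqv k B).autCongr τ) ?_ y _ ⟨y.2, rfl⟩
    intro z c hc
    obtain ⟨y, rfl⟩ := (eqv k B).surjective z
    have e1 : (pl v).val ((toSAct s).j y) ((pl v).iot (toSAct s).j y) := Plc.val_j _ y
    have e2 : (pl v).val ((toSAct s).j (τ y)) ((pl v).iot (toSAct s).j (τ y)) := Plc.val_j _ (τ y)
    have e3 : s.j ((eqv k B).autCongr τ (eqv k B y)) = (toSAct s).j (τ y) := by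
      change s.j (eqv k B (τ ((eqv k B).symm (eqv k B y)))) = _
      rw [AlgEquiv.symm_apply_apply]
      rfl
    have e4 : (pl v).iot (toSAct s).j y = c := e1.unique hc
    rw [e3, ← e4, ← hστ y]
    exact e2
  match hy0 : y 0 with
  | .zero =>
    obtain ⟨O, h0, h1, h2⟩ := bir_of_val hF s pl hgeo (t := X⁻¹)
      (inv_ne_zero fun h => hX 0 (by rw [h, map_zero])) (fun v => by
        have h1 := hy v 0
        rw [hy0] at h1
        rw [map_inv₀]
        exact Plc.val_inv_of_notMem (val_x_zero (pl v) hXY h1))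
    rw [inv_inv] at h0
    exact ⟨O, h1, h2, Or.inl h0⟩
  | .some a' b' h =>
    obtain ⟨O, h0, h1, h2⟩ := bir_of_val hF s pl hgeo (t := X - algebraMap k F a')
      (sub_ne_zero.2 (hX _)) (fun v => by
        have h1 := hy v 0
        rw [hy0] at h1
        have h2 := (val_x (pl v) h1).sub (Plc.val_alg (pl := pl v) a')
        rw [sub_self] at h2
        rw [map_sub, ← IsScalarTower.algebraMap_apply]
        exact h2)
    exact ⟨O, h1, h2, Or.inr ⟨a', b', h, h0⟩⟩

end Pool.Agent.R925.FD
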