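import Pool.Agent.R925.FD.Sec3
import Pool.Agent.R925.FD.SecPt
import Pool.Agent.R925.FD.SecLoc

/-! Sections of Galois groups of function fields over almost all curves `C a`: the birational section
conjecture with the position of the rational point. -/

set_option autoImplicit false
set_option linter.unusedSectionVars false

namespace Pool.Agent.R925.FD

open Finset Polynomial IsDedekindDomain NumberField
open Pool.Agent.TH954 Pool.Agent.TH942

lemma cases_of_lt {F : Type} [Field F] [Algebra ℚ F] {O : ValuationSubring F}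
    (hO : ∀ c : ℚ, algebraMap ℚ F c ∈ O) {z : F} {u v d₁ d₂ : ℚ}
    (h : O.valuation (algebraMap ℚ F v * z - algebraMap ℚ F u) <
      O.valuation (algebraMap ℚ F d₁ * z + algebraMap ℚ F d₂)) :
    (z ∈ O → O.valuation (algebraMap ℚ F v * z - algebraMap ℚ F u) < 1) ∧
    (z ∉ O → O.valuation (algebraMap ℚ F v - algebraMap ℚ F u * z⁻¹) < 1) := by
  constructor
  · intro hz
    refine lt_of_lt_of_le h ((O.valuation_le_one_iff _).2 ?_)
    exact add_mem (mul_mem (hO _) hz) (hO _)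
  · intro hz
    have hz0 : z ≠ 0 := by
      rintro rfl
      exact hz (zero_mem O)
    have hzi : z⁻¹ ∈ O := (O.mem_or_inv_mem z).resolve_left hz
    have h1 : algebraMap ℚ F v - algebraMap ℚ F u * z⁻¹ =
        (algebraMap ℚ F v * z - algebraMap ℚ F u) * z⁻¹ := by
      field_simp
    have h2 : algebraMap ℚ F d₁ + algebraMap ℚ F d₂ * z⁻¹ =
        (algebraMap ℚ F d₁ * z + algebraMap ℚ F d₂) * z⁻¹ := by
      field_simp
    have h3 : O.valuation (algebraMap ℚ F d₁ + algebraMap ℚ F d₂ * z⁻¹) ≤ 1 :=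
      (O.valuation_le_one_iff _).2 (add_mem (hO _) (mul_mem (hO _) hzi))
    rw [h1, map_mul]
    rw [h2, map_mul] at h3
    refine lt_of_lt_of_le ?_ h3
    have h4 : O.valuation z⁻¹ ≠ 0 := (Valuation.ne_zero_iff _).2 (inv_ne_zero hz0)
    exact mul_lt_mul_of_pos_right h (zero_lt_iff.2 h4)

/-- The section comes from exactly one rational point, which lies over a zero of `h` if `a` is
large. -/
theorem bsc_loc {M₀ : ℕ} (hM₀ : 1 ≤ M₀) {f h : ℤ[X]} (hh0 : h ≠ 0) {α : ℤ}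
    (hf : EllipticFactor f α M₀) :
    ∃ N : ℕ, ∀ (F Ω B : Type) [Field F] [Field Ω] [Field B] [Algebra ℚ F] [Algebra F Ω]
      [Algebra ℚ Ω] [Algebra ℚ B] [IsScalarTower ℚ F Ω] [IsAlgClosure F Ω] [IsAlgClosure ℚ B]
      (S : GalSection ℚ F Ω B), LocallyGeometric S → ∀ (z x : F), Transcendental ℚ z →
      Algebra.IsAlgebraic (IntermediateField.adjoin ℚ {z}) F → ∀ (m : ℕ) (a : ℤ), 2 ≤ m →
      m ∣ h.natDegree → Squarefree a → N < a.natAbs → (a : F) * x ^ m = aeval z h →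
      ∀ (d : ℚ) (γ : Ω), IsSquare (d * (f.eval α : ℤ)) → (∀ σ, S.s σ γ = γ) →
      algebraMap F Ω (aeval z f) = (d : Ω) * γ ^ 2 →
      ∃ O : ValuationSubring F, S.ArisesFrom O ∧ (∀ O', S.ArisesFrom O' → O' = O) ∧ x⁻¹ ∉ O := by
  classical
  obtain ⟨A, B', p, q, r, s, c, hdisc, hfin, hSha, hps, hc, hfα, ⟨r₁, hr₁⟩, hfe⟩ := hf
  have hrs : r ≠ 0 ∨ s ≠ 0 := by
    by_contra h
    push Not at h
    apply hps
    rw [h.1, h.2]
    ring
  -- the values of `z`
  let xc : (sw (A : ℚ) (B' : ℚ)).toAffine.Point → ℚ := fun P =>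
    match P with
    | .zero => 0
    | .some x _ _ => x
  set T : Set ℚ := {ρ | ρ = hom h (-s) r ∨ ∃ P, ρ = hom h (xc P * s - q) (p - xc P * r)} with hT
  have hTf : T.Finite := by
    have h1 : T = {hom h (-s) r} ∪ Set.range (fun P => hom h (xc P * s - q) (p - xc P * r)) := by
      ext ρ
      constructor
      · rintro (h | ⟨P, h⟩)
        · exact Or.inl h
        · exact Or.inr ⟨P, h.symm⟩
      · rintro (h | ⟨P, h⟩)
        · exact Or.inl h
        · exact Or.inr ⟨P, h.symm⟩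
    rw [h1]
    exact (Set.finite_singleton _).union (Set.finite_range _)
  obtain ⟨N, hN⟩ := (hTf.image (fun ρ : ℚ => ρ.num.natAbs * ρ.den)).bddAbove
  refine ⟨N, ?_⟩
  intro F Ω B _ _ _ _ _ _ _ _ _ _ S hS z x hz halg m a hm hmh ha hNa hx d γ hd hγ hfγ
  have hbig : ∀ {u v : ℚ}, hom h u v ∈ T → ∀ x₀ : ℚ, (a : ℚ) * x₀ ^ m = hom h u v →
      hom h u v = 0 := by
    intro u v huv x₀ hx₀
    by_contra hne
    have h1 := bound_of_pow ha hm hne hx₀
    have h2 := hN ⟨_, huv, rfl⟩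
    exact absurd (h1.trans h2) (not_le.2 hNa)
  obtain ⟨r₂, hr₂⟩ := hd
  have hcF : CharZero F := charZero_of_injective_algebraMap (algebraMap ℚ F).injective
  have hcΩ : CharZero Ω := charZero_of_injective_algebraMap (algebraMap F Ω).injective
  set v : ℚ := ((f.eval α : ℤ) : ℚ) with hv
  have hv0 : v ≠ 0 := Int.cast_ne_zero.2 hfα
  set U : F := algebraMap ℚ F p * z + algebraMap ℚ F q with hU
  set V : F := algebraMap ℚ F r * z + algebraMap ℚ F s with hV
  have hV0 : V ≠ 0 := lin_ne hz hrs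
  have hXc : ∀ κ : ℚ, U / V ≠ algebraMap ℚ F κ := by
    intro κ hκ
    rw [div_eq_iff hV0] at hκ
    have h1 : algebraMap ℚ F (p - κ * r) * z + algebraMap ℚ F (q - κ * s) = 0 := by
      simp only [map_sub, map_mul]
      linear_combination hκ
    refine lin_ne hz ?_ h1
    by_contra h
    push Not at h
    apply hps
    linear_combination s * h.1 - r * h.2
  have hfz : aeval z f = algebraMap ℚ F c * V ^ 4 *
      ((U / V) ^ 3 + algebraMap ℚ F (A : ℚ) * (U / V) + algebraMap ℚ F (B' : ℚ)) := by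
    rw [aeval_int, hfe]
    simp only [map_mul, map_add, map_pow, aeval_C, aeval_X]
    rw [← hU, ← hV]
    field_simp
  have hvΩ : (v : Ω) ≠ 0 := Rat.cast_ne_zero.2 hv0
  have hcΩ0 : (c : Ω) ≠ 0 := Rat.cast_ne_zero.2 hc
  have hVΩ : algebraMap F Ω V ≠ 0 := (_root_.map_ne_zero _).2 hV0
  set Y : Ω := (r₁ : Ω) * r₂ * γ / (v * c * algebraMap F Ω V ^ 2) with hY
  have hYfix : ∀ g, S.s g Y = Y := by
    intro g
    rw [hY, map_div₀, map_mul, map_mul, map_mul, map_mul, map_ratCast, map_ratCast, map_ratCast,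
      map_ratCast, map_pow, hγ g, AlgEquiv.commutes]
  have hr₁' : (r₁ : Ω) ^ 2 = c * v := by
    rw [sq]
    exact_mod_cast congrArg (Rat.cast (K := Ω)) hr₁.symm
  have hr₂' : (r₂ : Ω) ^ 2 = d * v := by
    rw [sq]
    exact_mod_cast congrArg (Rat.cast (K := Ω)) hr₂.symm
  have hfΩ := hfγ
  rw [hfz] at hfΩ
  have hYX : Y ^ 2 = algebraMap F Ω (U / V) ^ 3 + algebraMap ℚ Ω (A : ℚ) * algebraMap F Ω (U / V) +
      algebraMap ℚ Ω (B' : ℚ) := by
    have h1 : algebraMap F Ω (U / V) ^ 3 + algebraMap ℚ Ω (A : ℚ) * algebraMap F Ω (U / V) +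
        algebraMap ℚ Ω (B' : ℚ) = (d * γ ^ 2) / (c * algebraMap F Ω V ^ 4) := by
      rw [eq_div_iff (mul_ne_zero hcΩ0 (pow_ne_zero 4 hVΩ)), ← hfΩ]
      simp only [map_mul, map_add, map_pow, ← IsScalarTower.algebraMap_apply]
      rw [eq_ratCast (algebraMap ℚ Ω) c]
      ring
    rw [h1, hY, div_pow, mul_pow, mul_pow, hr₁', hr₂']
    field_simp
  obtain ⟨O, h1, h2, h3⟩ := bir_pt' (shortInt_of hdisc)
    hfin hM₀ hSha S hS ⟨z, hz, halg⟩ (U / V) hXc Y hYfix hYX
  refine ⟨O, h1, h2, ?_⟩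
  have hO := h1.2.1
  have hO2 := h1.2.2.1
  have haF : (a : F) ≠ 0 := Int.cast_ne_zero.2 ha.ne_zero
  have hx0 : x ≠ 0 := by
    rintro rfl
    rw [zero_pow (by omega : m ≠ 0), mul_zero] at hx
    exact aeval_ne_zero hz hh0 hx.symm
  have hval0 : ∀ {y : F}, y ≠ 0 → O.valuation y ≠ 0 := fun hy => (Valuation.ne_zero_iff _).2 hy
  rcases h3 with h3 | ⟨a', b', hns, h3⟩
  · have h4 : O.valuation (algebraMap ℚ F r * z - algebraMap ℚ F (-s)) <
        O.valuation (algebraMap ℚ F p * z + algebraMap ℚ F q) := by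
      have h5 : algebraMap ℚ F r * z - algebraMap ℚ F (-s) = V := by
        rw [map_neg, sub_neg_eq_add]
      rw [h5, ← hU]
      rw [← O.valuation_le_one_iff, not_le, map_div₀] at h3
      exact (one_lt_div₀ (zero_lt_iff.2 (hval0 hV0))).1 h3
    obtain ⟨h6, h7⟩ := cases_of_lt hO h4
    refine locate hh0 (by omega) hmh ha.ne_zero hO hO2 hx0 hx (u := -s) (v := r) ?_ h6 h7
      (hbig (Or.inl rfl))
    rcases hrs with h | h
    · exact Or.inr h
    · exact Or.inl (neg_ne_zero.2 h)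
  · have hXa : U / V - algebraMap ℚ F a' ≠ 0 := sub_ne_zero.2 (hXc a')
    have h4 : O.valuation (algebraMap ℚ F (p - a' * r) * z - algebraMap ℚ F (a' * s - q)) <
        O.valuation (algebraMap ℚ F r * z + algebraMap ℚ F s) := by
      have h5 : algebraMap ℚ F (p - a' * r) * z - algebraMap ℚ F (a' * s - q) =
          (U / V - algebraMap ℚ F a') * V := by
        rw [sub_mul, div_mul_cancel₀ _ hV0]
        simp only [map_sub, map_mul]
        ring
      rw [h5, ← hV, map_mul]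
      rw [← O.valuation_le_one_iff, not_le, map_inv₀] at h3
      have h6 : O.valuation (U / V - algebraMap ℚ F a') < 1 :=
        (one_lt_inv₀ (zero_lt_iff.2 (hval0 hXa))).1 h3
      calc O.valuation (U / V - algebraMap ℚ F a') * O.valuation V
          < 1 * O.valuation V := mul_lt_mul_of_pos_right h6 (zero_lt_iff.2 (hval0 hV0))
        _ = O.valuation V := one_mul _
    obtain ⟨h6, h7⟩ := cases_of_lt hO h4
    refine locate hh0 (by omega) hmh ha.ne_zero hO hO2 hx0 hx (u := a' * s - q) (v := p - a' * r)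
      ?_ h6 h7 (hbig (Or.inr ⟨.some a' b' hns, rfl⟩))
    by_contra hcon
    push Not at hcon
    apply hps
    linear_combination r * hcon.1 + s * hcon.2

/-- Let `F` be an extension of `ℚ` with elements `z`, `x`, `y`, `b y ^ n = ∏ g k (z)`,
`a x ^ m = h (z)`, where `z` is transcendental and `F` is algebraic over `ℚ(z)`, that is, the
function field of the curve `C a` or of a covering of it, and let `Ω` be an algebraic closure of `F`.
Every section of `Gal(Ω/F) → G_ℚ` which is geometric over the completions of `ℚ` at the finite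
places arises from exactly one rational point, and `x = 0` there. -/
def SectionsFromZeros {K : Type} [Fintype K] (n m : ℕ) (b a : ℤ) (g : K → ℤ[X]) (h : ℤ[X]) :
    Prop :=
  ∀ (F Ω B : Type) [Field F] [Field Ω] [Field B] [Algebra ℚ F] [Algebra F Ω] [Algebra ℚ Ω]
    [Algebra ℚ B] [IsScalarTower ℚ F Ω] [IsAlgClosure F Ω] [IsAlgClosure ℚ B] (z x y : F),
    Transcendental ℚ z → Algebra.IsAlgebraic (IntermediateField.adjoin ℚ {z}) F →
    (b : F) * y ^ n = ∏ k, aeval z (g k) → (a : F) * x ^ m = aeval z h →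
    ∀ s : GalSection ℚ F Ω B, LocallyGeometric s →
      (∃! O : ValuationSubring F, s.ArisesFrom O) ∧
        ∀ O : ValuationSubring F, s.ArisesFrom O → x⁻¹ ∉ O

lemma absorb {κ : ℝ} (hκ : 0 < κ) (C : ℝ) (N : ℕ) : ∃ κ' : ℝ, 0 < κ' ∧ ∃ C' : ℝ, ∀ X : ℕ, 3 ≤ X →
    C * X * (Real.log X) ^ (-κ) + N ≤ C' * X * (Real.log X) ^ (-κ') := by
  refine ⟨min κ 1, lt_min hκ one_pos, |C| + N, fun X hX => ?_⟩
  have hX' : (3 : ℝ) ≤ X := by exact_mod_cast hX
  have hX0 : (0 : ℝ) < X := by linarith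
  have hlog : 1 ≤ Real.log X := by
    rw [Real.le_log_iff_exp_le hX0]
    have := Real.exp_one_lt_d9
    linarith
  have hlogX : Real.log X ≤ X := by
    have := Real.log_le_sub_one_of_pos hX0
    linarith
  have h1 : (Real.log X) ^ (-κ) ≤ (Real.log X) ^ (-min κ 1) :=
    Real.rpow_le_rpow_of_exponent_le hlog (neg_le_neg (min_le_left _ _))
  have h2 : (Real.log X) ^ (-(1 : ℝ)) ≤ (Real.log X) ^ (-min κ 1) :=
    Real.rpow_le_rpow_of_exponent_le hlog (neg_le_neg (min_le_right _ _))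
  have h3 : 1 ≤ X * (Real.log X) ^ (-min κ 1) := by
    refine le_trans ?_ (mul_le_mul_of_nonneg_left h2 hX0.le)
    rw [Real.rpow_neg_one, ← div_eq_mul_inv, one_le_div (by linarith)]
    exact hlogX
  have h4 : 0 ≤ (Real.log X) ^ (-κ) := Real.rpow_nonneg (by linarith) _
  calc C * X * (Real.log X) ^ (-κ) + N
      ≤ |C| * (X * (Real.log X) ^ (-min κ 1)) + N * (X * (Real.log X) ^ (-min κ 1)) := by
        refine add_le_add ?_ ?_
        · rw [mul_assoc]
          refine (mul_le_mul_of_nonneg_right (le_abs_self C) (mul_nonneg hX0.le h4)).trans ?_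
          exact mul_le_mul_of_nonneg_left (mul_le_mul_of_nonneg_left h1 hX0.le) (abs_nonneg C)
        · calc (N : ℝ) = N * 1 := (mul_one _).symm
            _ ≤ N * (X * (Real.log X) ^ (-min κ 1)) :=
              mul_le_mul_of_nonneg_left h3 (Nat.cast_nonneg N)
    _ = (|C| + N) * X * (Real.log X) ^ (-min κ 1) := by ring

variable {K : Type} [Fintype K]

theorem fromZeros_main {b : ℤ} (hb : b ≠ 0) {g : K → ℤ[X]} {h : ℤ[X]}
    (hg0 : ∀ k, g k ≠ 0) (hh0 : h ≠ 0) (hdeg : ∀ k, 2 ∣ (g k).natDegree)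
    (hgg : ∀ k l, k ≠ l →
      IsCoprime ((g k).map (Int.castRingHom ℚ)) ((g l).map (Int.castRingHom ℚ)))
    (hgh : ∀ k, IsCoprime (h.map (Int.castRingHom ℚ)) ((g k).map (Int.castRingHom ℚ)))
    (hOZ : OnlyZeros b g h) {M₀ : ℕ} (hM₀ : 1 ≤ M₀) (T : Finset K)
    (hT : ∀ α : ℤ, h.eval α = 0 → EllipticFactor (∏ k ∈ T, g k) α M₀) :
    ∃ κ : ℝ, 0 < κ ∧ ∃ C : ℝ, ∀ X : ℕ, 3 ≤ X →
      ({a : ℤ | a.natAbs ≤ X ∧ Squarefree a ∧ ∃ m, 2 ≤ m ∧ m ∣ h.natDegree ∧
        ¬ SectionsFromZeros 2 m b a g h}.ncard : ℝ) ≤ C * X * (Real.log X) ^ (-κ) := by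
  classical
  obtain ⟨κ, hκ, C, hC⟩ := sec_main (n := 2) (by norm_num) hb hg0 hh0 hdeg hgg hgh
  -- the constant
  have hroots : {α : ℤ | h.eval α = 0}.Finite := by
    refine (Polynomial.finite_setOfPred_isRoot hh0).subset ?_
    intro α hα
    exact hα
  choose N hN using fun α : {α : ℤ // h.eval α = 0} => bsc_loc hM₀ hh0 (hT α.1 α.2)
  obtain ⟨N₀, hN₀⟩ : ∃ N₀ : ℕ, ∀ α, N α ≤ N₀ := by
    have : Finite {α : ℤ // h.eval α = 0} := hroots
    obtain ⟨N₀, hN₀⟩ := (Set.finite_range N).bddAbove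
    exact ⟨N₀, fun α => hN₀ ⟨α, rfl⟩⟩
  obtain ⟨κ', hκ', C', hC'⟩ := absorb hκ C (2 * N₀ + 1)
  refine ⟨κ', hκ', C', fun X hX => le_trans ?_ (hC' X hX)⟩
  have hfin : ∀ (X : ℕ) (S : Set ℤ), (∀ a ∈ S, a.natAbs ≤ X) → S.Finite := by
    intro X S hS
    apply (Set.finite_Icc (-(X : ℤ)) X).subset
    intro d hd
    have h1 := hS d hd
    rw [Set.mem_Icc]
    omega
  have hsub : {a : ℤ | a.natAbs ≤ X ∧ Squarefree a ∧ ∃ m, 2 ≤ m ∧ m ∣ h.natDegree ∧
      ¬ SectionsFromZeros 2 m b a g h} ⊆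
      {a : ℤ | a.natAbs ≤ X ∧ Squarefree a ∧ ∃ m, 2 ≤ m ∧ m ∣ h.natDegree ∧
        ¬ SectionsPersistent 2 m b a g h} ∪ Set.Icc (-(N₀ : ℤ)) N₀ := by
    rintro a ⟨h1, h2, m, hm, hmh, hno⟩
    by_cases ha : a.natAbs ≤ N₀
    · right
      rw [Set.mem_Icc]
      omega
    · left
      refine ⟨h1, h2, m, hm, hmh, fun hP => hno ?_⟩
      intro F Ω B _ _ _ _ _ _ _ _ _ _ z x y hz halg hy hx s hs
      have hcF : CharZero F := charZero_of_injective_algebraMap (algebraMap ℚ F).injective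
      have hcΩ : CharZero Ω := charZero_of_injective_algebraMap (algebraMap F Ω).injective
      obtain ⟨δ, h3, h4, h5⟩ := hP F Ω B z x y hz hy hx s hs
      obtain ⟨α, hα, hsq⟩ := hOZ δ h3 h5
      choose γ hγ hγ' using h4
      have hlt : N ⟨α, hα⟩ < a.natAbs := lt_of_le_of_lt (hN₀ _) (not_le.1 ha)
      obtain ⟨O, h6, h7, h8⟩ := hN ⟨α, hα⟩ F Ω B s hs z x hz halg m a hm hmh h2 hlt hx
        (∏ k ∈ T, δ k) (∏ k ∈ T, γ k) (by
          choose r hr using hsq
          refine ⟨∏ k ∈ T, r k, ?_⟩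
          rw [eval_prod, Int.cast_prod, ← prod_mul_distrib, ← prod_mul_distrib]
          exact prod_congr rfl fun k _ => hr k) (by
          intro σ
          rw [map_prod]
          exact prod_congr rfl fun k _ => hγ k σ) (by
          rw [map_prod, map_prod, prod_congr rfl fun k _ => hγ' k, prod_mul_distrib, prod_pow,
            Rat.cast_prod])
      exact ⟨⟨O, h6, h7⟩, fun O' hO' => by rw [h7 O' hO']; exact h8⟩
  have h1 := Set.ncard_le_ncard hsub ((hfin X _ fun a ha => ha.1).union (Set.finite_Icc _ _))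
  have h2 := h1.trans (Set.ncard_union_le _ _)
  have h3 : (Set.Icc (-(N₀ : ℤ)) N₀).ncard = 2 * N₀ + 1 := by
    rw [← Finset.coe_Icc, Set.ncard_coe_finset, Int.card_Icc]
    omega
  rw [h3] at h2
  have h4 : ({a : ℤ | a.natAbs ≤ X ∧ Squarefree a ∧ ∃ m, 2 ≤ m ∧ m ∣ h.natDegree ∧
      ¬ SectionsFromZeros 2 m b a g h}.ncard : ℝ) ≤
      ({a : ℤ | a.natAbs ≤ X ∧ Squarefree a ∧ ∃ m, 2 ≤ m ∧ m ∣ h.natDegree ∧
        ¬ SectionsPersistent 2 m b a g h}.ncard : ℝ) + ((2 * N₀ + 1 : ℕ) : ℝ) := by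
    exact_mod_cast h2
  exact h4.trans (add_le_add (hC X hX) le_rfl)

end Pool.Agent.R925.FD
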