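import Pool.Agent.R925.FD.BM
import Pool.Agent.R925.FD.Char
import Pool.Agent.R925.FD.Ex

/-! Persistent classes if the zeros of `h` are two rational numbers; rational points and classes. -/

set_option autoImplicit false

namespace Pool.Agent.R925.FD

open Finset Polynomial

/-- If the zeros of `h` are (at most) two integers, the class of a persistent covering is the class
of one of the zeros. -/
theorem persistent_two {K : Type} (g : K → ℤ[X]) (h : ℤ[X]) (α₁ α₂ : ℤ)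
    (hz : ∀ β : AlgebraicClosure ℚ, aeval β h = 0 → β = α₁ ∨ β = α₂)
    (h1 : ∀ k, (g k).eval α₁ ≠ 0) (h2 : ∀ k, (g k).eval α₂ ≠ 0) (δ : K → ℚ) (hδ : ∀ k, δ k ≠ 0)
    (hper : Persistent 2 g h δ) :
    (∀ k, IsSquare (δ k * ((g k).eval α₁ : ℤ))) ∨ ∀ k, IsSquare (δ k * ((g k).eval α₂ : ℤ)) := by
  by_contra hcon
  rw [not_or] at hcon
  obtain ⟨hc1, hc2⟩ := hcon
  push Not at hc1 hc2
  obtain ⟨k₁, hk₁⟩ := hc1
  obtain ⟨k₂, hk₂⟩ := hc2
  set W := AlgebraicClosure ℚ with hW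
  have hsqrt : ∀ q : ℚ, ∃ x : W, x ^ 2 = (q : W) := fun q => by
    obtain ⟨x, hx⟩ := IsAlgClosed.exists_pow_nat_eq (q : W) (n := 2) (by norm_num)
    exact ⟨x, hx⟩
  have hns : ∀ (k : K) (A : ℤ), ¬ IsSquare (δ k * (A : ℚ)) → ¬ IsSquare ((A : ℚ) / δ k) := by
    rintro k A hA ⟨r, hr⟩
    apply hA
    refine ⟨δ k * r, ?_⟩
    have h3 := hδ k
    rw [div_eq_iff h3] at hr
    rw [hr]
    ring
  obtain ⟨x, hx⟩ := hsqrt (((g k₁).eval α₁ : ℤ) / δ k₁)
  obtain ⟨y, hy⟩ := hsqrt (((g k₂).eval α₂ : ℤ) / δ k₂)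
  have hne : ∀ (u : W) (k : K) (A : ℤ), A ≠ 0 → u ^ 2 = (((A : ℚ) / δ k : ℚ) : W) → u ≠ 0 := by
    rintro u k A hA hu rfl
    rw [zero_pow two_ne_zero] at hu
    have h3 : ((A : ℚ) / δ k : ℚ) = 0 := by exact_mod_cast hu.symm
    exact div_ne_zero (Int.cast_ne_zero.2 hA) (hδ k) h3
  obtain ⟨σ, -, hσx, hσy⟩ := two hx hy (fun _ => True) (fun _ _ _ _ => trivial)
    (by obtain ⟨σ, hσ⟩ := exists_neg x _ hx (hns _ _ hk₁); exact ⟨σ, trivial, hσ⟩)
    (by obtain ⟨σ, hσ⟩ := exists_neg y _ hy (hns _ _ hk₂); exact ⟨σ, trivial, hσ⟩)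
  obtain ⟨β, -, hβh, hyk⟩ := hper σ
  have key : ∀ (α : ℤ) (k : K) (u : W), (g k).eval α ≠ 0 →
      u ^ 2 = ((((g k).eval α : ℤ) / δ k : ℚ) : W) → σ u = -u → β = α → False := by
    intro α k u hA hu hσu hβ
    obtain ⟨v, hσv, hv⟩ := hyk k
    have hδW : (δ k : W) ≠ 0 := Rat.cast_ne_zero.2 (hδ k)
    refine moved (x := u) (y := v) ?_ hσu (hne u k _ hA hu) hσv
    rw [hu]
    have h3 : aeval β (g k) = (((g k).eval α : ℤ) : W) := by
      rw [hβ]
      have h4 := aeval_algebraMap_apply_eq_algebraMap_eval (A := W) α (g k)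
      rw [eq_intCast, eq_intCast] at h4
      exact h4
    rw [h3] at hv
    push_cast
    rw [eq_div_iff hδW, mul_comm, ← hv]
  rcases hz β hβh with h3 | h3
  · exact key α₁ k₁ x (h1 k₁) hx hσx h3
  · exact key α₂ k₂ y (h2 k₂) hy hσy h3

/-- A rational point of the curve lifts to a covering. -/
theorem exists_class {K : Type} [Fintype K] [DecidableEq K] (n m : ℕ) (hn : 0 < n) (b a : ℤ)
    (hb : b ≠ 0) (g : K → ℤ[X]) (h : ℤ[X]) (hg0 : ∀ k, g k ≠ 0)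
    (hgg : ∀ k l, k ≠ l →
      IsCoprime ((g k).map (Int.castRingHom ℚ)) ((g l).map (Int.castRingHom ℚ)))
    (hC : CurveHasPoint n m b a g h ℚ) :
    ∃ δ : K → ℚ, IsClass n b δ ∧ CoveringHasPoint n m a g h δ ℚ := by
  obtain ⟨z, w, x, y, hzw, hy, hx⟩ := hC
  by_cases h0 : ∃ k, hom (g k) z w = 0
  · obtain ⟨k, hk⟩ := h0
    have hl : ∀ l, l ≠ k → hom (g l) z w ≠ 0 := fun l hlk =>
      coprime_field (hg0 k) (hgg k l hlk.symm) hzw hk
    have hP : ∏ l ∈ univ.erase k, hom (g l) z w ≠ 0 :=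
      prod_ne_zero_iff.2 fun l h1 => hl l (ne_of_mem_erase h1)
    have hbq : (b : ℚ) ≠ 0 := Int.cast_ne_zero.2 hb
    refine ⟨fun l => if l = k then b * (∏ l ∈ univ.erase k, hom (g l) z w)⁻¹ else hom (g l) z w,
      ⟨fun l => ?_, 1, ?_⟩, z, w, x, hzw, hx, fun l => ?_⟩
    · simp only
      split_ifs with h1
      · exact mul_ne_zero hbq (inv_ne_zero hP)
      · exact hl l h1
    · rw [← mul_prod_erase univ _ (mem_univ k), if_pos rfl]
      have h2 : ∏ l ∈ univ.erase k, (if l = k then (b : ℚ) * (∏ l ∈ univ.erase k, hom (g l) z w)⁻¹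
          else hom (g l) z w) = ∏ l ∈ univ.erase k, hom (g l) z w :=
        prod_congr rfl fun l h1 => if_neg (ne_of_mem_erase h1)
      rw [h2, one_pow, mul_assoc, inv_mul_cancel₀ hP]
    · by_cases h1 : l = k
      · refine ⟨0, ?_⟩
        rw [h1, hk, zero_pow hn.ne', mul_zero]
      · refine ⟨1, ?_⟩
        simp only
        rw [if_neg h1, one_pow, mul_one, Rat.cast_id]
  · push Not at h0
    refine ⟨fun k => hom (g k) z w, ⟨h0, y, hy.symm⟩, z, w, x, hzw, hx, fun k => ⟨1, ?_⟩⟩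
    rw [one_pow, mul_one, Rat.cast_id]

end Pool.Agent.R925.FD
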